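import Pool.Agent.W2helper67.RL.Cnt

set_option autoImplicit false

/-! # One block -/

namespace Pool.Agent.W2helper67.RL

open Complex Filter Topology MeasureTheory Set
open Pool.Agent.W2helper93.NV

variable {ι : Type} [Fintype ι]

lemma lin_at {ρ t η R : ℝ} (x : ι → ℕ) (n : ℕ) (hρ : 0 < ρ) (hη : 0 ≤ η) (h1 : t ≤ od n)
    (h2 : od n < t + ρ) (hG1 : |Gf ρ t 1| ≤ η) (hG : ∀ i, |Gf ρ t (x i)| ≤ R)
    (hq : ∀ i, ∀ q : ℤ, |(q : ℝ)| ≤ R + 2 * η + 1 → |Gf ρ (t + x i * ρ) q| ≤ η) (i : ι) :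
    |(od (n + x i) - t) / ρ - x i + Gf ρ t (x i)| ≤ 2 * η + 1 := by
  refine conv hρ (x i) n ((le_od n t).1 h1) ?_ hη (hG i) (hq i)
  have k1 : n < NL (t + ρ) := (od_lt n _).1 h2
  have k2 : (n : ℝ) + 1 ≤ NL (t + ρ) := by exact_mod_cast k1
  have k3 : Gf ρ t 1 = (NL (t + ρ) : ℝ) - NL t - 1 := by unfold Gf; rw [one_mul]
  have k4 := (abs_le.1 hG1).2
  linarith

lemma comb {ρ t : ℝ} (hρ : 0 < ρ) (c x y g : ι → ℝ) :
    ∑ i, c i * g i - (∑ i, c i * x i) + (∑ i, c i * y i - (∑ i, c i) * t) / ρ =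
      ∑ i, c i * ((y i - t) / ρ - x i + g i) := by
  have e : ∀ i, c i * ((y i - t) / ρ - x i + g i) =
      (c i * y i - c i * t) / ρ - c i * x i + c i * g i := fun i => by ring
  simp_rw [e]
  rw [Finset.sum_add_distrib, Finset.sum_sub_distrib, ← Finset.sum_div, Finset.sum_sub_distrib,
    ← Finset.sum_mul]
  ring

lemma case0 {ρ t η S B E : ℝ} (hρ : 0 < ρ) (c x y g : ι → ℝ) (hc : ∑ i, c i = 0)
    (hS : ∑ i, |c i| ≤ S) (hη : 0 ≤ η) (h : ∀ i, |(y i - t) / ρ - x i + g i| ≤ 2 * η + 1)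
    (hB : |∑ i, c i * y i - E| ≤ B) :
    |∑ i, c i * g i - (∑ i, c i * x i - E / ρ)| ≤ S * (2 * η + 1) + B / ρ := by
  have h1 := comb (t := t) hρ c x y g
  rw [hc, zero_mul, sub_zero] at h1
  have h2 : |∑ i, c i * ((y i - t) / ρ - x i + g i)| ≤ S * (2 * η + 1) := by
    refine (Finset.abs_sum_le_sum_abs _ _).trans ?_
    calc ∑ i, |c i * ((y i - t) / ρ - x i + g i)| ≤ ∑ i, |c i| * (2 * η + 1) := by
          refine Finset.sum_le_sum fun i _ => ?_
          rw [abs_mul]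
          exact mul_le_mul_of_nonneg_left (h i) (abs_nonneg _)
      _ = (∑ i, |c i|) * (2 * η + 1) := by rw [← Finset.sum_mul]
      _ ≤ _ := mul_le_mul_of_nonneg_right hS (by positivity)
  have h3 : ∑ i, c i * g i - (∑ i, c i * x i - E / ρ) =
      ∑ i, c i * ((y i - t) / ρ - x i + g i) - (∑ i, c i * y i - E) / ρ := by
    rw [← h1]
    ring
  rw [h3]
  have h4 : |(∑ i, c i * y i - E) / ρ| ≤ B / ρ := by
    rw [abs_div, abs_of_pos hρ]
    exact div_le_div_of_nonneg_right hB hρ.le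
  exact (abs_sub _ _).trans (add_le_add h2 h4)

lemma case1 {ρ t η R S B E X : ℝ} (hρ : 0 < ρ) (c x y g : ι → ℝ)
    (hS : ∑ i, |c i| ≤ S) (h : ∀ i, |(y i - t) / ρ - x i + g i| ≤ 2 * η + 1)
    (hg : ∀ i, |g i| ≤ R) (hx : ∀ i, |x i| ≤ X) (hB : |∑ i, c i * y i - E| ≤ B)
    (hpos : 0 ≤ 2 * η + 1 + X + R) :
    |(∑ i, c i) * t - E| ≤ S * (ρ * (2 * η + 1 + X + R)) + B := by
  have h1 : ∀ i, |y i - t| ≤ ρ * (2 * η + 1 + X + R) := by
    intro i
    have k1 : (y i - t) / ρ = ((y i - t) / ρ - x i + g i) + x i - g i := by ring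
    have k2 : |(y i - t) / ρ| ≤ 2 * η + 1 + X + R := by
      rw [k1]
      refine (abs_sub _ _).trans (add_le_add ((abs_add_le _ _).trans (add_le_add (h i) (hx i))) (hg i))
    rw [abs_div, abs_of_pos hρ, div_le_iff₀ hρ] at k2
    linarith
  have h2 : |∑ i, c i * (y i - t)| ≤ S * (ρ * (2 * η + 1 + X + R)) := by
    refine (Finset.abs_sum_le_sum_abs _ _).trans ?_
    calc ∑ i, |c i * (y i - t)| ≤ ∑ i, |c i| * (ρ * (2 * η + 1 + X + R)) := by
          refine Finset.sum_le_sum fun i _ => ?_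
          rw [abs_mul]
          exact mul_le_mul_of_nonneg_left (h1 i) (abs_nonneg _)
      _ = (∑ i, |c i|) * (ρ * (2 * η + 1 + X + R)) := by rw [← Finset.sum_mul]
      _ ≤ _ := mul_le_mul_of_nonneg_right hS (by positivity)
  have h3 : (∑ i, c i) * t - E = (∑ i, c i * y i - E) - ∑ i, c i * (y i - t) := by
    simp_rw [mul_sub]
    rw [Finset.sum_sub_distrib, ← Finset.sum_mul]
    ring
  rw [h3]
  have h4 := (abs_sub (∑ i, c i * y i - E) (∑ i, c i * (y i - t)))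
  linarith

/-- an interval -/
lemma short_set {s e H α β : ℝ} (hs : 1 ≤ |s|) (hH : 0 ≤ H) :
    MeasurableSet {t ∈ Set.Ioc α β | |s * t - e| ≤ H} ∧
    volume.real {t ∈ Set.Ioc α β | |s * t - e| ≤ H} ≤ 2 * H := by
  have hm : MeasurableSet {t : ℝ | |s * t - e| ≤ H} :=
    measurableSet_le (by fun_prop) measurable_const
  refine ⟨measurableSet_Ioc.inter hm, ?_⟩
  have hs0 : s ≠ 0 := by
    rintro rfl
    rw [abs_zero] at hs
    linarith
  have h1 : {t ∈ Set.Ioc α β | |s * t - e| ≤ H} ⊆ Set.Icc (e / s - H) (e / s + H) := by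
    rintro t ⟨_, ht⟩
    have h2 : s * t - e = s * (t - e / s) := by field_simp
    rw [h2, abs_mul] at ht
    have h3 : |t - e / s| ≤ H := by
      have := mul_le_mul_of_nonneg_right hs (abs_nonneg (t - e / s))
      linarith
    rw [abs_le] at h3
    exact ⟨by linarith [h3.1], by linarith [h3.2]⟩
  refine (measureReal_mono h1 (by exact measure_Icc_lt_top.ne)).trans (le_of_eq ?_)
  rw [measureReal_def, Real.volume_Icc, ENNReal.toReal_ofReal (by linarith)]
  ring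

/-- **one block** -/
theorem block (A M : ℕ) (C ε : ℝ) (hC : 0 ≤ C) (hε : 0 < ε) : ∃ κ r0 T0 : ℝ, 0 < κ ∧ 3 ≤ r0 ∧
    10 ≤ T0 ∧ ∀ T : ℝ, T0 ≤ T → ∀ r : ℝ, r0 ≤ r → r ^ (A + 1) ≤ 3 * Real.log T →
    ∀ x : ι → ℕ, (∀ i j, i ≠ j → r ≤ |(x i : ℝ) - x j|) → (∀ i, (x i : ℝ) ≤ r ^ A) →
    ∀ cs : Finset (ι → ℝ), cs.card ≤ M → (∀ c ∈ cs, (∀ i, |c i| ≤ C) ∧ (∃ i, 1 ≤ |c i|) ∧
      (∑ i, c i = 0 ∨ 1 ≤ |∑ i, c i|)) →
    ∀ E : (ι → ℝ) → ℝ, ∀ F : Finset ℕ, (∀ n ∈ F, T ≤ od n ∧ od n < 2 * T ∧ ∃ c ∈ cs,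
      |∑ i, c i * od (n + x i) - E c| ≤ κ * Real.sqrt (Real.log r) / Real.log T) →
    (F.card : ℝ) ≤ ε * (T * Real.log T) := by
  classical
  obtain ⟨S, hS⟩ : ∃ S : ℝ, S = C * Fintype.card ι + 1 := ⟨_, rfl⟩
  have hS1 : 1 ≤ S := by
    rw [hS]
    have : 0 ≤ C * Fintype.card ι := by positivity
    linarith
  have hS0 : 0 < S := by linarith
  obtain ⟨Cg, T1, hCg, hT1, hg⟩ := gvar
  obtain ⟨lam, hlam⟩ : ∃ lam : ℝ, lam = ε / (2 * (2 + Cg)) := ⟨_, rfl⟩
  have hlam0 : 0 < lam := by rw [hlam]; positivity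
  obtain ⟨Nc, hNc⟩ : ∃ Nc : ℝ, Nc = M := ⟨_, rfl⟩
  have hNc0 : 0 ≤ Nc := by rw [hNc]; positivity
  obtain ⟨ε1, hε1⟩ : ∃ ε1 : ℝ, ε1 = lam ^ 2 / (4 * (Nc + 1)) := ⟨_, rfl⟩
  have hε10 : 0 < ε1 := by rw [hε1]; positivity
  obtain ⟨δ, r1, T2, hδ, hr1, hT2, hsb⟩ := small_ball (ι := ι) A C ε1 hC hε10
  obtain ⟨η0, hη0⟩ : ∃ η0 : ℝ, η0 = δ / (8 * S) := ⟨_, rfl⟩
  have hη00 : 0 < η0 := by rw [hη0]; positivity
  obtain ⟨m1, r2, T3, hm1, hr2, hT3, hex⟩ := exc (ι := ι) A η0 (lam ^ 2 / 2) hη00 (by positivity)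
  obtain ⟨Ce, T4, hCe, hT4, hends⟩ := ends
  obtain ⟨H, hH⟩ : ∃ H : ℝ, H = 26 * S + 3 * δ := ⟨_, rfl⟩
  have hH0 : 0 ≤ H := by rw [hH]; positivity
  obtain ⟨D, hD⟩ : ∃ D : ℝ, D = 2 * S / δ := ⟨_, rfl⟩
  have hD0 : 0 ≤ D := by rw [hD]; positivity
  have ev1 : ∀ᶠ T : ℝ in atTop, 2 * Real.log T + 7 ≤ T / 2 := by
    have h1 : (fun T : ℝ => 2 * Real.log T + 7) =o[atTop] fun T : ℝ => T :=
      (Real.isLittleO_log_id_atTop.const_mul_left 2).add (Asymptotics.isLittleO_const_id_atTop _)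
    have h2 := h1.bound (c := 1 / 2) (by norm_num)
    filter_upwards [h2, eventually_ge_atTop 1] with T hT hT1
    rw [Real.norm_of_nonneg (by linarith : (0 : ℝ) ≤ T)] at hT
    have := (le_abs_self _).trans hT
    linarith
  have ev2 : ∀ᶠ T : ℝ in atTop, 4 * Ce * Real.log T ≤ ε * T := by
    have h1 : (fun T : ℝ => 4 * Ce * Real.log T) =o[atTop] fun T : ℝ => T :=
      Real.isLittleO_log_id_atTop.const_mul_left _
    have h2 := h1.bound (c := ε) hε
    filter_upwards [h2, eventually_ge_atTop 1] with T hT hT1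
    rw [Real.norm_of_nonneg (by linarith : (0 : ℝ) ≤ T)] at hT
    exact (le_abs_self _).trans hT
  have ev3 : ∀ᶠ T : ℝ in atTop, Nc * (2 * H) / (lam ^ 2 / 4) ≤ T := eventually_ge_atTop _
  obtain ⟨T5, hT5⟩ := (((ev1.and ev2).and ev3).and
    (Real.tendsto_log_atTop.eventually_ge_atTop 7)).exists_forall_of_atTop
  refine ⟨δ, max (max r1 r2) (Real.exp (D ^ 2)), max (max (max T1 T2) (max T3 T4)) T5, hδ,
    hr1.trans ((le_max_left _ _).trans (le_max_left _ _)),
    hT1.trans ((le_max_left _ _).trans ((le_max_left _ _).trans (le_max_left _ _))), ?_⟩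
  intro T hT r hr hrT x hx hxA cs hcard hcs E F hF
  have hTa : max (max T1 T2) (max T3 T4) ≤ T := (le_max_left _ _).trans hT
  have hTT1 : T1 ≤ T := ((le_max_left _ _).trans (le_max_left _ _)).trans hTa
  have hTT2 : T2 ≤ T := ((le_max_right _ _).trans (le_max_left _ _)).trans hTa
  have hTT3 : T3 ≤ T := ((le_max_left _ _).trans (le_max_right _ _)).trans hTa
  have hTT4 : T4 ≤ T := ((le_max_right _ _).trans (le_max_right _ _)).trans hTa
  obtain ⟨⟨⟨g1, g2⟩, g3⟩, g4⟩ := hT5 T ((le_max_right _ _).trans hT)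
  have hrr1 : r1 ≤ r := ((le_max_left _ _).trans (le_max_left _ _)).trans hr
  have hrr2 : r2 ≤ r := ((le_max_right _ _).trans (le_max_left _ _)).trans hr
  have hr3 : 3 ≤ r := hr1.trans hrr1
  have hr0 : 0 < r := by linarith
  have hrD : D ^ 2 ≤ Real.log r := by
    rw [Real.le_log_iff_exp_le hr0]
    exact (le_max_right _ _).trans hr
  have hT10 : 10 ≤ T := hT1.trans hTT1
  have hT0 : 0 < T := by linarith
  set L := Real.log T with hL
  have hL0 : 0 < L := by linarith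
  set y := Real.sqrt (Real.log r) with hy
  have hyD : D ≤ y := by
    rw [hy]
    exact Real.le_sqrt_of_sq_le hrD
  have hy0 : 0 ≤ y := Real.sqrt_nonneg _
  have hpi0 := Real.pi_pos
  have hpi3 := Real.pi_gt_three
  have hpi4 := Real.pi_lt_d2
  set ρ := 2 * Real.pi / L with hρ
  have hρ0 : 0 < ρ := by positivity
  have hρL : ρ * L = 2 * Real.pi := by rw [hρ]; field_simp
  have hρ1 : ρ ≤ 1 := by
    rw [hρ, div_le_one hL0]
    linarith
  set α := T + L with hα
  set β := 2 * T - L - 7 with hβ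
  have hαβ : α ≤ β := by rw [hα, hβ]; linarith
  obtain ⟨hWr, hexx⟩ := hex T hTT3 r hrr2 hrT
  obtain ⟨Zx, hZxm, hZxs, hZxv, hZx⟩ := hexx x hxA
  -- sizes
  have hrA : r ^ A ≤ L := by
    have k1 : r ^ A * 3 ≤ r ^ A * r := mul_le_mul_of_nonneg_left hr3 (by positivity)
    have k2 : r ^ A * r = r ^ (A + 1) := (pow_succ r A).symm
    linarith
  have hrL : r ≤ 3 * L := by
    have k1 : 1 * r ≤ r ^ A * r :=
      mul_le_mul_of_nonneg_right (one_le_pow₀ (by linarith)) (by linarith)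
    have k2 : r ^ A * r = r ^ (A + 1) := (pow_succ r A).symm
    linarith
  have hyr : y ≤ r := by
    rw [hy, Real.sqrt_le_left hr0.le]
    have k1 := Real.log_le_sub_one_of_pos hr0
    nlinarith
  -- the coefficient sums
  have hcS : ∀ c ∈ cs, ∑ i, |c i| ≤ S := by
    intro c hc
    have k1 : ∑ i, |c i| ≤ ∑ _i : ι, C := Finset.sum_le_sum fun i _ => (hcs c hc).1 i
    rw [Finset.sum_const, Finset.card_univ, nsmul_eq_mul] at k1
    rw [hS]
    linarith
  -- the sets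
  set b : (ι → ℝ) → ℝ := fun c => ∑ i, c i * x i - E c / ρ with hb
  set cs0 := cs.filter (fun c => ∑ i, c i = 0) with hcs0
  set cs1 := cs.filter (fun c => 1 ≤ |∑ i, c i|) with hcs1
  set Z0 : Set ℝ := ⋃ c ∈ cs0, {t ∈ Set.Ioc α β |
    |∑ i, c i * Gf ρ t (x i) - b c| ≤ δ * y} with hZ0
  set Z1 : Set ℝ := ⋃ c ∈ cs1, {t ∈ Set.Ioc α β | |(∑ i, c i) * t - E c| ≤ H} with hZ1
  have h0m : ∀ c ∈ cs0, MeasurableSet {t ∈ Set.Ioc α β |
      |∑ i, c i * Gf ρ t (x i) - b c| ≤ δ * y} ∧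
      volume.real {t ∈ Set.Ioc α β | |∑ i, c i * Gf ρ t (x i) - b c| ≤ δ * y} ≤ ε1 * T := by
    intro c hc
    rw [hcs0, Finset.mem_filter] at hc
    obtain ⟨hc1, hc2⟩ := hc
    constructor
    · have k1 : LB (fun t => ∑ i, c i * Gf ρ t (x i)) :=
        LB.sum _ fun i _ => (Gf_LB ρ (x i)).cmul _
      exact measurableSet_Ioc.inter (measurableSet_le (k1.1.sub_const _).abs measurable_const)
    · exact hsb T hTT2 r hrr1 hrT x hx hxA c hc2 (hcs c hc1).1 (hcs c hc1).2.1 (b c)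
  have h1m : ∀ c ∈ cs1, MeasurableSet {t ∈ Set.Ioc α β | |(∑ i, c i) * t - E c| ≤ H} ∧
      volume.real {t ∈ Set.Ioc α β | |(∑ i, c i) * t - E c| ≤ H} ≤ 2 * H := by
    intro c hc
    rw [hcs1, Finset.mem_filter] at hc
    exact short_set hc.2 hH0
  have hcard0 : (cs0.card : ℝ) ≤ Nc := by
    rw [hNc]; exact_mod_cast (Finset.card_filter_le _ _).trans hcard
  have hcard1 : (cs1.card : ℝ) ≤ Nc := by
    rw [hNc]; exact_mod_cast (Finset.card_filter_le _ _).trans hcard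
  have v0 : volume.real Z0 ≤ lam ^ 2 / 4 * T := by
    refine (measureReal_biUnion_finset_le _ _).trans ?_
    refine (Finset.sum_le_sum fun c hc => (h0m c hc).2).trans ?_
    rw [Finset.sum_const, nsmul_eq_mul]
    calc (cs0.card : ℝ) * (ε1 * T) ≤ (Nc + 1) * (ε1 * T) :=
          mul_le_mul_of_nonneg_right (by linarith) (by positivity)
      _ = lam ^ 2 / 4 * T := by rw [hε1]; field_simp
  have v1 : volume.real Z1 ≤ lam ^ 2 / 4 * T := by
    refine (measureReal_biUnion_finset_le _ _).trans ?_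
    refine (Finset.sum_le_sum fun c hc => (h1m c hc).2).trans ?_
    rw [Finset.sum_const, nsmul_eq_mul]
    rw [div_le_iff₀ (by positivity)] at g3
    calc (cs1.card : ℝ) * (2 * H) ≤ Nc * (2 * H) :=
          mul_le_mul_of_nonneg_right hcard1 (by positivity)
      _ ≤ T * (lam ^ 2 / 4) := g3
      _ = _ := mul_comm _ _
  set Z : Set ℝ := Zx ∪ Z0 ∪ Z1 with hZ
  have hZm : MeasurableSet Z := by
    refine (hZxm.union ?_).union ?_
    · exact Finset.measurableSet_biUnion _ fun c hc => (h0m c hc).1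
    · exact Finset.measurableSet_biUnion _ fun c hc => (h1m c hc).1
  have hZs : Z ⊆ Set.Ioc α β := by
    rintro t ((ht | ht) | ht)
    · exact hZxs ht
    · simp only [hZ0, Set.mem_iUnion] at ht
      obtain ⟨c, _, ht, _⟩ := ht
      exact ht
    · simp only [hZ1, Set.mem_iUnion] at ht
      obtain ⟨c, _, ht, _⟩ := ht
      exact ht
  have hZv : volume.real Z ≤ lam ^ 2 * T := by
    have k1 := measureReal_union_le (μ := volume) (Zx ∪ Z0) Z1
    have k2 := measureReal_union_le (μ := volume) Zx Z0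
    have k4 : lam ^ 2 * T = lam ^ 2 / 2 * T + lam ^ 2 / 4 * T + lam ^ 2 / 4 * T := by ring
    linarith
  -- the key point
  have hkey : ∀ t ∈ Set.Ioc α β, ∀ n ∈ F, t ≤ od n → od n < t + ρ → t ∈ Z := by
    intro t ht n hn hn1 hn2
    by_contra hcon
    simp only [hZ, Set.mem_union, not_or] at hcon
    obtain ⟨⟨z1, z2⟩, z3⟩ := hcon
    obtain ⟨w1, w2, w3⟩ := hZx t ht z1
    have hl := lin_at (η := η0 * y) (R := m1 * y) x n hρ0 (by positivity) hn1 hn2 w3 w1 w2
    obtain ⟨_, _, c, hcm, hcE⟩ := hF n hn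
    rcases (hcs c hcm).2.2 with hc0 | hc1
    · apply z2
      simp only [hZ0, Set.mem_iUnion]
      refine ⟨c, ?_, ht, ?_⟩
      · rw [hcs0, Finset.mem_filter]
        exact ⟨hcm, hc0⟩
      · have k1 := case0 (t := t) hρ0 c (fun i => (x i : ℝ))
          (fun i => od (n + x i)) (fun i => Gf ρ t (x i)) hc0 (hcS c hcm)
          (by positivity : 0 ≤ η0 * y) hl hcE
        refine k1.trans ?_
        have k2 : δ * y / L / ρ ≤ δ * y / 4 := by
          rw [div_div, mul_comm L ρ, hρL]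
          exact div_le_div_of_nonneg_left (by positivity) (by norm_num) (by linarith)
        have k3 : S * (2 * (η0 * y) + 1) = δ / 4 * y + S := by
          rw [hη0]; field_simp; ring
        have k4 : 2 * S ≤ y * δ := by
          rw [hD, div_le_iff₀ hδ] at hyD
          exact hyD
        rw [k3]
        have k6 : δ / 4 * y = (δ * y) / 4 := by ring
        rw [k6]
        rw [mul_comm y δ] at k4
        linarith
    · apply z3
      simp only [hZ1, Set.mem_iUnion]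
      refine ⟨c, ?_, ht, ?_⟩
      · rw [hcs1, Finset.mem_filter]
        exact ⟨hcm, hc1⟩
      · have hx' : ∀ i, |(x i : ℝ)| ≤ L := by
          intro i
          rw [abs_of_nonneg (Nat.cast_nonneg _)]
          exact (hxA i).trans hrA
        have hηy : 0 ≤ η0 * y := by positivity
        have hmy : 0 ≤ m1 * y := by positivity
        have k1 := case1 (t := t) hρ0 c (fun i => (x i : ℝ))
          (fun i => od (n + x i)) (fun i => Gf ρ t (x i)) (hcS c hcm) hl w1 hx' hcE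
          (by linarith : 0 ≤ 2 * (η0 * y) + 1 + L + m1 * y)
        refine k1.trans ?_
        rw [hH]
        have k2 : ρ * (2 * (η0 * y) + 1 + L + m1 * y) ≤ 26 := by
          have k3 : 2 * (η0 * y) + 1 + L + m1 * y ≤ 4 * L := by
            have k4 : (m1 + 2 * η0) * y + 1 = m1 * y + 2 * (η0 * y) + 1 := by ring
            rw [k4] at hWr
            linarith
          calc ρ * (2 * (η0 * y) + 1 + L + m1 * y) ≤ ρ * (4 * L) :=
                mul_le_mul_of_nonneg_left k3 hρ0.le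
            _ = 4 * (ρ * L) := by ring
            _ = 8 * Real.pi := by rw [hρL]; ring
            _ ≤ 26 := by linarith
        have k5 : S * (ρ * (2 * (η0 * y) + 1 + L + m1 * y)) ≤ S * 26 :=
          mul_le_mul_of_nonneg_left k2 hS0.le
        have k6 : δ * y / L ≤ 3 * δ := by
          rw [div_le_iff₀ hL0]
          have k7 : δ * y ≤ δ * (3 * L) := mul_le_mul_of_nonneg_left (hyr.trans hrL) hδ.le
          linarith
        linarith
  -- the parts of F
  have hG1 : ∫ t in α..β, Gf ρ t 1 ^ 2 ≤ Cg * T := by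
    have k0 := hg T hTT1 1 (by rw [Nat.cast_one, Real.log_one, mul_zero]; exact hL0.le)
    have k1 := gshift k0 (α := α) (β := β) (s := 0) hαβ
      (by rw [hα]; linarith) (by rw [hβ]; linarith)
    simp only [add_zero, Nat.cast_one, Real.log_one, mul_one] at k1
    exact k1
  set F1 := F.filter (fun n => α + ρ ≤ od n ∧ od n ≤ β) with hF1
  set F2 := F.filter (fun n => T ≤ od n ∧ od n < α + ρ) with hF2
  set F3 := F.filter (fun n => β ≤ od n ∧ od n < 2 * T) with hF3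
  have hFs : F ⊆ F1 ∪ F2 ∪ F3 := by
    intro n hn
    obtain ⟨k1, k2, _⟩ := hF n hn
    simp only [hF1, hF2, hF3, Finset.mem_union, Finset.mem_filter]
    rcases lt_or_ge (od n) (α + ρ) with h | h
    · left; right; exact ⟨hn, k1, h⟩
    · rcases le_or_gt (od n) β with h' | h'
      · left; left; exact ⟨hn, h, h'⟩
      · right; exact ⟨hn, h'.le, k2⟩
  have c1 := count2 hρ0 hαβ hlam0 F1 (fun n hn => by
      rw [hF1, Finset.mem_filter] at hn; exact hn.2) hZm hZs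
    (fun t ht n hn h1 h2 => hkey t ht n (Finset.mem_filter.1 hn).1 h1 h2) hG1
    (by rw [hα, hβ]; linarith) hZv
  have c1' : (F1.card : ℝ) ≤ ε / 2 * (T * L) := by
    have k1 : lam * (2 + Cg) = ε / 2 := by rw [hlam]; field_simp
    rw [k1] at c1
    have k2 : (F1.card : ℝ) * (2 * Real.pi) ≤ ε / 2 * (T * L) := by
      calc (F1.card : ℝ) * (2 * Real.pi) = (F1.card : ℝ) * ρ * L := by rw [← hρL]; ring
        _ ≤ ε / 2 * T * L := mul_le_mul_of_nonneg_right c1 hL0.le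
        _ = _ := by ring
    have k3 : (F1.card : ℝ) * 1 ≤ (F1.card : ℝ) * (2 * Real.pi) :=
      mul_le_mul_of_nonneg_left (by linarith) (Nat.cast_nonneg _)
    linarith
  have c2 := hends T hTT4 T (α + ρ) le_rfl (by rw [hα]; linarith) (by rw [hα]; linarith) F2
    (fun n hn => (Finset.mem_filter.1 hn).2)
  have c3 := hends T hTT4 β (2 * T) (by rw [hβ]; linarith) le_rfl (by rw [hβ]; linarith) F3
    (fun n hn => (Finset.mem_filter.1 hn).2)
  have hcardF : (F.card : ℝ) ≤ F1.card + F2.card + F3.card := by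
    have k1 := Finset.card_le_card hFs
    have k2 := Finset.card_union_le (F1 ∪ F2) F3
    have k3 := Finset.card_union_le F1 F2
    have k4 : F.card ≤ F1.card + F2.card + F3.card := by omega
    exact_mod_cast k4
  have hlast : Ce * L ^ 2 + Ce * L ^ 2 ≤ ε / 2 * (T * L) := by
    have k1 : 4 * Ce * L * L ≤ ε * T * L := mul_le_mul_of_nonneg_right g2 hL0.le
    have k2 : Ce * L ^ 2 + Ce * L ^ 2 = 4 * Ce * L * L / 2 := by ring
    have k3 : ε / 2 * (T * L) = ε * T * L / 2 := by ring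
    rw [k2, k3]
    linarith
  have k4 : ε * (T * L) = ε / 2 * (T * L) + ε / 2 * (T * L) := by ring
  linarith

end Pool.Agent.W2helper67.RL
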