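import Pool.Agent.W2helper67.RL.Good

set_option autoImplicit false

/-! # Counting ordinates through windows -/

namespace Pool.Agent.W2helper67.RL

open Complex Filter Topology MeasureTheory Set
open Pool.Agent.W2helper93.NV

lemma win_card {ρ : ℝ} (hρ : 0 ≤ ρ) (t : ℝ) (F : Finset ℕ) :
    ((F.filter fun n => t ≤ od n ∧ od n < t + ρ).card : ℝ) ≤ 1 + Gf ρ t 1 := by
  have h1 : F.filter (fun n => t ≤ od n ∧ od n < t + ρ) ⊆ Finset.Ico (NL t) (NL (t + ρ)) := by
    intro n hn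
    rw [Finset.mem_filter] at hn
    rw [Finset.mem_Ico]
    exact ⟨(le_od n t).1 hn.2.1, (od_lt n _).1 hn.2.2⟩
  have h2 := Finset.card_le_card h1
  rw [Nat.card_Ico] at h2
  unfold Gf
  rw [one_mul]
  have h : NL t ≤ NL (t + ρ) := NL_mono (by linarith)
  have h3 : (((NL (t + ρ) - NL t : ℕ)) : ℝ) = (NL (t + ρ) : ℝ) - NL t := by
    rw [Nat.cast_sub h]
  have h4 : ((F.filter fun n => t ≤ od n ∧ od n < t + ρ).card : ℝ) ≤
      ((NL (t + ρ) - NL t : ℕ) : ℝ) := by exact_mod_cast h2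
  linarith

lemma one_Gf_nonneg {ρ : ℝ} (hρ : 0 ≤ ρ) (t : ℝ) : 0 ≤ 1 + Gf ρ t 1 :=
  (Nat.cast_nonneg _).trans (win_card hρ t ∅)

lemma LB.ind {f : ℝ → ℝ} (hf : LB f) {Z : Set ℝ} (hZ : MeasurableSet Z) :
    LB (fun t => Z.indicator f t) := by
  refine ⟨hf.1.indicator hZ, fun a b => ?_⟩
  obtain ⟨M, hM⟩ := hf.2 a b
  refine ⟨|M|, fun t ht => ?_⟩
  show |Z.indicator f t| ≤ |M|
  by_cases h : t ∈ Z
  · rw [Set.indicator_of_mem h]; exact (hM t ht).trans (le_abs_self _)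
  · rw [Set.indicator_of_notMem h, abs_zero]; exact abs_nonneg _

/-- counting through windows -/
lemma count {ρ α β : ℝ} (hρ : 0 < ρ) (hαβ : α ≤ β) (F : Finset ℕ)
    (hF : ∀ n ∈ F, α + ρ ≤ od n ∧ od n ≤ β) {Z : Set ℝ} (hZ : MeasurableSet Z)
    (h : ∀ t ∈ Set.Ioc α β, ∀ n ∈ F, t ≤ od n → od n < t + ρ → t ∈ Z) :
    (F.card : ℝ) * ρ ≤ ∫ t in α..β, Z.indicator (fun t => 1 + Gf ρ t 1) t := by
  classical
  have hone : ∀ n ∈ F, ∫ t in α..β, (Set.Ioc (od n - ρ) (od n)).indicator (fun _ => (1 : ℝ)) t = ρ := by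
    intro n hn
    obtain ⟨h1, h2⟩ := hF n hn
    rw [intervalIntegral.integral_of_le hαβ, MeasureTheory.integral_indicator measurableSet_Ioc,
      Measure.restrict_restrict measurableSet_Ioc]
    have e : Set.Ioc (od n - ρ) (od n) ∩ Set.Ioc α β = Set.Ioc (od n - ρ) (od n) := by
      rw [Set.inter_eq_left]
      exact Set.Ioc_subset_Ioc (by linarith) h2
    rw [e, setIntegral_const, measureReal_def, Real.volume_Ioc, smul_eq_mul, mul_one]
    rw [ENNReal.toReal_ofReal (by linarith)]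
    ring
  have hind : ∀ a b : ℝ, LB (fun t => (Set.Ioc a b).indicator (fun _ => (1 : ℝ)) t) :=
    fun a b => (LB.const 1).ind measurableSet_Ioc
  have h1 : (F.card : ℝ) * ρ = ∫ t in α..β, ∑ n ∈ F,
      (Set.Ioc (od n - ρ) (od n)).indicator (fun _ => (1 : ℝ)) t := by
    rw [intervalIntegral.integral_finsetSum fun n _ => (hind _ _).ii _ _]
    rw [Finset.sum_congr rfl hone, Finset.sum_const, nsmul_eq_mul]
  rw [h1]
  have hZi : IntervalIntegrable (fun t => Z.indicator (fun t => 1 + Gf ρ t 1) t) volume α β := by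
    have k1 : LB (fun t => 1 + Gf ρ t 1) := (LB.const 1).add (Gf_LB ρ 1)
    exact (k1.ind hZ).ii _ _
  refine intervalIntegral.integral_mono_on hαβ ((LB.sum _ fun n _ => hind _ _).ii _ _) hZi
    fun t ht => ?_
  have hcard : ∑ n ∈ F, (Set.Ioc (od n - ρ) (od n)).indicator (fun _ => (1 : ℝ)) t =
      ((F.filter fun n => t ≤ od n ∧ od n < t + ρ).card : ℝ) := by
    rw [Finset.card_filter]
    push_cast
    refine Finset.sum_congr rfl fun n _ => ?_
    rw [Set.indicator_apply]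
    by_cases hc : t ≤ od n ∧ od n < t + ρ
    · rw [if_pos hc, if_pos]
      exact ⟨by linarith [hc.2], hc.1⟩
    · rw [if_neg hc, if_neg]
      intro hcon
      exact hc ⟨hcon.2, by linarith [hcon.1]⟩
  show ∑ n ∈ F, (Set.Ioc (od n - ρ) (od n)).indicator (fun _ => (1 : ℝ)) t ≤ _
  rw [hcard]
  by_cases htZ : t ∈ Z
  · rw [Set.indicator_of_mem htZ]
    exact win_card hρ.le t F
  · rw [Set.indicator_of_notMem htZ]
    have : F.filter (fun n => t ≤ od n ∧ od n < t + ρ) = ∅ := by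
      rw [Finset.filter_eq_empty_iff]
      rintro n hn ⟨h3, h4⟩
      rcases eq_or_lt_of_le ht.1 with h5 | h5
      · have := (hF n hn).1
        linarith
      · exact htZ (h t ⟨h5, ht.2⟩ n hn h3 h4)
    rw [this]
    simp

/-- the bound for the number of members -/
lemma count2 {ρ α β lam C T : ℝ} (hρ : 0 < ρ) (hαβ : α ≤ β) (hlam : 0 < lam) (F : Finset ℕ)
    (hF : ∀ n ∈ F, α + ρ ≤ od n ∧ od n ≤ β) {Z : Set ℝ} (hZ : MeasurableSet Z)
    (hZs : Z ⊆ Set.Ioc α β)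
    (h : ∀ t ∈ Set.Ioc α β, ∀ n ∈ F, t ≤ od n → od n < t + ρ → t ∈ Z)
    (hG : ∫ t in α..β, Gf ρ t 1 ^ 2 ≤ C * T) (hβT : β - α ≤ T)
    (hZm : volume.real Z ≤ lam ^ 2 * T) : (F.card : ℝ) * ρ ≤ lam * (2 + C) * T := by
  refine (count hρ hαβ F hF hZ h).trans ?_
  have hZi : LB (fun t => Z.indicator (fun _ => (1 / (2 * lam) : ℝ)) t) := (LB.const _).ind hZ
  have k1 : LB (fun t => 1 + Gf ρ t 1) := (LB.const 1).add (Gf_LB ρ 1)
  have k2 : LB (fun t => Z.indicator (fun t => 1 + Gf ρ t 1) t) := k1.ind hZ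
  have h1 : ∫ t in α..β, Z.indicator (fun t => 1 + Gf ρ t 1) t ≤
      ∫ t in α..β, (lam * (1 + Gf ρ t 1 ^ 2) + Z.indicator (fun _ => (1 / (2 * lam) : ℝ)) t) := by
    refine intervalIntegral.integral_mono_on hαβ (k2.ii _ _)
      (((((LB.const 1).add (Gf_LB ρ 1).sqr).cmul lam).add hZi).ii _ _) fun t _ => ?_
    by_cases htZ : t ∈ Z
    · rw [Set.indicator_of_mem htZ, Set.indicator_of_mem htZ]
      set m := 1 + Gf ρ t 1 with hm
      have e : Gf ρ t 1 = m - 1 := by rw [hm]; ring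
      rw [e]
      have h3 : m ≤ lam / 2 * m ^ 2 + 1 / (2 * lam) := by
        have h4 : 0 ≤ (lam * m - 1) ^ 2 / (2 * lam) := by positivity
        have h5 : (lam * m - 1) ^ 2 / (2 * lam) = lam / 2 * m ^ 2 + 1 / (2 * lam) - m := by
          field_simp
          ring
        linarith
      have h6 : lam / 2 * m ^ 2 ≤ lam * (1 + (m - 1) ^ 2) := by
        have h7 : 0 ≤ lam * (m - 2) ^ 2 := by positivity
        nlinarith
      linarith
    · rw [Set.indicator_of_notMem htZ, Set.indicator_of_notMem htZ]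
      positivity
  refine h1.trans ?_
  rw [intervalIntegral.integral_add ((((LB.const 1).add (Gf_LB ρ 1).sqr).cmul lam).ii _ _)
    (hZi.ii _ _), intervalIntegral.integral_const_mul,
    intervalIntegral.integral_add ((LB.const 1).ii _ _) ((Gf_LB ρ 1).sqr.ii _ _),
    intervalIntegral.integral_const, smul_eq_mul, mul_one]
  have h2 : ∫ t in α..β, Z.indicator (fun _ => (1 / (2 * lam) : ℝ)) t ≤ lam / 2 * T := by
    rw [intervalIntegral.integral_of_le hαβ, MeasureTheory.integral_indicator hZ,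
      Measure.restrict_restrict hZ, Set.inter_eq_left.2 hZs, setIntegral_const, smul_eq_mul]
    calc volume.real Z * (1 / (2 * lam)) ≤ lam ^ 2 * T * (1 / (2 * lam)) :=
          mul_le_mul_of_nonneg_right hZm (by positivity)
      _ = lam / 2 * T := by field_simp
  have hT : 0 ≤ T := by linarith
  have h3 : lam * (β - α + ∫ t in α..β, Gf ρ t 1 ^ 2) ≤ lam * (T + C * T) := by
    apply mul_le_mul_of_nonneg_left _ hlam.le
    linarith
  have h4 : 0 ≤ lam * T := by positivity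
  calc _ ≤ lam * (T + C * T) + lam / 2 * T := add_le_add h3 h2
    _ ≤ _ := by nlinarith

lemma step7 : ∃ C T0 : ℝ, 0 < C ∧ 10 ≤ T0 ∧ ∀ T : ℝ, T0 ≤ T → ∀ x : ℝ, 1 < x → x + 7 ≤ 4 * T →
    (NL (x + 7) : ℝ) - NL x ≤ C * Real.log T := by
  obtain ⟨C, T0, hC, hT0, h⟩ := loc
  refine ⟨2 * C, T0, by positivity, hT0, fun T hT x hx hx7 => ?_⟩
  have hT10 : 10 ≤ T := hT0.trans hT
  have h1 := h (4 * T) (by linarith) x
  rw [NL_sub (by linarith) (by norm_num), Nwin_eq (T := 4 * T) hx (by norm_num) hx7]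
  refine h1.trans ?_
  have h2 : Real.log (4 * T) ≤ 2 * Real.log T := by
    have h3 : Real.log (4 * T) ≤ Real.log (T ^ 2) :=
      Real.log_le_log (by linarith) (by nlinarith)
    rw [Real.log_pow] at h3
    exact_mod_cast h3
  calc C * Real.log (4 * T) ≤ C * (2 * Real.log T) := mul_le_mul_of_nonneg_left h2 hC.le
    _ = _ := by ring

lemma many7 {C T : ℝ} (h : ∀ x : ℝ, 1 < x → x + 7 ≤ 4 * T → (NL (x + 7) : ℝ) - NL x ≤ C) {x : ℝ}
    (hx : 1 < x) (m : ℕ) (hm : x + 7 * m ≤ 4 * T) : (NL (x + 7 * m) : ℝ) - NL x ≤ m * C := by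
  induction m with
  | zero => simp
  | succ m ih =>
    push_cast at hm ⊢
    have h1 := ih (by linarith)
    have h2 := h (x + 7 * m) (by have : (0 : ℝ) ≤ m := Nat.cast_nonneg m; linarith) (by linarith)
    have e : x + 7 * m + 7 = x + 7 * (m + 1) := by ring
    rw [e] at h2
    linarith

/-- the ordinates near the ends of a block -/
lemma ends : ∃ C T0 : ℝ, 0 < C ∧ 10 ≤ T0 ∧ ∀ T : ℝ, T0 ≤ T → ∀ x y : ℝ, T ≤ x → y ≤ 2 * T →
    y ≤ x + 2 * Real.log T → ∀ F : Finset ℕ, (∀ n ∈ F, x ≤ od n ∧ od n < y) →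
    (F.card : ℝ) ≤ C * Real.log T ^ 2 := by
  obtain ⟨C, T1, hC, hT1, h⟩ := step7
  have ev1 : ∀ᶠ T : ℝ in atTop, 7 * (2 * Real.log T) ≤ T := by
    have h1 : (fun T : ℝ => 7 * (2 * Real.log T)) =o[atTop] fun T : ℝ => T :=
      (Real.isLittleO_log_id_atTop.const_mul_left 2).const_mul_left 7
    have h2 := h1.bound (c := 1) (by norm_num)
    filter_upwards [h2, eventually_ge_atTop 1] with T hT hT1
    rw [one_mul, Real.norm_of_nonneg (by linarith : (0 : ℝ) ≤ T)] at hT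
    exact (le_abs_self _).trans hT
  obtain ⟨T2, hT2⟩ := ev1.exists_forall_of_atTop
  refine ⟨2 * C, max T1 T2, by positivity, hT1.trans (le_max_left _ _), ?_⟩
  intro T hT x y hx hy hyx F hF
  have hTT1 : T1 ≤ T := (le_max_left _ _).trans hT
  have g1 := hT2 T ((le_max_right _ _).trans hT)
  have hT10 : 10 ≤ T := hT1.trans hTT1
  set L := Real.log T with hL
  have hL1 : 1 ≤ L := by
    rw [hL, Real.le_log_iff_exp_le (by linarith)]
    linarith [Real.exp_one_lt_d9]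
  rcases Finset.eq_empty_or_nonempty F with rfl | ⟨n0, hn0⟩
  · simp
    positivity
  have hxy : x < y := (hF n0 hn0).1.trans_lt (hF n0 hn0).2
  set m := ⌈L⌉₊ with hm
  have hm1 : L ≤ m := Nat.le_ceil _
  have hm2 : (m : ℝ) ≤ 2 * L := by
    have := Nat.ceil_lt_add_one (by linarith : 0 ≤ L)
    rw [hm]
    linarith
  have h1 := many7 (h T hTT1) (x := x) (by linarith) m (by linarith)
  have h2 : F ⊆ Finset.Ico (NL x) (NL (x + 7 * m)) := by
    intro n hn
    obtain ⟨k1, k2⟩ := hF n hn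
    rw [Finset.mem_Ico]
    refine ⟨(le_od n x).1 k1, ?_⟩
    have k3 := (od_lt n y).1 k2
    exact k3.trans_le (NL_mono (by linarith))
  have h3 := Finset.card_le_card h2
  rw [Nat.card_Ico] at h3
  have h4 : NL x ≤ NL (x + 7 * m) := NL_mono (by linarith)
  have h5 : (F.card : ℝ) ≤ ((NL (x + 7 * m) - NL x : ℕ) : ℝ) := by exact_mod_cast h3
  rw [Nat.cast_sub h4] at h5
  calc (F.card : ℝ) ≤ m * (C * L) := h5.trans h1
    _ ≤ (2 * L) * (C * L) := mul_le_mul_of_nonneg_right hm2 (by positivity)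
    _ = 2 * C * L ^ 2 := by ring

end Pool.Agent.W2helper67.RL
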