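import Mathlib

set_option autoImplicit false

/-! # Concentration bounds from characteristic functions -/

namespace Pool.Agent.W2helper67.RL

open MeasureTheory Filter Topology Complex

/-- the kernel -/
noncomputable def kf (y : ℝ) : ℝ := ∫ s in (0 : ℝ)..1, (1 - s) * Real.cos (s * y)

lemma kf_nonneg (y : ℝ) : 0 ≤ kf y := by
  unfold kf
  rcases eq_or_ne y 0 with rfl | hy
  · refine intervalIntegral.integral_nonneg zero_le_one fun s hs => ?_
    simp only [mul_zero, Real.cos_zero, mul_one]
    linarith [hs.2]
  · have hd : ∀ s ∈ Set.uIcc (0 : ℝ) 1, HasDerivAt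
        (fun s => (1 - s) * (Real.sin (s * y) / y) - Real.cos (s * y) / y ^ 2)
        ((1 - s) * Real.cos (s * y)) s := by
      intro s _
      have h1 : HasDerivAt (fun s : ℝ => s * y) y s := by
        simpa using (hasDerivAt_id s).mul_const y
      have h2 := (((hasDerivAt_id s).const_sub 1).mul (h1.sin.div_const y)).sub
        (h1.cos.div_const (y ^ 2))
      refine h2.congr_deriv ?_
      simp only [id]
      field_simp
      ring
    rw [intervalIntegral.integral_eq_sub_of_hasDerivAt hd
      (Continuous.intervalIntegrable (by fun_prop) _ _)]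
    simp only [sub_self, zero_mul, one_mul, sub_zero, Real.sin_zero, zero_div, Real.cos_zero,
      zero_sub, mul_zero]
    have h3 : 0 ≤ (1 - Real.cos y) / y ^ 2 :=
      div_nonneg (by linarith [Real.cos_le_one y]) (sq_nonneg y)
    have e : -(Real.cos y / y ^ 2) - -(1 / y ^ 2) = (1 - Real.cos y) / y ^ 2 := by ring
    rw [e]
    exact h3

lemma kf_ge {y : ℝ} (hy : |y| ≤ 1) : 1 / 4 ≤ kf y := by
  unfold kf
  have h1 : ∫ s in (0 : ℝ)..1, (1 - s) * (1 / 2) = 1 / 4 := by
    rw [intervalIntegral.integral_mul_const]
    rw [intervalIntegral.integral_sub (by simp) (by simp)]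
    simp
    norm_num
  rw [← h1]
  refine intervalIntegral.integral_mono_on zero_le_one (Continuous.intervalIntegrable (by fun_prop) _ _)
    (Continuous.intervalIntegrable (by fun_prop) _ _) fun s hs => ?_
  apply mul_le_mul_of_nonneg_left _ (by linarith [hs.2])
  have h2 : |s * y| ≤ 1 := by
    rw [abs_mul, abs_of_nonneg hs.1]
    calc s * |y| ≤ 1 * 1 := mul_le_mul hs.2 hy (abs_nonneg y) zero_le_one
      _ = 1 := one_mul 1
  have h3 := Real.one_sub_sq_div_two_le_cos (x := s * y)
  have h4 : (s * y) ^ 2 ≤ 1 := by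
    rw [← sq_abs]
    exact pow_le_one₀ (abs_nonneg _) h2
  linarith

lemma kf_cont : Continuous kf := by
  unfold kf
  fun_prop

lemma gauss_le {σ : ℝ} (hσ : 0 < σ) : ∫ s in (0 : ℝ)..1, Real.exp (-σ * s ^ 2) ≤ 1 / Real.sqrt σ := by
  have h1 : ∫ s in (0 : ℝ)..1, Real.exp (-σ * s ^ 2) ≤ ∫ s in Set.Ioi (0 : ℝ), Real.exp (-σ * s ^ 2) := by
    rw [intervalIntegral.integral_of_le zero_le_one]
    refine setIntegral_mono_set ?_ ?_ ?_
    · exact (integrable_exp_neg_mul_sq hσ).integrableOn
    · exact ae_of_all _ fun s => (Real.exp_pos _).le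
    · exact Set.Ioc_subset_Ioi_self.eventuallyLE
  rw [integral_gaussian_Ioi] at h1
  refine h1.trans ?_
  have hs : 0 < Real.sqrt σ := Real.sqrt_pos.2 hσ
  rw [Real.sqrt_div Real.pi_pos.le, div_div, div_le_div_iff₀ (by positivity) hs]
  have h2 : Real.sqrt Real.pi ≤ 2 := by
    rw [Real.sqrt_le_left (by norm_num)]
    linarith [Real.pi_lt_d2]
  nlinarith

/-- **concentration from the characteristic function** -/
theorem conc {Y : ℝ → ℝ} (hY : Measurable Y) {A B b δ s E : ℝ} (hAB : A ≤ B) (hδ : 0 < δ)
    (hs : 0 < s) (hE : 0 ≤ E)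
    (h : ∀ u : ℝ, 0 ≤ u → u ≤ 1 / δ → ‖∫ t in A..B, cexp (I * ((u * Y t : ℝ) : ℂ))‖ ≤
      (B - A) * Real.exp (-(s * u ^ 2)) + E) :
    volume.real {t ∈ Set.Ioc A B | |Y t - b| ≤ δ} ≤ 4 * ((B - A) * (δ / Real.sqrt s) + E) := by
  classical
  set f : ℝ → ℝ := fun t => kf ((Y t - b) / δ) with hf
  have hfm : Measurable f := kf_cont.measurable.comp ((hY.sub_const b).div_const δ)
  have hk1 : ∀ y, |kf y| ≤ 1 := by
    intro y
    unfold kf
    have := intervalIntegral.norm_integral_le_of_norm_le_const (a := (0 : ℝ)) (b := 1)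
      (f := fun s => (1 - s) * Real.cos (s * y)) (C := 1) (fun x hx => by
        rw [Set.uIoc_of_le zero_le_one] at hx
        rw [norm_mul, Real.norm_eq_abs, Real.norm_eq_abs]
        calc |1 - x| * |Real.cos (x * y)| ≤ 1 * 1 := by
              apply mul_le_mul _ (Real.abs_cos_le_one _) (abs_nonneg _) zero_le_one
              rw [abs_le]; constructor <;> linarith [hx.1, hx.2]
          _ = 1 := one_mul 1)
    simpa using this
  have hfi : IntegrableOn f (Set.Ioc A B) volume :=
    Measure.integrableOn_of_bounded (M := 1) measure_Ioc_lt_top.ne hfm.aestronglyMeasurable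
      (Eventually.of_forall fun t => by rw [Real.norm_eq_abs]; exact hk1 _)
  have hset : MeasurableSet {t | |Y t - b| ≤ δ} :=
    measurableSet_le (hY.sub_const b).abs measurable_const
  -- the set is small if the integral of the kernel is
  have h1 : volume.real {t ∈ Set.Ioc A B | |Y t - b| ≤ δ} ≤ 4 * ∫ t in A..B, f t := by
    rw [intervalIntegral.integral_of_le hAB]
    have e1 : volume.real {t ∈ Set.Ioc A B | |Y t - b| ≤ δ} =
        ∫ t in Set.Ioc A B, Set.indicator {t | |Y t - b| ≤ δ} (fun _ => (1 : ℝ)) t := by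
      rw [setIntegral_indicator hset]
      simp only [integral_const, smul_eq_mul, mul_one]
      rw [measureReal_restrict_apply_univ]
      congr 1
    rw [e1, ← integral_const_mul]
    refine setIntegral_mono_on ?_ (hfi.const_mul 4) measurableSet_Ioc fun t _ => ?_
    · exact (integrableOn_const (by exact measure_Ioc_lt_top.ne)).indicator hset
    · by_cases ht : |Y t - b| ≤ δ
      · rw [Set.indicator_of_mem (show t ∈ {t | |Y t - b| ≤ δ} from ht)]
        have : 1 / 4 ≤ f t := by
          apply kf_ge
          rw [abs_div, abs_of_pos hδ, div_le_one hδ]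
          exact ht
        linarith
      · rw [Set.indicator_of_notMem (show t ∉ {t | |Y t - b| ≤ δ} from ht)]
        have := kf_nonneg ((Y t - b) / δ)
        positivity
  -- Fubini
  have h2 : ∫ t in A..B, f t = ∫ v in (0 : ℝ)..1, (1 - v) * ∫ t in A..B, Real.cos (v * ((Y t - b) / δ)) := by
    have e2 : ∀ t, f t = ∫ v in (0 : ℝ)..1, (1 - v) * Real.cos (v * ((Y t - b) / δ)) := fun t => rfl
    simp_rw [e2]
    simp_rw [← intervalIntegral.integral_const_mul]
    refine intervalIntegral_intervalIntegral_swap ?_
    refine Measure.integrableOn_of_bounded (M := 1) ?_ ?_ ?_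
    · rw [Measure.volume_eq_prod, Measure.prod_prod, Set.uIoc, Set.uIoc]
      exact ENNReal.mul_ne_top measure_Ioc_lt_top.ne measure_Ioc_lt_top.ne
    · refine Measurable.aestronglyMeasurable ?_
      simp only [Function.uncurry_def]
      have m1 : Measurable fun p : ℝ × ℝ => (Y p.1 - b) / δ :=
        ((hY.comp measurable_fst).sub_const b).div_const δ
      exact (measurable_const.sub measurable_snd).mul
        (Real.continuous_cos.measurable.comp (measurable_snd.mul m1))
    · refine (ae_restrict_mem (measurableSet_uIoc.prod measurableSet_uIoc)).mono fun p hp => ?_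
      have hp2 := hp.2
      rw [Set.uIoc_of_le zero_le_one] at hp2
      simp only [Function.uncurry]
      rw [norm_mul, Real.norm_eq_abs, Real.norm_eq_abs]
      calc |1 - p.2| * |Real.cos (p.2 * ((Y p.1 - b) / δ))| ≤ 1 * 1 := by
            apply mul_le_mul _ (Real.abs_cos_le_one _) (abs_nonneg _) zero_le_one
            rw [abs_le]; constructor <;> linarith [hp2.1, hp2.2]
        _ = 1 := one_mul 1
  -- the inner integrals
  have h3 : ∀ v ∈ Set.Icc (0 : ℝ) 1, (1 - v) * ∫ t in A..B, Real.cos (v * ((Y t - b) / δ)) ≤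
      (B - A) * Real.exp (-(s / δ ^ 2) * v ^ 2) + E := by
    intro v hv
    have h4 := h (v / δ) (by have := hv.1; positivity) (by
      have := hv.2
      gcongr)
    have hmY : Measurable fun t => ((v / δ * Y t : ℝ) : ℂ) :=
      Complex.measurable_ofReal.comp (hY.const_mul _)
    have e3 : ∫ t in A..B, Real.cos (v * ((Y t - b) / δ)) =
        (cexp (-(I * ((v / δ * b : ℝ) : ℂ))) * ∫ t in A..B, cexp (I * ((v / δ * Y t : ℝ) : ℂ))).re := by
      rw [← intervalIntegral.integral_const_mul]
      have hi : IntervalIntegrable (fun t => cexp (-(I * ((v / δ * b : ℝ) : ℂ))) *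
          cexp (I * ((v / δ * Y t : ℝ) : ℂ))) volume A B := by
        rw [intervalIntegrable_iff]
        refine Measure.integrableOn_of_bounded (M := 1) ?_ ?_ ?_
        · rw [Set.uIoc]; exact measure_Ioc_lt_top.ne
        · refine Measurable.aestronglyMeasurable ?_
          exact measurable_const.mul (Complex.measurable_exp.comp (measurable_const.mul hmY))
        · refine Eventually.of_forall fun t => ?_
          rw [norm_mul, ← mul_neg, ← Complex.ofReal_neg, Complex.norm_exp_I_mul_ofReal,
            Complex.norm_exp_I_mul_ofReal, one_mul]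
      have h5 := Complex.reCLM.intervalIntegral_comp_comm hi
      simp only [Complex.reCLM_apply] at h5
      rw [← h5]
      refine intervalIntegral.integral_congr fun t _ => ?_
      show Real.cos (v * ((Y t - b) / δ)) = _
      rw [← Complex.exp_add]
      have e4 : -(I * ((v / δ * b : ℝ) : ℂ)) + I * ((v / δ * Y t : ℝ) : ℂ) =
          ((v * ((Y t - b) / δ) : ℝ) : ℂ) * I := by
        push_cast
        ring
      rw [e4, Complex.exp_ofReal_mul_I_re]
    have h6 : |∫ t in A..B, Real.cos (v * ((Y t - b) / δ))| ≤
        (B - A) * Real.exp (-(s / δ ^ 2) * v ^ 2) + E := by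
      rw [e3]
      refine (Complex.abs_re_le_norm _).trans ?_
      rw [norm_mul, ← mul_neg, ← Complex.ofReal_neg, Complex.norm_exp_I_mul_ofReal, one_mul]
      refine h4.trans (le_of_eq ?_)
      congr 3
      field_simp
    have h7 : 0 ≤ (B - A) * Real.exp (-(s / δ ^ 2) * v ^ 2) + E := (abs_nonneg _).trans h6
    calc (1 - v) * ∫ t in A..B, Real.cos (v * ((Y t - b) / δ)) ≤
        |1 - v| * |∫ t in A..B, Real.cos (v * ((Y t - b) / δ))| := by
          rw [← abs_mul]; exact le_abs_self _
      _ ≤ 1 * ((B - A) * Real.exp (-(s / δ ^ 2) * v ^ 2) + E) := by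
          apply mul_le_mul _ h6 (abs_nonneg _) zero_le_one
          rw [abs_le]; constructor <;> linarith [hv.1, hv.2]
      _ = _ := one_mul _
  have hσ : 0 < s / δ ^ 2 := by positivity
  have h8 : ∫ t in A..B, f t ≤ (B - A) * (δ / Real.sqrt s) + E := by
    rw [h2]
    have h9 : ∫ v in (0 : ℝ)..1, ((B - A) * Real.exp (-(s / δ ^ 2) * v ^ 2) + E) ≤
        (B - A) * (δ / Real.sqrt s) + E := by
      rw [intervalIntegral.integral_add (Continuous.intervalIntegrable (by fun_prop) _ _)
        (by simp), intervalIntegral.integral_const_mul, intervalIntegral.integral_const]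
      have h10 := gauss_le hσ
      have e5 : 1 / Real.sqrt (s / δ ^ 2) = δ / Real.sqrt s := by
        rw [Real.sqrt_div hs.le, Real.sqrt_sq hδ.le]
        field_simp
      rw [e5] at h10
      have := mul_le_mul_of_nonneg_left h10 (sub_nonneg.2 hAB)
      simp only [sub_zero, smul_eq_mul, one_mul]
      linarith
    refine le_trans ?_ h9
    refine intervalIntegral.integral_mono_on zero_le_one ?_ (Continuous.intervalIntegrable (by fun_prop) _ _) h3
    have hc : ∀ v : ℝ, ∫ t in A..B, Real.cos (v * ((Y t - b) / δ)) =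
        ∫ t in Set.Ioc A B, Real.cos (v * ((Y t - b) / δ)) := fun v =>
      intervalIntegral.integral_of_le hAB
    have hcc : Continuous fun v : ℝ => ∫ t in A..B, Real.cos (v * ((Y t - b) / δ)) := by
      simp_rw [hc]
      refine continuous_of_dominated (bound := fun _ => 1) ?_ ?_ ?_ ?_
      · intro v
        exact (Real.continuous_cos.measurable.comp
          (((hY.sub_const b).div_const δ).const_mul v)).aestronglyMeasurable
      · intro v
        exact Eventually.of_forall fun t => by rw [Real.norm_eq_abs]; exact Real.abs_cos_le_one _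
      · exact integrableOn_const (by exact measure_Ioc_lt_top.ne)
      · exact Eventually.of_forall fun t => by fun_prop
    exact ((continuous_const.sub continuous_id).mul hcc).intervalIntegrable _ _
  linarith

end Pool.Agent.W2helper67.RL
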