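import Pool.Agent.W2helper67.RL.Blk

set_option autoImplicit false

/-! # Dyadic blocks -/

namespace Pool.Agent.W2helper67.RL

open Complex Filter Topology MeasureTheory Set
open Pool.Agent.W2helper93.NV

lemma NL_up : ∃ C T0 : ℝ, 0 < C ∧ 10 ≤ T0 ∧ ∀ T : ℝ, T0 ≤ T → (NL T : ℝ) ≤ C * (T * Real.log T) := by
  obtain ⟨C, T0, hC, hT0, h⟩ := low_count
  have hK := KLow_nonneg
  refine ⟨C + KLow, T0, by positivity, hT0, fun T hT => ?_⟩
  have hT10 : 10 ≤ T := hT0.trans hT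
  have h1 := h T hT T (by linarith) le_rfl
  have h2 := (NT_cmp T).2
  have h3 : (NL T : ℝ) ≤ NT T := by exact_mod_cast NL_le_NT T
  have h4 : 1 ≤ Real.log T := by
    rw [Real.le_log_iff_exp_le (by linarith)]
    linarith [Real.exp_one_lt_d9]
  have h5 : 1 ≤ T * Real.log T := by nlinarith
  have h6 : KLow * 1 ≤ KLow * (T * Real.log T) := mul_le_mul_of_nonneg_left h5 hK
  have h7 : (C + KLow) * (T * Real.log T) = C * (T * Real.log T) + KLow * (T * Real.log T) := by ring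
  linarith

variable {ι : Type} [Fintype ι]

/-- the thresholds -/
lemma thr (Cu T0 Tl θ : ℝ) (hCu : 0 < Cu) (hθ : 0 < θ) : ∃ t0 : ℝ, 4 ≤ t0 ∧ ∀ P : ℝ, t0 ≤ P →
    T0 ≤ Real.sqrt P ∧ Tl ≤ P / 2 ∧ 32 ≤ Real.log P ∧
    Cu * (2 * P * Real.log (2 * P)) ≤ P ^ (5 / 4 : ℝ) ∧ Cu * (2 * Real.sqrt P) ≤ θ / 64 * P := by
  have hs : Tendsto Real.sqrt atTop atTop := by
    have := tendsto_rpow_atTop (by norm_num : (0 : ℝ) < 1 / 2)
    refine this.congr fun x => ?_
    rw [Real.sqrt_eq_rpow]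
  have e1 := hs.eventually_ge_atTop T0
  have e2 : ∀ᶠ P : ℝ in atTop, Tl ≤ P / 2 := by
    filter_upwards [eventually_ge_atTop (2 * Tl)] with P hP
    linarith
  have e3 := Real.tendsto_log_atTop.eventually_ge_atTop 32
  have e4 : ∀ᶠ P : ℝ in atTop, 4 * Cu * Real.log P ≤ P ^ (1 / 4 : ℝ) := by
    have h1 : (fun T : ℝ => 4 * Cu * Real.log T) =o[atTop] fun T : ℝ => T ^ (1 / 4 : ℝ) :=
      (isLittleO_log_rpow_atTop (by norm_num)).const_mul_left _
    have h2 := h1.bound (c := 1) one_pos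
    filter_upwards [h2, eventually_ge_atTop 1] with T hT hT1
    rw [one_mul, Real.norm_of_nonneg (by positivity : (0 : ℝ) ≤ T ^ (1 / 4 : ℝ))] at hT
    exact (le_abs_self _).trans hT
  have e5 := hs.eventually_ge_atTop (128 * Cu / θ)
  obtain ⟨t0, ht0⟩ := (((e1.and e2).and e3).and (e4.and e5)).exists_forall_of_atTop
  refine ⟨max 4 t0, le_max_left _ _, fun P hP => ?_⟩
  obtain ⟨⟨⟨k1, k2⟩, k3⟩, k4, k5⟩ := ht0 P ((le_max_right _ _).trans hP)
  have hP4 : 4 ≤ P := (le_max_left _ _).trans hP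
  have hP0 : 0 < P := by linarith
  refine ⟨k1, k2, k3, ?_, ?_⟩
  · have h1 : Real.log (2 * P) ≤ 2 * Real.log P := by
      have h3 : Real.log (2 * P) ≤ Real.log (P ^ 2) :=
        Real.log_le_log (by linarith) (by nlinarith)
      rw [Real.log_pow] at h3
      exact_mod_cast h3
    calc Cu * (2 * P * Real.log (2 * P)) ≤ Cu * (2 * P * (2 * Real.log P)) := by gcongr
      _ = P * (4 * Cu * Real.log P) := by ring
      _ ≤ P * P ^ (1 / 4 : ℝ) := mul_le_mul_of_nonneg_left k4 hP0.le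
      _ = P ^ (1 + 1 / 4 : ℝ) := by rw [Real.rpow_add hP0, Real.rpow_one]
      _ = P ^ (5 / 4 : ℝ) := by norm_num
  · have h1 : Real.sqrt P * Real.sqrt P = P := Real.mul_self_sqrt hP0.le
    have h2 : 0 < Real.sqrt P := Real.sqrt_pos.2 hP0
    rw [div_le_iff₀ hθ] at k5
    have h3 : 128 * Cu * Real.sqrt P ≤ Real.sqrt P * θ * Real.sqrt P :=
      mul_le_mul_of_nonneg_right k5 h2.le
    have h4 : Real.sqrt P * θ * Real.sqrt P = θ * (Real.sqrt P * Real.sqrt P) := by ring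
    rw [h4, h1] at h3
    linarith

/-- **the enumeration: linear relations at separated places are rare** -/
theorem main (A M : ℕ) (C θ : ℝ) (hC : 0 ≤ C) (hθ : 0 < θ) : ∃ κ r0 : ℝ, ∃ N0 : ℕ, 0 < κ ∧ 3 ≤ r0 ∧
    ∀ r : ℝ, r0 ≤ r → ∀ N : ℕ, N0 ≤ N → r ^ (A + 1) ≤ Real.log N →
    ∀ x : ι → ℕ, (∀ i j, i ≠ j → r ≤ |(x i : ℝ) - x j|) → (∀ i, (x i : ℝ) ≤ r ^ A) →
    ∀ cs : Finset (ι → ℝ), cs.card ≤ M → (∀ c ∈ cs, (∀ i, |c i| ≤ C) ∧ (∃ i, 1 ≤ |c i|) ∧
      (∑ i, c i = 0 ∨ 1 ≤ |∑ i, c i|)) →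
    ∀ E : (ι → ℝ) → ℝ, ∀ F : Finset ℕ, (∀ n ∈ F, n ≤ N ∧ ∃ c ∈ cs,
      |∑ i, c i * od (n + x i) - E c| ≤ κ * Real.sqrt (Real.log r) / Real.log N) →
    (F.card : ℝ) ≤ θ * N := by
  classical
  obtain ⟨κ, r0, T0, hκ, hr0, hT0, hblk⟩ := block (ι := ι) A M C (θ / 128) hC (by positivity)
  obtain ⟨Tl, hTl, hlow⟩ := NT_low
  obtain ⟨Cu, Tu, hCu, hTu, hup⟩ := NL_up
  obtain ⟨t0, ht04, ht0⟩ := thr Cu (max T0 Tu) Tl θ hCu hθ
  refine ⟨κ, r0, NL (2 * t0), hκ, hr0, ?_⟩
  intro r hr N hN hrN x hx hxA cs hcs1 hcs2 E F hF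
  -- the dyadic size
  have hod : 2 * t0 ≤ od N := (le_od N _).2 hN
  obtain ⟨ms, hm1, hm2⟩ := exists_nat_pow_near (x := od N) (y := (2 : ℝ)) (by linarith) one_lt_two
  obtain ⟨P, hP⟩ : ∃ P : ℝ, P = 2 ^ ms := ⟨_, rfl⟩
  rw [← hP] at hm1
  rw [pow_succ, ← hP] at hm2
  have hPt : t0 ≤ P := by linarith
  obtain ⟨a1, a2, a3, a4, a5⟩ := ht0 P hPt
  have hP4 : 4 ≤ P := ht04.trans hPt
  have hP0 : 0 < P := by linarith
  have hPl : 0 < Real.log P := by linarith
  -- the size of N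
  have hNlow : P * Real.log P / 32 ≤ N := by
    have k1 : NL P ≤ N := (le_od N P).1 hm1
    have k2 : NT (P / 2) ≤ NL P := NT_le_NL (by linarith)
    have k3 := hlow (P / 2) a2
    have k4 : (NT (P / 2) : ℝ) ≤ N := by exact_mod_cast k2.trans k1
    have k5 : Real.log P / 2 ≤ Real.log (P / 2) := by
      rw [Real.log_div hP0.ne' (by norm_num)]
      have k6 : Real.log 2 * 2 ≤ Real.log P := by
        have : Real.log (2 ^ 2) ≤ Real.log P := Real.log_le_log (by norm_num) (by linarith)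
        rw [Real.log_pow] at this
        push_cast at this
        linarith
      linarith
    have k6 : P / 2 * (Real.log P / 2) ≤ P / 2 * Real.log (P / 2) :=
      mul_le_mul_of_nonneg_left k5 (by linarith)
    linarith
  have hNP : P ≤ N := by
    have k1 : P * 32 ≤ P * Real.log P := mul_le_mul_of_nonneg_left a3 hP0.le
    linarith
  have hN0 : (0 : ℝ) < N := by linarith
  have hlogPN : Real.log P ≤ Real.log N := Real.log_le_log hP0 hNP
  have hN2 : N < NL (2 * P) := by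
    rw [← od_lt]
    linarith
  have hNup : Real.log N ≤ 5 / 4 * Real.log P := by
    have k1 : (N : ℝ) ≤ NL (2 * P) := by exact_mod_cast hN2.le
    have hTuP : Tu ≤ 2 * P := by
      have k2 : Tu ≤ Real.sqrt P := (le_max_right _ _).trans a1
      have k3 : Real.sqrt P ≤ P := by
        rw [Real.sqrt_le_left hP0.le]
        nlinarith
      linarith
    have k2 := hup (2 * P) hTuP
    have k3 : (N : ℝ) ≤ P ^ (5 / 4 : ℝ) := k1.trans (k2.trans a4)
    have k4 := Real.log_le_log hN0 k3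
    rwa [Real.log_rpow hP0] at k4
  -- the first block
  obtain ⟨m0, hm0⟩ : ∃ m0 : ℕ, m0 = (ms + 1) / 2 := ⟨_, rfl⟩
  have hm0a : ms ≤ 2 * m0 := by omega
  have hm0b : 2 * m0 ≤ ms + 1 := by omega
  obtain ⟨Q, hQ⟩ : ∃ Q : ℝ, Q = 2 ^ m0 := ⟨_, rfl⟩
  have hQ0 : 0 < Q := by rw [hQ]; positivity
  have hQa : P ≤ Q ^ 2 := by
    rw [hP, hQ, ← pow_mul, mul_comm m0 2]
    exact pow_le_pow_right₀ one_le_two hm0a
  have hQb : Q ^ 2 ≤ 2 * P := by
    rw [hP, hQ, ← pow_mul, mul_comm m0 2, ← pow_succ']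
    exact pow_le_pow_right₀ one_le_two hm0b
  have hQs : Real.sqrt P ≤ Q := by
    rw [Real.sqrt_le_left hQ0.le]
    exact hQa
  have hQs2 : Q ≤ 2 * Real.sqrt P := by
    have h1 : Real.sqrt P * Real.sqrt P = P := Real.mul_self_sqrt hP0.le
    have h2 : 0 < Real.sqrt P := Real.sqrt_pos.2 hP0
    by_contra hcon
    push Not at hcon
    nlinarith
  have hQl : Real.log P ≤ 2 * Real.log Q := by
    have := Real.log_le_log hP0 hQa
    rw [Real.log_pow] at this
    exact_mod_cast this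
  have hQP : Q ≤ P := by
    rw [hQ, hP]
    apply pow_le_pow_right₀ one_le_two
    have : 1 ≤ ms := by
      by_contra hcon
      have : ms = 0 := by omega
      rw [this, pow_zero] at hP
      linarith
    omega
  have hlow2 : (NL Q : ℝ) ≤ θ / 64 * (P * Real.log P) := by
    have k1 := hup Q (((le_max_right _ _).trans a1).trans hQs)
    have k2 : Real.log Q ≤ Real.log P := Real.log_le_log hQ0 hQP
    have k3 : 0 ≤ Real.log Q := by linarith
    calc (NL Q : ℝ) ≤ Cu * (Q * Real.log Q) := k1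
      _ ≤ Cu * (2 * Real.sqrt P * Real.log P) := by gcongr
      _ = Cu * (2 * Real.sqrt P) * Real.log P := by ring
      _ ≤ θ / 64 * P * Real.log P := mul_le_mul_of_nonneg_right a5 hPl.le
      _ = _ := by ring
  -- the blocks
  set Fm : ℕ → Finset ℕ := fun m => F.filter (fun n => (2 : ℝ) ^ m ≤ od n ∧ od n < 2 * 2 ^ m) with hFm
  have hcov : F ⊆ Finset.range (NL Q) ∪ (Finset.Icc m0 ms).biUnion Fm := by
    intro n hn
    rw [Finset.mem_union, Finset.mem_range]
    rcases lt_or_ge (od n) Q with h | h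
    · left; exact (od_lt n Q).1 h
    · right
      have hQ1 : 1 ≤ Q := by rw [hQ]; exact one_le_pow₀ one_le_two
      obtain ⟨m, j1, j2⟩ := exists_nat_pow_near (x := od n) (y := (2 : ℝ)) (by linarith) one_lt_two
      rw [Finset.mem_biUnion]
      refine ⟨m, ?_, ?_⟩
      · rw [Finset.mem_Icc]
        constructor
        · have k1 : (2 : ℝ) ^ m0 < 2 ^ (m + 1) := by rw [← hQ]; linarith
          have := (pow_lt_pow_iff_right₀ one_lt_two).1 k1
          omega
        · have k1 : od n < 2 * P := by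
            rw [od_lt]
            exact (hF n hn).1.trans_lt hN2
          have k2 : (2 : ℝ) ^ m < 2 ^ (ms + 1) := by
            rw [pow_succ 2 ms, ← hP]; linarith
          have := (pow_lt_pow_iff_right₀ one_lt_two).1 k2
          omega
      · simp only [hFm, Finset.mem_filter]
        rw [pow_succ] at j2
        exact ⟨hn, j1, by linarith⟩
  have hblock : ∀ m ∈ Finset.Icc m0 ms, ((Fm m).card : ℝ) ≤ θ / 128 * Real.log P * 2 ^ m := by
    intro m hm
    rw [Finset.mem_Icc] at hm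
    obtain ⟨T, hT⟩ : ∃ T : ℝ, T = 2 ^ m := ⟨_, rfl⟩
    have hTQ : Q ≤ T := by
      rw [hQ, hT]
      exact pow_le_pow_right₀ one_le_two hm.1
    have hTP : T ≤ P := by
      rw [hT, hP]
      exact pow_le_pow_right₀ one_le_two hm.2
    have hTp : 0 < T := by linarith
    have hlTQ : Real.log Q ≤ Real.log T := Real.log_le_log hQ0 hTQ
    have hlTP : Real.log T ≤ Real.log P := Real.log_le_log hTp hTP
    have hlT0 : 0 < Real.log T := by linarith
    have k1 := hblk T ((((le_max_left _ _).trans a1).trans hQs).trans hTQ) r hr (by linarith) x hx hxA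
      cs hcs1 hcs2 E (Fm m) ?_
    · rw [← hT]
      refine k1.trans ?_
      calc θ / 128 * (T * Real.log T) ≤ θ / 128 * (T * Real.log P) := by gcongr
        _ = _ := by ring
    · intro n hn
      simp only [hFm, Finset.mem_filter] at hn
      obtain ⟨hn1, hn2, hn3⟩ := hn
      obtain ⟨_, c, hc, hcE⟩ := hF n hn1
      rw [hT]
      refine ⟨hn2, hn3, c, hc, hcE.trans ?_⟩
      rw [← hT]
      exact div_le_div_of_nonneg_left (by positivity) hlT0 (hlTP.trans hlogPN)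
  have hsum : ∑ m ∈ Finset.Icc m0 ms, (2 : ℝ) ^ m ≤ 2 * P := by
    have k1 : ∑ m ∈ Finset.Icc m0 ms, (2 : ℝ) ^ m ≤ ∑ m ∈ Finset.range (ms + 1), (2 : ℝ) ^ m := by
      refine Finset.sum_le_sum_of_subset_of_nonneg ?_ fun _ _ _ => by positivity
      intro m hm
      rw [Finset.mem_Icc] at hm
      rw [Finset.mem_range]
      omega
    refine k1.trans ?_
    rw [geom_sum_eq (by norm_num), pow_succ, ← hP]
    linarith
  have hcardF : (F.card : ℝ) ≤ NL Q + ∑ m ∈ Finset.Icc m0 ms, ((Fm m).card : ℝ) := by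
    have k1 := Finset.card_le_card hcov
    have k2 := Finset.card_union_le (Finset.range (NL Q)) ((Finset.Icc m0 ms).biUnion Fm)
    have k3 := Finset.card_biUnion_le (s := Finset.Icc m0 ms) (t := Fm)
    rw [Finset.card_range] at k2
    have k4 : F.card ≤ NL Q + ∑ m ∈ Finset.Icc m0 ms, (Fm m).card := by omega
    exact_mod_cast k4
  have hblocks : ∑ m ∈ Finset.Icc m0 ms, ((Fm m).card : ℝ) ≤ θ / 64 * (P * Real.log P) := by
    refine (Finset.sum_le_sum hblock).trans ?_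
    rw [← Finset.mul_sum]
    calc θ / 128 * Real.log P * ∑ m ∈ Finset.Icc m0 ms, (2 : ℝ) ^ m ≤
        θ / 128 * Real.log P * (2 * P) := mul_le_mul_of_nonneg_left hsum (by positivity)
      _ = _ := by ring
  have hfin : θ / 32 * (P * Real.log P) ≤ θ * N := by
    have := mul_le_mul_of_nonneg_left hNlow hθ.le
    linarith
  linarith

end Pool.Agent.W2helper67.RL
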