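import Pool.Agent.W2helper67.RL.Sb
import Pool.Agent.W2helper93.NV.NumVar

set_option autoImplicit false

/-! # The exceptional set -/

namespace Pool.Agent.W2helper67.RL

open Complex Filter Topology MeasureTheory Set
open Pool.Agent.W2helper93.NV

/-- number variance in terms of the enumeration -/
theorem gvar : ∃ C T0 : ℝ, 0 < C ∧ 10 ≤ T0 ∧ ∀ T : ℝ, T0 ≤ T → ∀ a : ℕ,
    (a : ℝ) * Real.log a ≤ Real.log T →
    ∫ t in T..(2 * T), Gf (2 * Real.pi / Real.log T) t a ^ 2 ≤ C * (1 + Real.log a) * T := by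
  obtain ⟨lam, hlam, hW⟩ := wmom
  obtain ⟨C, T0, hC, hT0, h⟩ := numvar hlam hW
  refine ⟨C + 1, T0, by linarith, hT0, fun T hT a ha => ?_⟩
  have hT10 : 10 ≤ T := hT0.trans hT
  have hT0' : 0 < T := by linarith
  have hL0 : 0 < Real.log T := Real.log_pos (by linarith)
  have hpi := Real.pi_gt_three
  have hla : 0 ≤ Real.log a := Real.log_natCast_nonneg a
  rcases Nat.eq_zero_or_pos a with rfl | ha0
  · have e : ∀ t, Gf (2 * Real.pi / Real.log T) t ((0 : ℕ) : ℝ) = 0 := fun t => by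
      rw [Nat.cast_zero]; exact Gf_zero _ _
    simp only [e]
    simp only [ne_eq, OfNat.ofNat_ne_zero, not_false_eq_true, zero_pow,
      intervalIntegral.integral_zero]
    positivity
  · have ha1 : (1 : ℝ) ≤ a := by exact_mod_cast ha0
    have h1 := (abs_le.1 (h T hT a ha1 ha)).2
    have e : ∫ t in T..(2 * T), Gf (2 * Real.pi / Real.log T) t a ^ 2 =
        ∫ t in T..(2 * T), ((Nwin t (2 * Real.pi * a / Real.log T) : ℝ) - a) ^ 2 := by
      refine intervalIntegral.integral_congr fun t ht => ?_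
      rw [Set.uIcc_of_le (by linarith)] at ht
      show Gf (2 * Real.pi / Real.log T) t a ^ 2 = _
      have e2 : (a : ℝ) * (2 * Real.pi / Real.log T) = 2 * Real.pi * a / Real.log T := by ring
      rw [← NL_sub (by linarith [ht.1]) (by positivity)]
      unfold Gf
      rw [e2]
    rw [e]
    have h2 : T / Real.pi ^ 2 * Real.log a ≤ T * Real.log a := by
      apply mul_le_mul_of_nonneg_right _ hla
      apply div_le_self hT0'.le
      nlinarith
    have h3 : 0 ≤ C * Real.log a * T := by positivity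
    calc _ ≤ C * T + T * Real.log a := by linarith
      _ ≤ _ := by nlinarith

/-- Chebyshev's inequality -/
lemma cheb {f : ℝ → ℝ} (hf : LB f) {α β η V : ℝ} (hαβ : α ≤ β) (hη : 0 < η)
    (h : ∫ t in α..β, f t ^ 2 ≤ V) : volume.real {t ∈ Set.Ioc α β | η < |f t|} ≤ V / η ^ 2 := by
  rw [le_div_iff₀ (by positivity)]
  have hi := (hf.sqr.ii α β)
  rw [intervalIntegrable_iff_integrableOn_Ioc_of_le hαβ] at hi
  have h1 := mul_meas_ge_le_integral_of_nonneg (μ := volume.restrict (Set.Ioc α β))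
    (f := fun t => f t ^ 2) (ae_of_all _ fun t => sq_nonneg _) hi (η ^ 2)
  rw [← intervalIntegral.integral_of_le hαβ] at h1
  have hms : MeasurableSet {t | η ^ 2 ≤ f t ^ 2} :=
    measurableSet_le measurable_const (hf.1.pow_const 2)
  rw [measureReal_restrict_apply hms] at h1
  have h2 : volume.real {t ∈ Set.Ioc α β | η < |f t|} ≤
      volume.real ({t | η ^ 2 ≤ f t ^ 2} ∩ Set.Ioc α β) := by
    refine measureReal_mono ?_ ?_
    · rintro t ⟨h1, h2⟩
      refine ⟨?_, h1⟩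
      show η ^ 2 ≤ f t ^ 2
      rw [← sq_abs (f t)]
      exact pow_le_pow_left₀ hη.le h2.le 2
    · exact ((measure_mono Set.inter_subset_right).trans_lt measure_Ioc_lt_top).ne
  have h3 : 0 < η ^ 2 := by positivity
  nlinarith

/-- shifted windows -/
lemma gshift {C T : ℝ} {ρ : ℝ} {a : ℕ}
    (h : ∫ t in T..(2 * T), Gf ρ t a ^ 2 ≤ C * (1 + Real.log a) * T) {α β s : ℝ}
    (hαβ : α ≤ β) (h1 : T ≤ α + s) (h2 : β + s ≤ 2 * T) :
    ∫ t in α..β, Gf ρ (t + s) a ^ 2 ≤ C * (1 + Real.log a) * T := by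
  rw [intervalIntegral.integral_comp_add_right (fun t => Gf ρ t a ^ 2) s]
  refine le_trans ?_ h
  exact intervalIntegral.integral_mono_interval h1 (by linarith) h2
    (ae_of_all _ fun t => sq_nonneg _) ((Gf_LB ρ a).sqr.ii _ _)

/-- windows at integer distances -/
lemma gint {C T : ℝ} {ρ : ℝ} (hρ : 0 ≤ ρ) {q : ℤ}
    (h : ∫ t in T..(2 * T), Gf ρ t (q.natAbs : ℕ) ^ 2 ≤ C * (1 + Real.log (q.natAbs : ℕ)) * T)
    {α β s : ℝ} (hαβ : α ≤ β) (h1 : T ≤ α + s - (q.natAbs : ℕ) * ρ) (h2 : β + s ≤ 2 * T) :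
    ∫ t in α..β, Gf ρ (t + s) q ^ 2 ≤ C * (1 + Real.log (q.natAbs : ℕ)) * T := by
  have hq0 : (0 : ℝ) ≤ (q.natAbs : ℕ) * ρ := by positivity
  rcases le_or_gt 0 q with hq | hq
  · have e : (q : ℝ) = ((q.natAbs : ℕ) : ℝ) := by
      rw [← Int.cast_natCast (R := ℝ) q.natAbs, Int.natAbs_of_nonneg hq]
    rw [e]
    exact gshift h hαβ (by linarith) h2
  · have e : (q : ℝ) = -((q.natAbs : ℕ) : ℝ) := by
      have := Int.ofNat_natAbs_of_nonpos hq.le
      have h3 : ((q.natAbs : ℤ) : ℝ) = ((-q : ℤ) : ℝ) := by rw [this]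
      push_cast at h3
      have h4 : (((q.natAbs : ℕ) : ℤ) : ℝ) = ((q.natAbs : ℕ) : ℝ) := Int.cast_natCast _
      rw [← h4]
      push_cast
      linarith
    have e2 : ∀ t, Gf ρ (t + s) q ^ 2 = Gf ρ (t + (s - (q.natAbs : ℕ) * ρ)) (q.natAbs : ℕ) ^ 2 := by
      intro t
      rw [e, Gf_neg, neg_sq]
      congr 2
      ring
    simp only [e2]
    exact gshift h hαβ (by linarith) (by linarith)

/-- a set of small measure -/
lemma meas_piece {f : ℝ → ℝ} (hf : LB f) {α β η V : ℝ} (hαβ : α ≤ β) (hη : 0 < η)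
    (h : ∫ t in α..β, f t ^ 2 ≤ V) : MeasurableSet {t ∈ Set.Ioc α β | η < |f t|} ∧
    volume.real {t ∈ Set.Ioc α β | η < |f t|} ≤ V / η ^ 2 := by
  refine ⟨?_, cheb hf hαβ hη h⟩
  exact measurableSet_Ioc.inter (measurableSet_lt measurable_const hf.1.abs)

variable {ι : Type} [Fintype ι]

/-- **the exceptional set** -/
theorem exc (A : ℕ) (η0 ε : ℝ) (hη0 : 0 < η0) (hε : 0 < ε) : ∃ m1 r0 T0 : ℝ, 0 < m1 ∧ 3 ≤ r0 ∧
    10 ≤ T0 ∧ ∀ T : ℝ, T0 ≤ T → ∀ r : ℝ, r0 ≤ r → r ^ (A + 1) ≤ 3 * Real.log T →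
    (m1 + 2 * η0) * Real.sqrt (Real.log r) + 1 ≤ r ∧
    ∀ x : ι → ℕ, (∀ i, (x i : ℝ) ≤ r ^ A) → ∃ Z : Set ℝ, MeasurableSet Z ∧
      Z ⊆ Set.Ioc (T + Real.log T) (2 * T - Real.log T - 7) ∧ volume.real Z ≤ ε * T ∧
      ∀ t ∈ Set.Ioc (T + Real.log T) (2 * T - Real.log T - 7), t ∉ Z →
        (∀ i, |Gf (2 * Real.pi / Real.log T) t (x i)| ≤ m1 * Real.sqrt (Real.log r)) ∧
        (∀ i, ∀ q : ℤ, |(q : ℝ)| ≤ m1 * Real.sqrt (Real.log r) + 2 * (η0 * Real.sqrt (Real.log r)) + 1 →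
          |Gf (2 * Real.pi / Real.log T) (t + x i * (2 * Real.pi / Real.log T)) q| ≤
            η0 * Real.sqrt (Real.log r)) ∧
        |Gf (2 * Real.pi / Real.log T) t 1| ≤ η0 * Real.sqrt (Real.log r) := by
  classical
  obtain ⟨C, T1, hC, hT1, hg⟩ := gvar
  obtain ⟨r1, hr1, hlin⟩ := lin_log A
  obtain ⟨kk, hkk⟩ : ∃ kk : ℝ, kk = Fintype.card ι := ⟨_, rfl⟩
  have hkk0 : 0 ≤ kk := by rw [hkk]; positivity
  -- the first constant
  obtain ⟨m1, hm1⟩ : ∃ m1 : ℝ, m1 = 1 + 3 * ((kk + 1) * (C * (1 + A)) / ε) := ⟨_, rfl⟩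
  have hm1' : 1 ≤ m1 := by
    rw [hm1]
    have : 0 ≤ 3 * ((kk + 1) * (C * (1 + A)) / ε) := by positivity
    linarith
  have hm10 : 0 < m1 := by linarith
  obtain ⟨c1, hc1⟩ : ∃ c1 : ℝ, c1 = m1 + 2 * η0 + 1 := ⟨_, rfl⟩
  have hc10 : 1 ≤ c1 := by rw [hc1]; linarith
  -- the threshold for the square root of the logarithm
  obtain ⟨D, hD⟩ : ∃ D : ℝ, D = 3 * ((kk + 1) * (C * (6 * c1 ^ 2)) / (η0 ^ 2 * ε)) := ⟨_, rfl⟩
  have hD0 : 0 ≤ D := by rw [hD]; positivity
  obtain ⟨D2, hD2⟩ : ∃ D2 : ℝ, D2 = 3 * (C / (η0 ^ 2 * ε)) := ⟨_, rfl⟩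
  have hD20 : 0 ≤ D2 := by rw [hD2]; positivity
  -- size of r
  have ev1 : ∀ᶠ r : ℝ in atTop, c1 * Real.log r ≤ r ^ (1 / 2 : ℝ) := by
    have h1 : (fun r : ℝ => c1 * Real.log r) =o[atTop] fun r : ℝ => r ^ (1 / 2 : ℝ) :=
      (isLittleO_log_rpow_atTop (by norm_num)).const_mul_left c1
    have h2 := h1.bound (c := 1) one_pos
    filter_upwards [h2, eventually_ge_atTop 1] with r hr hr1
    rw [one_mul, Real.norm_of_nonneg (by positivity : (0 : ℝ) ≤ r ^ (1 / 2 : ℝ))] at hr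
    exact (le_abs_self _).trans hr
  obtain ⟨r2, hr2⟩ := ev1.exists_forall_of_atTop
  have ev2 : ∀ᶠ T : ℝ in atTop, 2 * Real.log T + 7 ≤ T / 2 := by
    have h1 : (fun T : ℝ => 2 * Real.log T + 7) =o[atTop] fun T : ℝ => T :=
      (Real.isLittleO_log_id_atTop.const_mul_left 2).add (Asymptotics.isLittleO_const_id_atTop _)
    have h2 := h1.bound (c := 1 / 2) (by norm_num)
    filter_upwards [h2, eventually_ge_atTop 1] with T hT hT1
    rw [Real.norm_of_nonneg (by linarith : (0 : ℝ) ≤ T)] at hT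
    have := (le_abs_self _).trans hT
    linarith
  obtain ⟨T2, hT2⟩ := (ev2.and (Real.tendsto_log_atTop.eventually_ge_atTop 20)).exists_forall_of_atTop
  refine ⟨m1, max (max r1 r2) (Real.exp (1 + D ^ 4 + D2)), max T1 T2, hm10,
    hr1.trans ((le_max_left _ _).trans (le_max_left _ _)), hT1.trans (le_max_left _ _), ?_⟩
  intro T hT r hr hrT
  have hTT1 : T1 ≤ T := (le_max_left _ _).trans hT
  obtain ⟨g1, g2⟩ := hT2 T ((le_max_right _ _).trans hT)
  have hrr1 : r1 ≤ r := ((le_max_left _ _).trans (le_max_left _ _)).trans hr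
  have hrr2 : r2 ≤ r := ((le_max_right _ _).trans (le_max_left _ _)).trans hr
  have hr3 : 3 ≤ r := hr1.trans hrr1
  have hr0 : 0 < r := by linarith
  have hrD : 1 + D ^ 4 + D2 ≤ Real.log r := by
    rw [Real.le_log_iff_exp_le hr0]
    exact (le_max_right _ _).trans hr
  have hl3 := hlin r hrr1
  have hl4 := hr2 r hrr2
  set ℓ := Real.log r with hℓ
  have hD4 : 0 ≤ D ^ 4 := by positivity
  have hℓ1 : 1 ≤ ℓ := by linarith
  have hℓ0 : 0 < ℓ := by linarith
  set y := Real.sqrt ℓ with hy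
  have hy2 : y ^ 2 = ℓ := Real.sq_sqrt hℓ0.le
  have hy1 : 1 ≤ y := by rw [hy, Real.one_le_sqrt]; exact hℓ1
  have hy0 : 0 < y := by linarith
  have hyℓ : y ≤ ℓ := by rw [← hy2]; nlinarith
  have hsq : r ^ (1 / 2 : ℝ) = Real.sqrt r := (Real.sqrt_eq_rpow r).symm
  rw [hsq] at hl4
  have hsr : Real.sqrt r * Real.sqrt r = r := Real.mul_self_sqrt hr0.le
  have hsr1 : 1 ≤ Real.sqrt r := by rw [Real.one_le_sqrt]; linarith
  set W := (m1 + 2 * η0) * y + 1 with hWd
  have hW1 : 1 ≤ W := by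
    have : 0 ≤ (m1 + 2 * η0) * y := by positivity
    linarith
  have hWc : W ≤ c1 * y := by rw [hWd, hc1]; nlinarith
  have hWs : W ≤ Real.sqrt r := hWc.trans ((mul_le_mul_of_nonneg_left hyℓ (by linarith)).trans hl4)
  have hWr : W ≤ r := by nlinarith
  refine ⟨hWr, fun x hx => ?_⟩
  have hT10 : 10 ≤ T := hT1.trans hTT1
  have hT0 : 0 < T := by linarith
  set L := Real.log T with hL
  have hL0 : 0 < L := by linarith
  have hpi0 := Real.pi_pos
  have hpi4 := Real.pi_lt_d2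
  set ρ := 2 * Real.pi / L with hρ
  have hρ0 : 0 < ρ := by positivity
  set α := T + L with hα
  set β := 2 * T - L - 7 with hβ
  have hαβ : α ≤ β := by rw [hα, hβ]; linarith
  have hrA1 : 1 ≤ r ^ A := one_le_pow₀ (by linarith)
  have hrA : r ^ A * 3 ≤ 3 * L := by
    have k1 : r ^ A * 3 ≤ r ^ A * r := mul_le_mul_of_nonneg_left hr3 (by positivity)
    have k2 : r ^ A * r = r ^ (A + 1) := (pow_succ r A).symm
    linarith
  have hrL : r ≤ 3 * L := by
    have k2 : r ^ A * r = r ^ (A + 1) := (pow_succ r A).symm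
    nlinarith
  have hxρ : ∀ i, (x i : ℝ) * ρ ≤ 7 := by
    intro i
    have k1 : (x i : ℝ) ≤ L := by linarith [hx i]
    calc (x i : ℝ) * ρ ≤ L * ρ := mul_le_mul_of_nonneg_right k1 hρ0.le
      _ = 2 * Real.pi := by rw [hρ]; field_simp
      _ ≤ 7 := by linarith
  have hWρ : W * ρ ≤ L := by
    calc W * ρ ≤ (3 * L) * ρ := mul_le_mul_of_nonneg_right (hWr.trans hrL) hρ0.le
      _ = 6 * Real.pi := by rw [hρ]; field_simp; ring
      _ ≤ L := by linarith
  -- logarithms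
  have hlx : ∀ i, Real.log (x i) ≤ A * ℓ ∧ (x i : ℝ) * Real.log (x i) ≤ L := by
    intro i
    rcases Nat.eq_zero_or_pos (x i) with h0 | h0
    · rw [h0, Nat.cast_zero, Real.log_zero, mul_zero]
      exact ⟨by positivity, hL0.le⟩
    · have hp : (0 : ℝ) < x i := by exact_mod_cast h0
      have k1 : Real.log (x i) ≤ A * ℓ := by
        rw [hℓ, ← Real.log_pow]
        exact Real.log_le_log hp (hx i)
      refine ⟨k1, ?_⟩
      calc (x i : ℝ) * Real.log (x i) ≤ r ^ A * (A * ℓ) :=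
            mul_le_mul (hx i) k1 (Real.log_natCast_nonneg _) (by positivity)
        _ ≤ r ^ A * (r / 3) := by
            apply mul_le_mul_of_nonneg_left _ (by positivity)
            linarith
        _ = r ^ (A + 1) / 3 := by rw [pow_succ]; ring
        _ ≤ L := by linarith
  have hlq : ∀ q : ℤ, |(q : ℝ)| ≤ W → Real.log (q.natAbs : ℕ) ≤ Real.log W ∧
      ((q.natAbs : ℕ) : ℝ) * Real.log (q.natAbs : ℕ) ≤ L ∧ ((q.natAbs : ℕ) : ℝ) * ρ ≤ L := by
    intro q hq
    have e : ((q.natAbs : ℕ) : ℝ) = |(q : ℝ)| := by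
      rw [← Int.cast_natCast, Int.natCast_natAbs, Int.cast_abs]
    rw [e]
    have hlW : 0 ≤ Real.log W := Real.log_nonneg hW1
    have k0 : Real.log |(q : ℝ)| ≤ Real.log W := by
      rcases eq_or_lt_of_le (abs_nonneg (q : ℝ)) with h0 | h0
      · rw [← h0, Real.log_zero]; exact hlW
      · exact Real.log_le_log h0 hq
    refine ⟨k0, ?_, (mul_le_mul_of_nonneg_right hq hρ0.le).trans hWρ⟩
    have k1 : Real.log W ≤ 1 / 2 * ℓ := by
      have k2 : Real.log W ≤ Real.log (Real.sqrt r) := Real.log_le_log (by linarith) hWs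
      rw [Real.log_sqrt hr0.le] at k2
      linarith
    have k3 : 1 / 2 * ℓ ≤ Real.sqrt r / 3 := by
      have k4 : 2 ≤ c1 := by rw [hc1]; linarith
      have k5 : 2 * ℓ ≤ c1 * ℓ := mul_le_mul_of_nonneg_right k4 hℓ0.le
      linarith
    calc |(q : ℝ)| * Real.log |(q : ℝ)| ≤ W * Real.log W :=
          mul_le_mul hq k0 (by rw [← e]; exact Real.log_natCast_nonneg _) (by linarith)
      _ ≤ Real.sqrt r * (Real.sqrt r / 3) :=
          mul_le_mul hWs (k1.trans k3) hlW (by positivity)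
      _ = r / 3 := by rw [← mul_div_assoc, hsr]
      _ ≤ L := by linarith
  -- the pieces
  have hp1 : ∀ i, MeasurableSet {t ∈ Set.Ioc α β | m1 * y < |Gf ρ t (x i)|} ∧
      volume.real {t ∈ Set.Ioc α β | m1 * y < |Gf ρ t (x i)|} ≤ C * (1 + A) / m1 * T := by
    intro i
    have k1 := gshift (hg T hTT1 (x i) (hlx i).2) (α := α) (β := β) (s := 0) hαβ
      (by rw [hα]; linarith) (by rw [hβ]; linarith)
    simp only [add_zero] at k1
    obtain ⟨k2, k3⟩ := meas_piece (Gf_LB ρ (x i)) hαβ (by positivity : 0 < m1 * y) k1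
    refine ⟨k2, k3.trans ?_⟩
    rw [div_le_iff₀ (by positivity), mul_pow, hy2]
    have k4 : 1 + Real.log (x i) ≤ (1 + A) * ℓ := by
      have := (hlx i).1
      linarith
    calc C * (1 + Real.log (x i)) * T ≤ C * ((1 + A) * ℓ) * T := by gcongr
      _ = C * (1 + A) * ℓ * T * 1 := by ring
      _ ≤ C * (1 + A) * ℓ * T * m1 := by
          apply mul_le_mul_of_nonneg_left hm1' (by positivity)
      _ = C * (1 + A) / m1 * T * (m1 ^ 2 * ℓ) := by field_simp
  have hp2 : ∀ i, ∀ q : ℤ, |(q : ℝ)| ≤ W →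
      MeasurableSet {t ∈ Set.Ioc α β | η0 * y < |Gf ρ (t + x i * ρ) q|} ∧
      volume.real {t ∈ Set.Ioc α β | η0 * y < |Gf ρ (t + x i * ρ) q|} ≤
        C * (1 + Real.log W) * T / (η0 * y) ^ 2 := by
    intro i q hq
    obtain ⟨j1, j2, j3⟩ := hlq q hq
    have hxi := hxρ i
    have hxi0 : 0 ≤ (x i : ℝ) * ρ := by positivity
    have k1 := gint hρ0.le (hg T hTT1 q.natAbs j2) (α := α) (β := β) (s := x i * ρ) hαβ
      (by rw [hα]; linarith) (by rw [hβ]; linarith)
    obtain ⟨k2, k3⟩ := meas_piece ((Gf_LB ρ q).shift (x i * ρ)) hαβ (by positivity : 0 < η0 * y) k1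
    refine ⟨k2, k3.trans ?_⟩
    gcongr
  have hp3 : MeasurableSet {t ∈ Set.Ioc α β | η0 * y < |Gf ρ t 1|} ∧
      volume.real {t ∈ Set.Ioc α β | η0 * y < |Gf ρ t 1|} ≤ ε / 3 * T := by
    have k0 := hg T hTT1 1 (by rw [Nat.cast_one, Real.log_one, mul_zero]; exact hL0.le)
    have k1 := gshift k0 (α := α) (β := β) (s := 0) hαβ
      (by rw [hα]; linarith) (by rw [hβ]; linarith)
    simp only [add_zero, Nat.cast_one, Real.log_one, mul_one] at k1
    obtain ⟨k2, k3⟩ := meas_piece (Gf_LB ρ 1) hαβ (by positivity : 0 < η0 * y) k1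
    refine ⟨k2, k3.trans ?_⟩
    rw [div_le_iff₀ (by positivity), mul_pow, hy2]
    have k4 : D2 ≤ ℓ := by linarith
    rw [hD2, ← mul_div_assoc, div_le_iff₀ (by positivity)] at k4
    have k5 : C ≤ ε / 3 * (η0 ^ 2 * ℓ) := by linarith
    calc C * T ≤ ε / 3 * (η0 ^ 2 * ℓ) * T := mul_le_mul_of_nonneg_right k5 hT0.le
      _ = _ := by ring
  set Q : ℤ := ⌊W⌋ with hQ
  have hQW : (Q : ℝ) ≤ W := Int.floor_le _
  have hQ0 : 0 ≤ Q := by
    rw [hQ]
    exact Int.floor_nonneg.2 (by linarith)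
  have hQabs : ∀ q ∈ Finset.Icc (-Q) Q, |(q : ℝ)| ≤ W := by
    intro q hq
    rw [Finset.mem_Icc] at hq
    have k1 : (-Q : ℝ) ≤ q := by exact_mod_cast hq.1
    have k2 : (q : ℝ) ≤ Q := by exact_mod_cast hq.2
    rw [abs_le]
    constructor <;> linarith
  set Z1 : Set ℝ := ⋃ i ∈ (Finset.univ : Finset ι), {t ∈ Set.Ioc α β | m1 * y < |Gf ρ t (x i)|} with hZ1
  set Z2 : Set ℝ := ⋃ p ∈ (Finset.univ : Finset ι) ×ˢ Finset.Icc (-Q) Q,
    {t ∈ Set.Ioc α β | η0 * y < |Gf ρ (t + x p.1 * ρ) p.2|} with hZ2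
  set Z3 : Set ℝ := {t ∈ Set.Ioc α β | η0 * y < |Gf ρ t 1|} with hZ3
  have m1Z : volume.real Z1 ≤ ε / 3 * T := by
    refine (measureReal_biUnion_finset_le _ _).trans ?_
    refine (Finset.sum_le_sum fun i _ => (hp1 i).2).trans ?_
    rw [Finset.sum_const, Finset.card_univ, nsmul_eq_mul, ← hkk]
    have k1 : 3 * ((kk + 1) * (C * (1 + A)) / ε) ≤ m1 := by rw [hm1]; linarith
    rw [← mul_div_assoc, div_le_iff₀ hε] at k1
    have k2 : kk * (C * (1 + A) / m1) ≤ ε / 3 := by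
      rw [← mul_div_assoc, div_le_iff₀ hm10]
      have : 0 ≤ C * (1 + (A : ℝ)) := by positivity
      linarith
    calc kk * (C * (1 + A) / m1 * T) = kk * (C * (1 + A) / m1) * T := by ring
      _ ≤ _ := mul_le_mul_of_nonneg_right k2 hT0.le
  have m2Z : volume.real Z2 ≤ ε / 3 * T := by
    refine (measureReal_biUnion_finset_le _ _).trans ?_
    refine (Finset.sum_le_sum fun p hp => (hp2 p.1 p.2 (hQabs p.2 (Finset.mem_product.1 hp).2)).2).trans ?_
    rw [Finset.sum_const, Finset.card_product, Finset.card_univ, nsmul_eq_mul, Int.card_Icc]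
    have k1 : (((Fintype.card ι) * (Q + 1 - -Q).toNat : ℕ) : ℝ) ≤ kk * (3 * W) := by
      push_cast
      rw [← hkk]
      apply mul_le_mul_of_nonneg_left _ hkk0
      have k2 : (((Q + 1 - -Q).toNat : ℕ) : ℝ) = ((Q + 1 - -Q : ℤ) : ℝ) := by
        rw [← Int.cast_natCast, Int.toNat_of_nonneg (by omega)]
      rw [k2]
      push_cast
      linarith
    have hlW : 0 ≤ Real.log W := Real.log_nonneg hW1
    have k3 : 1 + Real.log W ≤ 2 * Real.sqrt W := by
      have k4 : Real.log (Real.sqrt W) ≤ Real.sqrt W - 1 :=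
        Real.log_le_sub_one_of_pos (Real.sqrt_pos.2 (by linarith))
      rw [Real.log_sqrt (by linarith)] at k4
      linarith
    have k5 : Real.sqrt W ≤ c1 * Real.sqrt y := by
      rw [Real.sqrt_le_left (by positivity), mul_pow, Real.sq_sqrt hy0.le]
      refine hWc.trans ?_
      apply mul_le_mul_of_nonneg_right _ hy0.le
      exact le_self_pow₀ hc10 two_ne_zero
    have hsy : 0 < Real.sqrt y := Real.sqrt_pos.2 hy0
    have k6 : W * (1 + Real.log W) ≤ c1 * y * (2 * (c1 * Real.sqrt y)) :=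
      mul_le_mul hWc (k3.trans (by linarith)) (by positivity) (by positivity)
    have k7 : D ≤ Real.sqrt y := by
      rw [Real.le_sqrt hD0 hy0.le, hy, Real.le_sqrt (by positivity) hℓ0.le]
      have : (D ^ 2) ^ 2 = D ^ 4 := by ring
      linarith
    rw [hD, ← mul_div_assoc, div_le_iff₀ (by positivity)] at k7
    have hsy2 : Real.sqrt y * Real.sqrt y = y := Real.mul_self_sqrt hy0.le
    calc (((Fintype.card ι) * (Q + 1 - -Q).toNat : ℕ) : ℝ) *
          (C * (1 + Real.log W) * T / (η0 * y) ^ 2) ≤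
        kk * (3 * W) * (C * (1 + Real.log W) * T / (η0 * y) ^ 2) := by
          apply mul_le_mul_of_nonneg_right k1
          positivity
      _ = kk * 3 * C * T / (η0 * y) ^ 2 * (W * (1 + Real.log W)) := by ring
      _ ≤ kk * 3 * C * T / (η0 * y) ^ 2 * (c1 * y * (2 * (c1 * Real.sqrt y))) := by
          apply mul_le_mul_of_nonneg_left k6
          positivity
      _ = (kk * (C * (6 * c1 ^ 2))) / (η0 ^ 2 * Real.sqrt y) * T := by
          have k8 : y ^ 2 = Real.sqrt y * Real.sqrt y * y := by rw [hsy2]; ring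
          rw [mul_pow, k8]
          field_simp
          ring
      _ ≤ ε / 3 * T := by
          apply mul_le_mul_of_nonneg_right _ hT0.le
          rw [div_le_iff₀ (by positivity)]
          have k9 : 0 ≤ C * (6 * c1 ^ 2) := by positivity
          linarith
  refine ⟨Z1 ∪ Z2 ∪ Z3, ?_, ?_, ?_, ?_⟩
  · refine (MeasurableSet.union ?_ ?_).union hp3.1
    · exact Finset.measurableSet_biUnion _ fun i _ => (hp1 i).1
    · exact Finset.measurableSet_biUnion _ fun p hp =>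
        (hp2 p.1 p.2 (hQabs p.2 (Finset.mem_product.1 hp).2)).1
  · rintro t ((ht | ht) | ht)
    · simp only [hZ1, Set.mem_iUnion] at ht
      obtain ⟨i, _, ht, _⟩ := ht
      exact ht
    · simp only [hZ2, Set.mem_iUnion] at ht
      obtain ⟨i, _, ht, _⟩ := ht
      exact ht
    · exact ht.1
  · have k1 := measureReal_union_le (μ := volume) (Z1 ∪ Z2) Z3
    have k2 := measureReal_union_le (μ := volume) Z1 Z2
    have k3 := hp3.2
    have k4 : ε * T = ε / 3 * T + ε / 3 * T + ε / 3 * T := by ring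
    linarith
  · intro t ht hZ
    simp only [Set.mem_union, not_or] at hZ
    obtain ⟨⟨z1, z2⟩, z3⟩ := hZ
    refine ⟨fun i => ?_, fun i q hq => ?_, ?_⟩
    · by_contra hcon
      push Not at hcon
      apply z1
      simp only [hZ1, Set.mem_iUnion]
      exact ⟨i, Finset.mem_univ i, ht, hcon⟩
    · by_contra hcon
      push Not at hcon
      apply z2
      have hqW : |(q : ℝ)| ≤ W := by rw [hWd]; linarith
      have hqQ : |q| ≤ Q := by
        rw [hQ, Int.le_floor]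
        push_cast
        exact hqW
      simp only [hZ2, Set.mem_iUnion]
      refine ⟨(i, q), Finset.mem_product.2 ⟨Finset.mem_univ _, ?_⟩, ht, hcon⟩
      rw [Finset.mem_Icc]
      exact abs_le.1 hqQ
    · by_contra hcon
      push Not at hcon
      exact z3 ⟨ht, hcon⟩

end Pool.Agent.W2helper67.RL
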