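import Pool.Agent.W2helper67.RL.Dy

set_option autoImplicit false

/-! # The law of large numbers for the ordinates, and summation over dyadic blocks -/

namespace Pool.Agent.W2helper67.RL

open Complex Filter Topology MeasureTheory Set
open Pool.Agent.W2helper93.NV

/-- the distances `od (n + s) - od n` in one block -/
theorem blockL (ε : ℝ) (hε : 0 < ε) : ∃ m s0 T0 : ℝ, 0 < m ∧ 3 ≤ s0 ∧ 10 ≤ T0 ∧
    ∀ T : ℝ, T0 ≤ T → ∀ s : ℕ, s0 ≤ s → (s : ℝ) ^ 2 ≤ 3 * Real.log T →
    ∀ F : Finset ℕ, (∀ n ∈ F, T ≤ od n ∧ od n < 2 * T ∧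
      m * Real.sqrt (Real.log s) < |(od (n + s) - od n) / (2 * Real.pi / Real.log T) - s|) →
    (F.card : ℝ) ≤ ε * (T * Real.log T) := by
  classical
  obtain ⟨Cg, T1, hCg, hT1, hg⟩ := gvar
  obtain ⟨lam, hlam⟩ : ∃ lam : ℝ, lam = ε / (2 * (2 + Cg)) := ⟨_, rfl⟩
  have hlam0 : 0 < lam := by rw [hlam]; positivity
  obtain ⟨m1, r2, T3, hm1, hr2, hT3, hex⟩ := exc (ι := Fin 1) 1 1 (lam ^ 2) one_pos (by positivity)
  obtain ⟨Ce, T4, hCe, hT4, hends⟩ := ends
  have ev1 : ∀ᶠ T : ℝ in atTop, 2 * Real.log T + 7 ≤ T / 2 := by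
    have h1 : (fun T : ℝ => 2 * Real.log T + 7) =o[atTop] fun T : ℝ => T :=
      (Real.isLittleO_log_id_atTop.const_mul_left 2).add (Asymptotics.isLittleO_const_id_atTop _)
    have h2 := h1.bound (c := 1 / 2) (by norm_num)
    filter_upwards [h2, eventually_ge_atTop 1] with T hT hT1
    rw [Real.norm_of_nonneg (by linarith : (0 : ℝ) ≤ T)] at hT
    have := (le_abs_self _).trans hT
    linarith
  have ev2 : ∀ᶠ T : ℝ in atTop, 4 * Ce * Real.log T ≤ ε * T := by
    have h1 : (fun T : ℝ => 4 * Ce * Real.log T) =o[atTop] fun T : ℝ => T :=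
      Real.isLittleO_log_id_atTop.const_mul_left _
    have h2 := h1.bound (c := ε) hε
    filter_upwards [h2, eventually_ge_atTop 1] with T hT hT1
    rw [Real.norm_of_nonneg (by linarith : (0 : ℝ) ≤ T)] at hT
    exact (le_abs_self _).trans hT
  obtain ⟨T5, hT5⟩ := ((ev1.and ev2).and
    (Real.tendsto_log_atTop.eventually_ge_atTop 7)).exists_forall_of_atTop
  refine ⟨m1 + 4, max r2 (Real.exp 1), max (max T1 (max T3 T4)) T5, by positivity,
    hr2.trans (le_max_left _ _), hT1.trans ((le_max_left _ _).trans (le_max_left _ _)), ?_⟩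
  intro T hT s hs hsT F hF
  have hTa : max T1 (max T3 T4) ≤ T := (le_max_left _ _).trans hT
  have hTT1 : T1 ≤ T := (le_max_left _ _).trans hTa
  have hTT3 : T3 ≤ T := ((le_max_left _ _).trans (le_max_right _ _)).trans hTa
  have hTT4 : T4 ≤ T := ((le_max_right _ _).trans (le_max_right _ _)).trans hTa
  obtain ⟨⟨g1, g2⟩, g4⟩ := hT5 T ((le_max_right _ _).trans hT)
  have hrr2 : r2 ≤ (s : ℝ) := (le_max_left _ _).trans hs
  have hr3 : (3 : ℝ) ≤ s := hr2.trans hrr2
  have hr0 : (0 : ℝ) < s := by linarith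
  have hrD : 1 ≤ Real.log s := by
    rw [Real.le_log_iff_exp_le hr0]
    exact (le_max_right _ _).trans hs
  have hT10 : 10 ≤ T := hT1.trans hTT1
  have hT0 : 0 < T := by linarith
  set L := Real.log T with hL
  have hL0 : 0 < L := by linarith
  set y := Real.sqrt (Real.log s) with hy
  have hy1 : 1 ≤ y := by rw [hy, Real.one_le_sqrt]; exact hrD
  have hpi0 := Real.pi_pos
  have hpi3 := Real.pi_gt_three
  have hpi4 := Real.pi_lt_d2
  set ρ := 2 * Real.pi / L with hρ
  have hρ0 : 0 < ρ := by positivity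
  have hρL : ρ * L = 2 * Real.pi := by rw [hρ]; field_simp
  have hρ1 : ρ ≤ 1 := by
    rw [hρ, div_le_one hL0]
    linarith
  set α := T + L with hα
  set β := 2 * T - L - 7 with hβ
  have hαβ : α ≤ β := by rw [hα, hβ]; linarith
  obtain ⟨hWr, hexx⟩ := hex T hTT3 s hrr2 (by norm_num; exact hsT)
  obtain ⟨Z, hZm, hZs, hZv, hZx⟩ := hexx (fun _ => s) (fun _ => by rw [pow_one])
  -- the key point
  have hkey : ∀ t ∈ Set.Ioc α β, ∀ n ∈ F, t ≤ od n → od n < t + ρ → t ∈ Z := by
    intro t ht n hn hn1 hn2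
    by_contra z1
    obtain ⟨w1, w2, w3⟩ := hZx t ht z1
    have hl := lin_at (η := 1 * y) (R := m1 * y) (fun _ : Fin 1 => s) n hρ0 (by positivity) hn1 hn2
      w3 w1 w2 0
    obtain ⟨_, _, hcE⟩ := hF n hn
    have k1 : (od (n + s) - od n) / ρ - s = ((od (n + s) - t) / ρ - s + Gf ρ t s) - Gf ρ t s -
        (od n - t) / ρ := by ring
    have k2 : 0 ≤ (od n - t) / ρ := div_nonneg (by linarith) hρ0.le
    have k3 : (od n - t) / ρ ≤ 1 := by rw [div_le_one hρ0]; linarith
    have k4 := abs_le.1 hl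
    have k5 := abs_le.1 (w1 0)
    have k6 : |(od (n + s) - od n) / ρ - s| ≤ (m1 + 4) * y := by
      rw [k1, abs_le]
      constructor
      · linarith [k4.1, k5.2]
      · linarith [k4.2, k5.1]
    linarith
  -- the parts of F
  have hG1 : ∫ t in α..β, Gf ρ t 1 ^ 2 ≤ Cg * T := by
    have k0 := hg T hTT1 1 (by rw [Nat.cast_one, Real.log_one, mul_zero]; exact hL0.le)
    have k1 := gshift k0 (α := α) (β := β) (s := 0) hαβ
      (by rw [hα]; linarith) (by rw [hβ]; linarith)
    simp only [add_zero, Nat.cast_one, Real.log_one, mul_one] at k1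
    exact k1
  set F1 := F.filter (fun n => α + ρ ≤ od n ∧ od n ≤ β) with hF1
  set F2 := F.filter (fun n => T ≤ od n ∧ od n < α + ρ) with hF2
  set F3 := F.filter (fun n => β ≤ od n ∧ od n < 2 * T) with hF3
  have hFs : F ⊆ F1 ∪ F2 ∪ F3 := by
    intro n hn
    obtain ⟨k1, k2, _⟩ := hF n hn
    simp only [hF1, hF2, hF3, Finset.mem_union, Finset.mem_filter]
    rcases lt_or_ge (od n) (α + ρ) with h | h
    · left; right; exact ⟨hn, k1, h⟩
    · rcases le_or_gt (od n) β with h' | h'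
      · left; left; exact ⟨hn, h, h'⟩
      · right; exact ⟨hn, h'.le, k2⟩
  have c1 := count2 hρ0 hαβ hlam0 F1 (fun n hn => by
      rw [hF1, Finset.mem_filter] at hn; exact hn.2) hZm hZs
    (fun t ht n hn h1 h2 => hkey t ht n (Finset.mem_filter.1 hn).1 h1 h2) hG1
    (by rw [hα, hβ]; linarith) hZv
  have c1' : (F1.card : ℝ) ≤ ε / 2 * (T * L) := by
    have k1 : lam * (2 + Cg) = ε / 2 := by rw [hlam]; field_simp
    rw [k1] at c1
    have k2 : (F1.card : ℝ) * (2 * Real.pi) ≤ ε / 2 * (T * L) := by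
      calc (F1.card : ℝ) * (2 * Real.pi) = (F1.card : ℝ) * ρ * L := by rw [← hρL]; ring
        _ ≤ ε / 2 * T * L := mul_le_mul_of_nonneg_right c1 hL0.le
        _ = _ := by ring
    have k3 : (F1.card : ℝ) * 1 ≤ (F1.card : ℝ) * (2 * Real.pi) :=
      mul_le_mul_of_nonneg_left (by linarith) (Nat.cast_nonneg _)
    linarith
  have c2 := hends T hTT4 T (α + ρ) le_rfl (by rw [hα]; linarith) (by rw [hα]; linarith) F2
    (fun n hn => (Finset.mem_filter.1 hn).2)
  have c3 := hends T hTT4 β (2 * T) (by rw [hβ]; linarith) le_rfl (by rw [hβ]; linarith) F3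
    (fun n hn => (Finset.mem_filter.1 hn).2)
  have hcardF : (F.card : ℝ) ≤ F1.card + F2.card + F3.card := by
    have k1 := Finset.card_le_card hFs
    have k2 := Finset.card_union_le (F1 ∪ F2) F3
    have k3 := Finset.card_union_le F1 F2
    have k4 : F.card ≤ F1.card + F2.card + F3.card := by omega
    exact_mod_cast k4
  have hlast : Ce * L ^ 2 + Ce * L ^ 2 ≤ ε / 2 * (T * L) := by
    have k1 : 4 * Ce * L * L ≤ ε * T * L := mul_le_mul_of_nonneg_right g2 hL0.le
    have k2 : Ce * L ^ 2 + Ce * L ^ 2 = 4 * Ce * L * L / 2 := by ring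
    have k3 : ε / 2 * (T * L) = ε * T * L / 2 := by ring
    rw [k2, k3]
    linarith
  have k4 : ε * (T * L) = ε / 2 * (T * L) + ε / 2 * (T * L) := by ring
  linarith

/-- **summation over dyadic blocks** -/
theorem dyadic (θ T0 : ℝ) (hθ : 0 < θ) : ∃ N0 : ℕ, ∀ N : ℕ, N0 ≤ N → ∀ F : Finset ℕ,
    (∀ n ∈ F, n ≤ N) → (∀ T : ℝ, T0 ≤ T → Real.log T ≤ Real.log N → Real.log N ≤ 3 * Real.log T →
      ∀ G ⊆ F, (∀ n ∈ G, T ≤ od n ∧ od n < 2 * T) → (G.card : ℝ) ≤ θ / 128 * (T * Real.log T)) →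
    (F.card : ℝ) ≤ θ * N := by
  classical
  obtain ⟨Tl, hTl, hlow⟩ := NT_low
  obtain ⟨Cu, Tu, hCu, hTu, hup⟩ := NL_up
  obtain ⟨t0, ht04, ht0⟩ := thr Cu (max T0 Tu) Tl θ hCu hθ
  refine ⟨NL (2 * t0), ?_⟩
  intro N hN F hFN hblk
  -- the dyadic size
  have hod : 2 * t0 ≤ od N := (le_od N _).2 hN
  obtain ⟨ms, hm1, hm2⟩ := exists_nat_pow_near (x := od N) (y := (2 : ℝ)) (by linarith) one_lt_two
  obtain ⟨P, hP⟩ : ∃ P : ℝ, P = 2 ^ ms := ⟨_, rfl⟩
  rw [← hP] at hm1
  rw [pow_succ, ← hP] at hm2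
  have hPt : t0 ≤ P := by linarith
  obtain ⟨a1, a2, a3, a4, a5⟩ := ht0 P hPt
  have hP4 : 4 ≤ P := ht04.trans hPt
  have hP0 : 0 < P := by linarith
  have hPl : 0 < Real.log P := by linarith
  -- the size of N
  have hNlow : P * Real.log P / 32 ≤ N := by
    have k1 : NL P ≤ N := (le_od N P).1 hm1
    have k2 : NT (P / 2) ≤ NL P := NT_le_NL (by linarith)
    have k3 := hlow (P / 2) a2
    have k4 : (NT (P / 2) : ℝ) ≤ N := by exact_mod_cast k2.trans k1
    have k5 : Real.log P / 2 ≤ Real.log (P / 2) := by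
      rw [Real.log_div hP0.ne' (by norm_num)]
      have k6 : Real.log 2 * 2 ≤ Real.log P := by
        have : Real.log (2 ^ 2) ≤ Real.log P := Real.log_le_log (by norm_num) (by linarith)
        rw [Real.log_pow] at this
        push_cast at this
        linarith
      linarith
    have k6 : P / 2 * (Real.log P / 2) ≤ P / 2 * Real.log (P / 2) :=
      mul_le_mul_of_nonneg_left k5 (by linarith)
    linarith
  have hNP : P ≤ N := by
    have k1 : P * 32 ≤ P * Real.log P := mul_le_mul_of_nonneg_left a3 hP0.le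
    linarith
  have hN0 : (0 : ℝ) < N := by linarith
  have hlogPN : Real.log P ≤ Real.log N := Real.log_le_log hP0 hNP
  have hN2 : N < NL (2 * P) := by
    rw [← od_lt]
    linarith
  have hNup : Real.log N ≤ 5 / 4 * Real.log P := by
    have k1 : (N : ℝ) ≤ NL (2 * P) := by exact_mod_cast hN2.le
    have hTuP : Tu ≤ 2 * P := by
      have k2 : Tu ≤ Real.sqrt P := (le_max_right _ _).trans a1
      have k3 : Real.sqrt P ≤ P := by
        rw [Real.sqrt_le_left hP0.le]
        nlinarith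
      linarith
    have k2 := hup (2 * P) hTuP
    have k3 : (N : ℝ) ≤ P ^ (5 / 4 : ℝ) := k1.trans (k2.trans a4)
    have k4 := Real.log_le_log hN0 k3
    rwa [Real.log_rpow hP0] at k4
  -- the first block
  obtain ⟨m0, hm0⟩ : ∃ m0 : ℕ, m0 = (ms + 1) / 2 := ⟨_, rfl⟩
  have hm0a : ms ≤ 2 * m0 := by omega
  have hm0b : 2 * m0 ≤ ms + 1 := by omega
  obtain ⟨Q, hQ⟩ : ∃ Q : ℝ, Q = 2 ^ m0 := ⟨_, rfl⟩
  have hQ0 : 0 < Q := by rw [hQ]; positivity
  have hQa : P ≤ Q ^ 2 := by
    rw [hP, hQ, ← pow_mul, mul_comm m0 2]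
    exact pow_le_pow_right₀ one_le_two hm0a
  have hQb : Q ^ 2 ≤ 2 * P := by
    rw [hP, hQ, ← pow_mul, mul_comm m0 2, ← pow_succ']
    exact pow_le_pow_right₀ one_le_two hm0b
  have hQs : Real.sqrt P ≤ Q := by
    rw [Real.sqrt_le_left hQ0.le]
    exact hQa
  have hQs2 : Q ≤ 2 * Real.sqrt P := by
    have h1 : Real.sqrt P * Real.sqrt P = P := Real.mul_self_sqrt hP0.le
    have h2 : 0 < Real.sqrt P := Real.sqrt_pos.2 hP0
    by_contra hcon
    push Not at hcon
    nlinarith
  have hQl : Real.log P ≤ 2 * Real.log Q := by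
    have := Real.log_le_log hP0 hQa
    rw [Real.log_pow] at this
    exact_mod_cast this
  have hQP : Q ≤ P := by
    rw [hQ, hP]
    apply pow_le_pow_right₀ one_le_two
    have : 1 ≤ ms := by
      by_contra hcon
      have : ms = 0 := by omega
      rw [this, pow_zero] at hP
      linarith
    omega
  have hlow2 : (NL Q : ℝ) ≤ θ / 64 * (P * Real.log P) := by
    have k1 := hup Q (((le_max_right _ _).trans a1).trans hQs)
    have k2 : Real.log Q ≤ Real.log P := Real.log_le_log hQ0 hQP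
    have k3 : 0 ≤ Real.log Q := by linarith
    calc (NL Q : ℝ) ≤ Cu * (Q * Real.log Q) := k1
      _ ≤ Cu * (2 * Real.sqrt P * Real.log P) := by gcongr
      _ = Cu * (2 * Real.sqrt P) * Real.log P := by ring
      _ ≤ θ / 64 * P * Real.log P := mul_le_mul_of_nonneg_right a5 hPl.le
      _ = _ := by ring
  -- the blocks
  set Fm : ℕ → Finset ℕ := fun m => F.filter (fun n => (2 : ℝ) ^ m ≤ od n ∧ od n < 2 * 2 ^ m) with hFm
  have hcov : F ⊆ Finset.range (NL Q) ∪ (Finset.Icc m0 ms).biUnion Fm := by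
    intro n hn
    rw [Finset.mem_union, Finset.mem_range]
    rcases lt_or_ge (od n) Q with h | h
    · left; exact (od_lt n Q).1 h
    · right
      have hQ1 : 1 ≤ Q := by rw [hQ]; exact one_le_pow₀ one_le_two
      obtain ⟨m, j1, j2⟩ := exists_nat_pow_near (x := od n) (y := (2 : ℝ)) (by linarith) one_lt_two
      rw [Finset.mem_biUnion]
      refine ⟨m, ?_, ?_⟩
      · rw [Finset.mem_Icc]
        constructor
        · have k1 : (2 : ℝ) ^ m0 < 2 ^ (m + 1) := by rw [← hQ]; linarith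
          have := (pow_lt_pow_iff_right₀ one_lt_two).1 k1
          omega
        · have k1 : od n < 2 * P := by
            rw [od_lt]
            exact (hFN n hn).trans_lt hN2
          have k2 : (2 : ℝ) ^ m < 2 ^ (ms + 1) := by
            rw [pow_succ 2 ms, ← hP]; linarith
          have := (pow_lt_pow_iff_right₀ one_lt_two).1 k2
          omega
      · simp only [hFm, Finset.mem_filter]
        rw [pow_succ] at j2
        exact ⟨hn, j1, by linarith⟩
  have hblock : ∀ m ∈ Finset.Icc m0 ms, ((Fm m).card : ℝ) ≤ θ / 128 * Real.log P * 2 ^ m := by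
    intro m hm
    rw [Finset.mem_Icc] at hm
    obtain ⟨T, hT⟩ : ∃ T : ℝ, T = 2 ^ m := ⟨_, rfl⟩
    have hTQ : Q ≤ T := by
      rw [hQ, hT]
      exact pow_le_pow_right₀ one_le_two hm.1
    have hTP : T ≤ P := by
      rw [hT, hP]
      exact pow_le_pow_right₀ one_le_two hm.2
    have hTp : 0 < T := by linarith
    have hlTQ : Real.log Q ≤ Real.log T := Real.log_le_log hQ0 hTQ
    have hlTP : Real.log T ≤ Real.log P := Real.log_le_log hTp hTP
    have hlT0 : 0 < Real.log T := by linarith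
    have k1 := hblk T ((((le_max_left _ _).trans a1).trans hQs).trans hTQ) (hlTP.trans hlogPN)
      (by linarith) (Fm m) (Finset.filter_subset _ _) (fun n hn => by
        simp only [hFm, Finset.mem_filter] at hn
        rw [hT]
        exact hn.2)
    rw [← hT]
    refine k1.trans ?_
    calc θ / 128 * (T * Real.log T) ≤ θ / 128 * (T * Real.log P) := by gcongr
      _ = _ := by ring
  have hsum : ∑ m ∈ Finset.Icc m0 ms, (2 : ℝ) ^ m ≤ 2 * P := by
    have k1 : ∑ m ∈ Finset.Icc m0 ms, (2 : ℝ) ^ m ≤ ∑ m ∈ Finset.range (ms + 1), (2 : ℝ) ^ m := by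
      refine Finset.sum_le_sum_of_subset_of_nonneg ?_ fun _ _ _ => by positivity
      intro m hm
      rw [Finset.mem_Icc] at hm
      rw [Finset.mem_range]
      omega
    refine k1.trans ?_
    rw [geom_sum_eq (by norm_num), pow_succ, ← hP]
    linarith
  have hcardF : (F.card : ℝ) ≤ NL Q + ∑ m ∈ Finset.Icc m0 ms, ((Fm m).card : ℝ) := by
    have k1 := Finset.card_le_card hcov
    have k2 := Finset.card_union_le (Finset.range (NL Q)) ((Finset.Icc m0 ms).biUnion Fm)
    have k3 := Finset.card_biUnion_le (s := Finset.Icc m0 ms) (t := Fm)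
    rw [Finset.card_range] at k2
    have k4 : F.card ≤ NL Q + ∑ m ∈ Finset.Icc m0 ms, (Fm m).card := by omega
    exact_mod_cast k4
  have hblocks : ∑ m ∈ Finset.Icc m0 ms, ((Fm m).card : ℝ) ≤ θ / 64 * (P * Real.log P) := by
    refine (Finset.sum_le_sum hblock).trans ?_
    rw [← Finset.mul_sum]
    calc θ / 128 * Real.log P * ∑ m ∈ Finset.Icc m0 ms, (2 : ℝ) ^ m ≤
        θ / 128 * Real.log P * (2 * P) := mul_le_mul_of_nonneg_left hsum (by positivity)
      _ = _ := by ring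
  have hfin : θ / 32 * (P * Real.log P) ≤ θ * N := by
    have := mul_le_mul_of_nonneg_left hNlow hθ.le
    linarith
  linarith

end Pool.Agent.W2helper67.RL
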