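import Pool.Agent.W2helper93.NV.Tot
import Pool.Agent.W2helper93.NV.Prob

set_option autoImplicit false

/-! # The enumeration of the ordinates -/

namespace Pool.Agent.W2helper67.RL

open Complex Filter Topology MeasureTheory Set
open Pool.Agent.W2helper93.NV

/-- the number of zeros with ordinate in `(0, t)`, counted with multiplicity -/
noncomputable def NL (t : ℝ) : ℕ := ∑ᶠ s ∈ {s : ℂ | s ∈ ZZ ∧ 0 < s.im ∧ s.im < t}, zmult s

/-- the ordinates of the zeros in the upper half-plane in nondecreasing order -/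
noncomputable def od (n : ℕ) : ℝ := sInf {t : ℝ | n < NT t}

lemma NL_fin (t : ℝ) : {s : ℂ | s ∈ ZZ ∧ 0 < s.im ∧ s.im < t}.Finite :=
  (ZZ_fin 0 t).subset fun _ hs => ⟨hs.1, hs.2.1.le, hs.2.2.le⟩

lemma NL_mono : Monotone NL := by
  intro a b hab
  unfold NL
  rw [finsum_mem_eq_finite_toFinset_sum _ (NL_fin a), finsum_mem_eq_finite_toFinset_sum _ (NL_fin b)]
  refine Finset.sum_le_sum_of_subset ?_
  intro s hs
  rw [Set.Finite.mem_toFinset] at hs ⊢
  exact ⟨hs.1, hs.2.1, hs.2.2.trans_le hab⟩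

lemma NL_le_NT (t : ℝ) : NL t ≤ NT t := by
  unfold NL NT
  rw [finsum_mem_eq_finite_toFinset_sum _ (NL_fin t), finsum_mem_eq_finite_toFinset_sum _ (NT_fin t)]
  refine Finset.sum_le_sum_of_subset ?_
  intro s hs
  rw [Set.Finite.mem_toFinset] at hs ⊢
  exact ⟨hs.1, hs.2.1, hs.2.2.le⟩

lemma NT_le_NL {t t' : ℝ} (h : t < t') : NT t ≤ NL t' := by
  unfold NL NT
  rw [finsum_mem_eq_finite_toFinset_sum _ (NL_fin t'), finsum_mem_eq_finite_toFinset_sum _ (NT_fin t)]
  refine Finset.sum_le_sum_of_subset ?_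
  intro s hs
  rw [Set.Finite.mem_toFinset] at hs ⊢
  exact ⟨hs.1, hs.2.1, hs.2.2.trans_lt h⟩

lemma NL_left {t : ℝ} (h : 0 < NL t) : ∃ t' : ℝ, t' < t ∧ NL t ≤ NT t' := by
  classical
  have hne : (NL_fin t).toFinset.Nonempty := by
    by_contra hcon
    rw [Finset.not_nonempty_iff_eq_empty] at hcon
    unfold NL at h
    rw [finsum_mem_eq_finite_toFinset_sum _ (NL_fin t), hcon, Finset.sum_empty] at h
    exact lt_irrefl _ h
  refine ⟨(NL_fin t).toFinset.sup' hne fun s => s.im, ?_, ?_⟩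
  · rw [Finset.sup'_lt_iff]
    intro s hs
    rw [Set.Finite.mem_toFinset] at hs
    exact hs.2.2
  · unfold NL NT
    rw [finsum_mem_eq_finite_toFinset_sum _ (NL_fin t), finsum_mem_eq_finite_toFinset_sum _ (NT_fin _)]
    refine Finset.sum_le_sum_of_subset ?_
    intro s hs
    have h2 := Finset.le_sup' (fun s : ℂ => s.im) hs
    rw [Set.Finite.mem_toFinset] at hs ⊢
    exact ⟨hs.1, hs.2.1, h2⟩

lemma NT_nonpos {t : ℝ} (ht : t ≤ 0) : NT t = 0 := by
  unfold NT
  rw [finsum_mem_eq_finite_toFinset_sum _ (NT_fin t)]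
  refine Finset.sum_eq_zero fun s hs => ?_
  rw [Set.Finite.mem_toFinset] at hs
  exact absurd (hs.2.1.trans_le hs.2.2) (not_lt.2 ht)

/-- a lower bound for the number of zeros -/
lemma NT_low : ∃ T0 : ℝ, 10 ≤ T0 ∧ ∀ T : ℝ, T0 ≤ T → T * Real.log T / 8 ≤ NT T := by
  obtain ⟨C, T0, hC, hT0, h⟩ := tot
  have hlog := Real.tendsto_log_atTop
  obtain ⟨T1, hT1⟩ := (hlog.eventually_ge_atTop (100 * C)).exists_forall_of_atTop
  refine ⟨max T0 T1, hT0.trans (le_max_left _ _), fun T hT => ?_⟩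
  have h1 := (abs_le.1 (h T ((le_max_left _ _).trans hT))).1
  have h2 := (NT_cmp T).1
  have h3 := hT1 T ((le_max_right _ _).trans hT)
  have hT10 : 10 ≤ T := hT0.trans ((le_max_left _ _).trans hT)
  have hpi := Real.pi_lt_d2
  have hpi0 := Real.pi_pos
  have hL : 0 < Real.log T := Real.log_pos (by linarith)
  have h4 : T * Real.log T * (10 / 63) ≤ T * Real.log T / (2 * Real.pi) := by
    rw [le_div_iff₀ (by positivity)]
    have : 0 < T * Real.log T := by positivity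
    nlinarith
  have h5 : C * T ≤ T * Real.log T * (1 / 100) := by nlinarith
  nlinarith [mul_pos (by linarith : 0 < T) hL]

lemma set_ne (n : ℕ) : {t : ℝ | n < NT t}.Nonempty := by
  obtain ⟨T0, hT0, h⟩ := NT_low
  refine ⟨max T0 (8 * (n + 1)), ?_⟩
  have h1 := h _ (le_max_left T0 (8 * ((n : ℝ) + 1)))
  set T := max T0 (8 * ((n : ℝ) + 1)) with hT
  have h2 : 8 * ((n : ℝ) + 1) ≤ T := le_max_right _ _
  have h3 : 10 ≤ T := hT0.trans (le_max_left _ _)
  have h4 : 1 ≤ Real.log T := by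
    rw [Real.le_log_iff_exp_le (by linarith)]
    linarith [Real.exp_one_lt_d9]
  have h5 : (n : ℝ) < NT T := by nlinarith
  exact_mod_cast h5

/-- the basic equivalence -/
theorem od_lt (n : ℕ) (t : ℝ) : od n < t ↔ n < NL t := by
  unfold od
  constructor
  · intro h
    obtain ⟨t', h1, h2⟩ := exists_lt_of_csInf_lt (set_ne n) h
    exact lt_of_lt_of_le h1 (NT_le_NL h2)
  · intro h
    obtain ⟨t', h1, h2⟩ := NL_left (by omega : 0 < NL t)
    refine lt_of_le_of_lt (csInf_le ⟨0, ?_⟩ (show n < NT t' by omega)) h1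
    intro y hy
    by_contra hcon
    rw [Set.mem_setOf_eq, NT_nonpos (by linarith)] at hy
    omega

lemma le_od (n : ℕ) (t : ℝ) : t ≤ od n ↔ NL t ≤ n := by
  rw [← not_lt, od_lt, not_lt]

/-- windows -/
lemma NL_sub {t h : ℝ} (ht : 0 < t) (hh : 0 ≤ h) : (NL (t + h) : ℝ) - NL t = Nwin t h := by
  have hf : {s : ℂ | s ∈ ZZ ∧ t ≤ s.im ∧ s.im < t + h}.Finite :=
    (ZZ_fin t (t + h)).subset fun _ hs => ⟨hs.1, hs.2.1, hs.2.2.le⟩
  have e : {s : ℂ | s ∈ ZZ ∧ 0 < s.im ∧ s.im < t + h} =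
      {s : ℂ | s ∈ ZZ ∧ 0 < s.im ∧ s.im < t} ∪ {s : ℂ | s ∈ ZZ ∧ t ≤ s.im ∧ s.im < t + h} := by
    ext s
    simp only [Set.mem_setOf_eq, Set.mem_union]
    constructor
    · rintro ⟨h1, h2, h3⟩
      rcases lt_or_ge s.im t with h4 | h4
      · left; exact ⟨h1, h2, h4⟩
      · right; exact ⟨h1, h4, h3⟩
    · rintro (⟨h1, h2, h3⟩ | ⟨h1, h2, h3⟩)
      · exact ⟨h1, h2, by linarith⟩
      · exact ⟨h1, by linarith, h3⟩
  have h1 : NL (t + h) = NL t + Nwin t h := by
    unfold NL Nwin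
    rw [e, finsum_mem_union _ (NL_fin t) hf]
    rw [Set.disjoint_left]
    rintro s ⟨_, _, h3⟩ ⟨_, h5, _⟩
    linarith
  rw [h1]
  push_cast
  ring

lemma NLr_meas : Measurable fun t : ℝ => (NL t : ℝ) :=
  (Nat.mono_cast.comp NL_mono).measurable

/-- the normalised deviation of the count -/
noncomputable def Gf (ρ t y : ℝ) : ℝ := (NL (t + y * ρ) : ℝ) - NL t - y

lemma Gf_meas (ρ y : ℝ) : Measurable fun t : ℝ => Gf ρ t y :=
  ((NLr_meas.comp (measurable_id.add_const (y * ρ))).sub NLr_meas).sub_const y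

lemma Gf_neg (ρ t y : ℝ) : Gf ρ t (-y) = -Gf ρ (t - y * ρ) y := by
  unfold Gf
  have e1 : t + -y * ρ = t - y * ρ := by ring
  have e2 : t - y * ρ + y * ρ = t := by ring
  rw [e1, e2]
  ring

lemma Gf_zero (ρ t : ℝ) : Gf ρ t 0 = 0 := by
  unfold Gf
  simp

lemma Gf_ii (ρ y s α β : ℝ) : IntervalIntegrable (fun t => Gf ρ (t + s) y ^ 2) volume α β := by
  rw [intervalIntegrable_iff]
  refine Measure.integrableOn_of_bounded
    (M := ((NL (max α β + s + y * ρ) : ℝ) + (NL (max α β + s) : ℝ) + |y|) ^ 2)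
    (by rw [Set.uIoc]; exact measure_Ioc_lt_top.ne)
    ((((Gf_meas ρ y).comp (measurable_id.add_const s)).pow_const 2).aestronglyMeasurable) ?_
  rw [ae_restrict_iff' measurableSet_uIoc]
  refine Eventually.of_forall fun t ht => ?_
  rw [Set.uIoc, Set.mem_Ioc] at ht
  rw [Real.norm_of_nonneg (sq_nonneg _), ← sq_abs]
  apply pow_le_pow_left₀ (abs_nonneg _)
  unfold Gf
  have h1 : (NL (t + s + y * ρ) : ℝ) ≤ NL (max α β + s + y * ρ) := by
    exact_mod_cast NL_mono (by linarith [ht.2])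
  have h2 : (NL (t + s) : ℝ) ≤ NL (max α β + s) := by
    exact_mod_cast NL_mono (by linarith [ht.2])
  have h3 : (0 : ℝ) ≤ NL (t + s + y * ρ) := Nat.cast_nonneg _
  have h4 : (0 : ℝ) ≤ NL (t + s) := Nat.cast_nonneg _
  have h5 := abs_le.1 (le_refl |y|)
  rw [abs_le]
  constructor <;> linarith [h5.1, h5.2, le_abs_self y, neg_abs_le y]

/-- **from the counting function to the ordinates** -/
theorem conv {ρ t η R : ℝ} (hρ : 0 < ρ) (i n : ℕ) (h1 : NL t ≤ n)
    (h2 : (n : ℝ) ≤ NL t + η) (hη : 0 ≤ η) (hG : |Gf ρ t i| ≤ R)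
    (hq : ∀ q : ℤ, |(q : ℝ)| ≤ R + 2 * η + 1 → |Gf ρ (t + i * ρ) q| ≤ η) :
    |(od (n + i) - t) / ρ - i + Gf ρ t i| ≤ 2 * η + 1 := by
  have hkey : ∀ q : ℤ, (NL (t + (i + q) * ρ) : ℝ) = NL t + i + q + Gf ρ t i +
      Gf ρ (t + i * ρ) q := by
    intro q
    unfold Gf
    have e : t + i * ρ + q * ρ = t + (i + q) * ρ := by ring
    rw [e]
    ring
  obtain ⟨g1, g2⟩ := abs_le.1 hG
  rw [abs_le]
  constructor
  · -- lower bound
    set q : ℤ := ⌊-Gf ρ t i - η⌋ with hqd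
    have k1 : (q : ℝ) ≤ -Gf ρ t i - η := Int.floor_le _
    have k2 : -Gf ρ t i - η < q + 1 := Int.lt_floor_add_one _
    have k3 := abs_le.1 (hq q (by rw [abs_le]; constructor <;> linarith))
    have k4 : (NL (t + (i + q) * ρ) : ℝ) ≤ ((n + i : ℕ) : ℝ) := by
      rw [hkey]
      push_cast
      have : (NL t : ℝ) ≤ n := by exact_mod_cast h1
      linarith [k3.2]
    have k5 : t + (i + q) * ρ ≤ od (n + i) := by
      rw [le_od]
      exact_mod_cast k4
    have k6 : (i : ℝ) + q ≤ (od (n + i) - t) / ρ := by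
      rw [le_div_iff₀ hρ]
      linarith
    linarith
  · set q : ℤ := ⌊-Gf ρ t i + 2 * η⌋ + 1 with hqd
    have k1 : (q : ℝ) ≤ -Gf ρ t i + 2 * η + 1 := by
      rw [hqd]
      push_cast
      have := Int.floor_le (-Gf ρ t i + 2 * η)
      linarith
    have k2 : -Gf ρ t i + 2 * η < q := by
      rw [hqd]
      push_cast
      exact Int.lt_floor_add_one _
    have k3 := abs_le.1 (hq q (by rw [abs_le]; constructor <;> linarith))
    have k4 : ((n + i : ℕ) : ℝ) < NL (t + (i + q) * ρ) := by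
      rw [hkey]
      push_cast
      linarith [k3.1]
    have k5 : od (n + i) < t + (i + q) * ρ := by
      rw [od_lt]
      exact_mod_cast k4
    have k6 : (od (n + i) - t) / ρ ≤ (i : ℝ) + q := by
      rw [div_le_iff₀ hρ]
      linarith
    linarith

end Pool.Agent.W2helper67.RL
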