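import Pool.Agent.W2helper67.RL.Yy

set_option autoImplicit false

/-! # No linear recurrence for the ordinates -/

namespace Pool.Agent.W2helper67.RL

open Filter Topology
open Pool.Agent.W2helper93.NV
open Pool.Agent.X112.GS (Anti Lln Tight inc no_rec card_shift)

/-- closeness of two normalisations of the gaps -/
lemma close_N (ε1 θ : ℝ) (hε1 : 0 < ε1) (hθ : 0 < θ) : ∀ᶠ N : ℕ in atTop,
    (((Finset.Icc 1 N).filter (fun n => ε1 < |(od (n + 1) - od n) * Real.log N / (2 * Real.pi) -
      inc yy n|)).card : ℝ) ≤ θ * N := by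
  classical
  obtain ⟨K, hK, hT⟩ := tight (θ / 2) (by positivity)
  obtain ⟨Cu, Tu, hCu, hTu, hup⟩ := NL_up
  obtain ⟨Tl, hTl, hlow⟩ := NT_low
  obtain ⟨δ, hδ⟩ : ∃ δ : ℝ, δ = min (1 / 2) (ε1 / (2 * K)) := ⟨_, rfl⟩
  have hδ0 : 0 < δ := by rw [hδ]; positivity
  have hδ1 : δ ≤ 1 / 2 := by rw [hδ]; exact min_le_left _ _
  have hδ2 : 2 * (δ * K) ≤ ε1 := by
    have : δ ≤ ε1 / (2 * K) := by rw [hδ]; exact min_le_right _ _
    rw [le_div_iff₀ (by positivity)] at this
    linarith
  -- thresholds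
  have e1 : ∀ᶠ x : ℝ in atTop, Cu * Real.log x ≤ θ / 2 * x ^ δ := by
    have h1 : (fun T : ℝ => Cu * Real.log T) =o[atTop] fun T : ℝ => T ^ δ :=
      (isLittleO_log_rpow_atTop hδ0).const_mul_left _
    have h2 := h1.bound (c := θ / 2) (by positivity)
    filter_upwards [h2, eventually_ge_atTop 1] with T hT hT1
    rw [Real.norm_of_nonneg (by positivity : (0 : ℝ) ≤ T ^ δ)] at hT
    exact (le_abs_self _).trans hT
  have e2 : ∀ᶠ x : ℝ in atTop, Tu ≤ x ^ (1 - δ) :=
    (tendsto_rpow_atTop (by linarith)).eventually_ge_atTop Tu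
  have e3 := Real.tendsto_log_atTop.eventually_ge_atTop 20
  have e4 : ∀ᶠ x : ℝ in atTop, Tl + 1 ≤ x := eventually_ge_atTop _
  have e5 : ∀ᶠ x : ℝ in atTop, 10 ≤ x := eventually_ge_atTop _
  have hall := tendsto_natCast_atTop_atTop.eventually ((((e1.and e2).and e3).and e4).and e5)
  filter_upwards [hT, hall] with N hN hN2
  obtain ⟨⟨⟨⟨a1, a2⟩, a3⟩, a4⟩, a5⟩ := hN2
  have hN0 : (0 : ℝ) < N := by linarith
  have hpi := Real.pi_pos
  -- the low part
  have hlowc : (NL ((N : ℝ) ^ (1 - δ)) : ℝ) ≤ θ / 2 * N := by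
    have h1 := hup _ a2
    have h2 : Real.log ((N : ℝ) ^ (1 - δ)) ≤ Real.log N := by
      rw [Real.log_rpow hN0]
      have : (1 - δ) * Real.log N ≤ 1 * Real.log N :=
        mul_le_mul_of_nonneg_right (by linarith) (by linarith)
      linarith
    have h3 : 0 < (N : ℝ) ^ (1 - δ) := Real.rpow_pos_of_pos hN0 _
    calc (NL ((N : ℝ) ^ (1 - δ)) : ℝ) ≤ Cu * ((N : ℝ) ^ (1 - δ) * Real.log ((N : ℝ) ^ (1 - δ))) := h1
      _ ≤ Cu * ((N : ℝ) ^ (1 - δ) * Real.log N) := by gcongr
      _ = (N : ℝ) ^ (1 - δ) * (Cu * Real.log N) := by ring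
      _ ≤ (N : ℝ) ^ (1 - δ) * (θ / 2 * (N : ℝ) ^ δ) := mul_le_mul_of_nonneg_left a1 h3.le
      _ = θ / 2 * ((N : ℝ) ^ (1 - δ) * (N : ℝ) ^ δ) := by ring
      _ = θ / 2 * N := by
          rw [← Real.rpow_add hN0, sub_add_cancel, Real.rpow_one]
  -- the upper bound for the ordinates
  have hhigh : N + 1 < NL (N : ℝ) := by
    have h1 := hlow ((N : ℝ) - 1) (by linarith)
    have h2 : NT ((N : ℝ) - 1) ≤ NL (N : ℝ) := NT_le_NL (by linarith)
    have h3 : Real.log N / 2 ≤ Real.log ((N : ℝ) - 1) := by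
      have h4 : Real.log N ≤ Real.log (((N : ℝ) - 1) ^ 2) :=
        Real.log_le_log hN0 (by nlinarith)
      rw [Real.log_pow] at h4
      push_cast at h4
      linarith
    have h5 : (10 : ℝ) ≤ Real.log ((N : ℝ) - 1) := by linarith
    have h6 : (N : ℝ) + 1 < NL (N : ℝ) := by
      have h7 : (NT ((N : ℝ) - 1) : ℝ) ≤ NL (N : ℝ) := by exact_mod_cast h2
      nlinarith
    exact_mod_cast h6
  have hsub : (Finset.Icc 1 N).filter (fun n => ε1 < |(od (n + 1) - od n) * Real.log N /
      (2 * Real.pi) - inc yy n|) ⊆ (Finset.Icc 1 N).filter (fun n => K < |inc yy n|) ∪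
        Finset.range (NL ((N : ℝ) ^ (1 - δ))) := by
    intro n hn
    rw [Finset.mem_filter] at hn
    rw [Finset.mem_union, Finset.mem_filter, Finset.mem_range]
    by_contra hcon
    push Not at hcon
    obtain ⟨c1, c2⟩ := hcon
    have c3 := c1 hn.1
    have hnN := (Finset.mem_Icc.1 hn.1).2
    have h1 : (N : ℝ) ^ (1 - δ) ≤ od n := (le_od n _).2 c2
    have h2 : od (n + 1) < N := (od_lt (n + 1) _).2 (by omega)
    have h3 : od n ≤ od (n + 1) := od_mono (by omega)
    have h4 : 0 < (N : ℝ) ^ (1 - δ) := Real.rpow_pos_of_pos hN0 _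
    have ha0 : 0 < od n := by linarith
    have hla : (1 - δ) * Real.log N ≤ Real.log (od n) := by
      rw [← Real.log_rpow hN0]
      exact Real.log_le_log h4 h1
    have hlb : Real.log (od (n + 1)) ≤ Real.log N := Real.log_le_log (by linarith) h2.le
    have p1 := Phi_low ha0 h3
    have p2 := Phi_up ha0 h3
    have hinc : inc yy n = Phi (od (n + 1)) - Phi (od n) := rfl
    rw [← hinc] at p1 p2
    set g := (od (n + 1) - od n) * Real.log N / (2 * Real.pi) with hg
    have hd : 0 ≤ od (n + 1) - od n := by linarith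
    have q1 : (1 - δ) * g ≤ inc yy n := by
      refine le_trans ?_ p1
      rw [hg, ← mul_div_assoc]
      apply div_le_div_of_nonneg_right _ (by positivity)
      have := mul_le_mul_of_nonneg_left hla hd
      linarith
    have q2 : inc yy n ≤ g := by
      refine p2.trans ?_
      rw [hg]
      apply div_le_div_of_nonneg_right _ (by positivity)
      exact mul_le_mul_of_nonneg_left hlb hd
    have hg0 : 0 ≤ g := by
      rw [hg]
      have : 0 ≤ Real.log N := by linarith
      positivity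
    have q3 : inc yy n ≤ K := (le_abs_self _).trans c3
    have q4 : g ≤ 2 * K := by nlinarith
    have q5 : |g - inc yy n| ≤ ε1 := by
      rw [abs_of_nonneg (by linarith)]
      nlinarith
    linarith [hn.2]
  have h1 := Finset.card_le_card hsub
  have h2 := Finset.card_union_le ((Finset.Icc 1 N).filter (fun n => K < |inc yy n|))
    (Finset.range (NL ((N : ℝ) ^ (1 - δ))))
  rw [Finset.card_range] at h2
  have h3 : ((((Finset.Icc 1 N).filter (fun n => ε1 < |(od (n + 1) - od n) * Real.log N /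
      (2 * Real.pi) - inc yy n|)).card : ℕ) : ℝ) ≤
      ((((Finset.Icc 1 N).filter (fun n => K < |inc yy n|)).card +
        NL ((N : ℝ) ^ (1 - δ)) : ℕ) : ℝ) := by
    exact_mod_cast h1.trans h2
  push_cast at h3
  linarith

open Classical in
/-- **no approximate linear recurrence on almost all windows** -/
theorem norec (k d : ℕ) (θ : ℝ) (hθ : 0 < θ) : ∃ (B : ℕ) (ε : ℝ), 0 < ε ∧
    ∀ᶠ N : ℕ in atTop, (((Finset.Icc 1 N).filter (fun n => ∃ (c : ℕ → ℝ) (P : Polynomial ℝ),
      (∃ j ≤ k, 1 ≤ |c j|) ∧ P.natDegree ≤ d ∧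
      ∀ i < B, |∑ j ∈ Finset.range (k + 1), c j * od (n + i + j) - P.eval (i : ℝ)| ≤
        ε / Real.log N)).card : ℝ) ≤ θ * N := by
  obtain ⟨B, ε, hε, h⟩ := no_rec anti lln tight k d (θ / 2) (by positivity)
  refine ⟨B + 1, ε, hε, ?_⟩
  obtain ⟨ε1, hε1d⟩ : ∃ ε1 : ℝ, ε1 = ε / (4 * (k + 1)) := ⟨_, rfl⟩
  have hε1 : 0 < ε1 := by rw [hε1d]; positivity
  obtain ⟨J, hJ⟩ : ∃ J : ℕ, J = B + k + 1 := ⟨_, rfl⟩
  have hJ0 : (0 : ℝ) < J := by rw [hJ]; positivity
  have hbig : ∀ᶠ N : ℕ in atTop, ((∑ f ∈ Finset.range J, f : ℕ) : ℝ) ≤ θ / 4 * N :=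
    (tendsto_natCast_atTop_atTop.const_mul_atTop (show (0 : ℝ) < θ / 4 by positivity)).eventually_ge_atTop _
  filter_upwards [h, close_N ε1 (θ / (4 * J)) hε1 (by positivity), hbig,
    eventually_ge_atTop 3] with N hN hcl hb hN3
  have hN3' : (3 : ℝ) ≤ N := by exact_mod_cast hN3
  have hlogN : 0 < Real.log N := Real.log_pos (by linarith)
  have hpi := Real.pi_gt_three
  -- the exceptional places
  set far : ℕ → Prop := fun m => ε1 < |(od (m + 1) - od m) * Real.log N / (2 * Real.pi) -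
    inc yy m| with hfar
  have hX : (((Finset.Icc 1 N).filter (fun n => ∃ f ∈ Finset.range J, far (n + f))).card : ℝ) ≤
      θ / 2 * N := by
    have h1 : (Finset.Icc 1 N).filter (fun n => ∃ f ∈ Finset.range J, far (n + f)) ⊆
        (Finset.range J).biUnion (fun f => (Finset.Icc 1 N).filter (fun n => far (n + f))) := by
      intro n hn
      rw [Finset.mem_filter] at hn
      obtain ⟨f, hf, h2⟩ := hn.2
      rw [Finset.mem_biUnion]
      exact ⟨f, hf, Finset.mem_filter.mpr ⟨hn.1, h2⟩⟩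
    have h2 := (Finset.card_le_card h1).trans Finset.card_biUnion_le
    have h3 : ∑ f ∈ Finset.range J, ((Finset.Icc 1 N).filter (fun n => far (n + f))).card ≤
        ∑ f ∈ Finset.range J, (((Finset.Icc 1 N).filter (fun n => far n)).card + f) :=
      Finset.sum_le_sum fun f _ => card_shift (fun n => far n) N f
    rw [Finset.sum_add_distrib, Finset.sum_const, Finset.card_range, smul_eq_mul] at h3
    have h4 : (((Finset.Icc 1 N).filter (fun n => ∃ f ∈ Finset.range J, far (n + f))).card : ℝ) ≤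
        J * ((Finset.Icc 1 N).filter (fun n => far n)).card + ((∑ f ∈ Finset.range J, f : ℕ) : ℝ) := by
      exact_mod_cast h2.trans h3
    have h5 : (J : ℝ) * ((Finset.Icc 1 N).filter (fun n => far n)).card ≤
        J * (θ / (4 * J) * N) := mul_le_mul_of_nonneg_left hcl hJ0.le
    have h6 : (J : ℝ) * (θ / (4 * J) * N) = θ / 4 * N := by field_simp
    linarith
  -- the inclusion
  have hsub : (Finset.Icc 1 N).filter (fun n => ∃ (c : ℕ → ℝ) (P : Polynomial ℝ),
      (∃ j ≤ k, 1 ≤ |c j|) ∧ P.natDegree ≤ d ∧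
      ∀ i < B + 1, |∑ j ∈ Finset.range (k + 1), c j * od (n + i + j) - P.eval (i : ℝ)| ≤
        ε / Real.log N) ⊆
      (Finset.Icc 1 N).filter (fun n => ∃ (c : ℕ → ℝ) (P : Polynomial ℝ), (∀ j ≤ k, |c j| ≤ 1) ∧
        (∃ j ≤ k, |c j| = 1) ∧ P.natDegree ≤ d ∧
        ∀ i < B, |∑ j ∈ Finset.range (k + 1), c j * inc yy (n + i + j) - P.eval (i : ℝ)| ≤ ε) ∪
      (Finset.Icc 1 N).filter (fun n => ∃ f ∈ Finset.range J, far (n + f)) := by
    intro n hn
    rw [Finset.mem_filter] at hn
    obtain ⟨hn1, c, P, ⟨j1, hj1, hcj1⟩, hPd, hrel⟩ := hn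
    rw [Finset.mem_union]
    by_cases hf : ∃ f ∈ Finset.range J, far (n + f)
    · right; exact Finset.mem_filter.2 ⟨hn1, hf⟩
    left
    push Not at hf
    rw [Finset.mem_filter]
    refine ⟨hn1, ?_⟩
    obtain ⟨j0, hj0, hmax⟩ := Finset.exists_max_image (Finset.range (k + 1)) (fun j => |c j|)
      ⟨0, Finset.mem_range.2 (by omega)⟩
    obtain ⟨μ, hμ⟩ : ∃ μ : ℝ, μ = |c j0| := ⟨_, rfl⟩
    have hμ1 : 1 ≤ μ := by
      rw [hμ]
      exact hcj1.trans (hmax j1 (Finset.mem_range.2 (by omega)))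
    have hμ0 : 0 < μ := by linarith
    obtain ⟨w, hw⟩ : ∃ w : ℝ, w = Real.log N / (2 * Real.pi) := ⟨_, rfl⟩
    have hw0 : 0 < w := by rw [hw]; positivity
    refine ⟨fun j => c j / μ, Polynomial.C (w / μ) * (P.comp (Polynomial.X + Polynomial.C 1) - P),
      ?_, ⟨j0, by rw [Finset.mem_range] at hj0; omega, ?_⟩, ?_, ?_⟩
    · intro j hj
      rw [abs_div, abs_of_pos hμ0, div_le_one hμ0, hμ]
      exact hmax j (Finset.mem_range.2 (by omega))
    · rw [abs_div, abs_of_pos hμ0, ← hμ, div_self hμ0.ne']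
    · refine (Polynomial.natDegree_C_mul_le _ _).trans ((Polynomial.natDegree_sub_le _ _).trans ?_)
      rw [Polynomial.natDegree_comp, Polynomial.natDegree_X_add_C, mul_one, max_self]
      exact hPd
    · intro i hi
      rw [Polynomial.eval_mul, Polynomial.eval_C, Polynomial.eval_sub, Polynomial.eval_comp,
        Polynomial.eval_add, Polynomial.eval_X, Polynomial.eval_C]
      have r1 := hrel i (by omega)
      have r2 := hrel (i + 1) (by omega)
      push_cast at r2
      set S1 := ∑ j ∈ Finset.range (k + 1), c j * od (n + i + j) with hS1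
      set S2 := ∑ j ∈ Finset.range (k + 1), c j * od (n + (i + 1) + j) with hS2
      have hD : ∑ j ∈ Finset.range (k + 1), c j * ((od (n + i + j + 1) - od (n + i + j)) *
          Real.log N / (2 * Real.pi)) = w * (S2 - S1) := by
        rw [hS1, hS2, ← Finset.sum_sub_distrib, Finset.mul_sum]
        refine Finset.sum_congr rfl fun j _ => ?_
        have e : n + (i + 1) + j = n + i + j + 1 := by omega
        rw [e, hw]
        ring
      have hE : |∑ j ∈ Finset.range (k + 1), c j * inc yy (n + i + j) - w * (S2 - S1)| ≤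
          μ * (ε / 4) := by
        rw [← hD, ← Finset.sum_sub_distrib]
        refine (Finset.abs_sum_le_sum_abs _ _).trans ?_
        have k1 : ∀ j ∈ Finset.range (k + 1), |c j * inc yy (n + i + j) -
            c j * ((od (n + i + j + 1) - od (n + i + j)) * Real.log N / (2 * Real.pi))| ≤ μ * ε1 := by
          intro j hj
          rw [← mul_sub, abs_mul]
          have k2 := hf (i + j) (by
            rw [Finset.mem_range] at hj ⊢
            omega)
          simp only [hfar] at k2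
          push Not at k2
          rw [← add_assoc, abs_sub_comm] at k2
          exact mul_le_mul (by rw [hμ]; exact hmax j hj) k2 (abs_nonneg _) hμ0.le
        refine (Finset.sum_le_sum k1).trans (le_of_eq ?_)
        rw [Finset.sum_const, Finset.card_range, nsmul_eq_mul, hε1d]
        push_cast
        field_simp
      have hF : |w * (S2 - S1) - w * (P.eval ((i : ℝ) + 1) - P.eval (i : ℝ))| ≤ ε / 3 := by
        rw [← mul_sub, abs_mul, abs_of_pos hw0]
        have k1 : |S2 - S1 - (P.eval ((i : ℝ) + 1) - P.eval (i : ℝ))| ≤ 2 * (ε / Real.log N) := by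
          have e : S2 - S1 - (P.eval ((i : ℝ) + 1) - P.eval (i : ℝ)) =
              (S2 - P.eval ((i : ℝ) + 1)) - (S1 - P.eval (i : ℝ)) := by ring
          rw [e]
          refine (abs_sub _ _).trans ?_
          linarith
        calc w * |S2 - S1 - (P.eval ((i : ℝ) + 1) - P.eval (i : ℝ))| ≤
            w * (2 * (ε / Real.log N)) := mul_le_mul_of_nonneg_left k1 hw0.le
          _ = ε / Real.pi := by rw [hw]; field_simp
          _ ≤ ε / 3 := div_le_div_of_nonneg_left hε.le (by norm_num) hpi.le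
      have e : ∑ j ∈ Finset.range (k + 1), c j / μ * inc yy (n + i + j) -
          w / μ * (P.eval ((i : ℝ) + 1) - P.eval (i : ℝ)) =
          ((∑ j ∈ Finset.range (k + 1), c j * inc yy (n + i + j) - w * (S2 - S1)) +
          (w * (S2 - S1) - w * (P.eval ((i : ℝ) + 1) - P.eval (i : ℝ)))) / μ := by
        have e2 : ∑ j ∈ Finset.range (k + 1), c j / μ * inc yy (n + i + j) =
            (∑ j ∈ Finset.range (k + 1), c j * inc yy (n + i + j)) / μ := by
          rw [Finset.sum_div]
          refine Finset.sum_congr rfl fun j _ => by ring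
        rw [e2]
        ring
      rw [e, abs_div, abs_of_pos hμ0, div_le_iff₀ hμ0]
      refine (abs_add_le _ _).trans ?_
      nlinarith
  have h1 := Finset.card_le_card hsub
  have h2 := h1.trans (Finset.card_union_le _ _)
  have h3 := (Nat.cast_le (α := ℝ)).2 h2
  rw [Nat.cast_add] at h3
  refine h3.trans ?_
  have h4 := add_le_add hN hX
  refine h4.trans (le_of_eq ?_)
  ring

end Pool.Agent.W2helper67.RL
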