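import Mathlib

set_option autoImplicit false

/-! # The logarithmic quadratic form at separated points -/

namespace Pool.Agent.W2helper67.RL

open MeasureTheory Filter Topology

/-- the function `(1 - cos u) / u` -/
noncomputable def ph (u : ℝ) : ℝ := (1 - Real.cos u) / u

lemma ph_meas : Measurable ph := by
  unfold ph
  fun_prop

lemma osc (u : ℝ) : 1 - Real.cos u ≤ u ^ 2 / 2 := by
  have := Real.one_sub_sq_div_two_le_cos (x := u)
  linarith

lemma ph_abs (u : ℝ) : |ph u| ≤ 1 := by
  unfold ph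
  rcases eq_or_ne u 0 with rfl | h
  · simp
  rw [abs_div, div_le_one (abs_pos.2 h), abs_of_nonneg (by linarith [Real.cos_le_one u])]
  rcases le_or_gt |u| 2 with h2 | h2
  · have h1 := osc u
    rw [← sq_abs] at h1
    nlinarith [abs_nonneg u]
  · linarith [Real.neg_one_le_cos u]

lemma ph_ii (a b : ℝ) : IntervalIntegrable ph volume a b := by
  rw [intervalIntegrable_iff]
  refine Measure.integrableOn_of_bounded (M := 1) ?_ ph_meas.aestronglyMeasurable ?_
  · rw [Set.uIoc]
    exact measure_Ioc_lt_top.ne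
  · exact Eventually.of_forall fun t => by rw [Real.norm_eq_abs]; exact ph_abs t

/-- the cosine integral -/
noncomputable def Cin (v : ℝ) : ℝ := ∫ x in (0 : ℝ)..1, (1 - Real.cos (x * v)) / x

lemma Cin_eq {v : ℝ} : Cin v = ∫ u in (0 : ℝ)..v, ph u := by
  rcases eq_or_ne v 0 with rfl | hv
  · unfold Cin
    simp
  have h := intervalIntegral.mul_integral_comp_mul_left (a := 0) (b := 1) (f := ph) (c := v)
  rw [mul_zero, mul_one] at h
  rw [← h]
  unfold Cin
  rw [← intervalIntegral.integral_const_mul]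
  refine intervalIntegral.integral_congr fun x _ => ?_
  show (1 - Real.cos (x * v)) / x = v * ph (v * x)
  unfold ph
  rcases eq_or_ne x 0 with rfl | hx
  · simp
  rw [mul_comm v x]
  field_simp

lemma sin_int {v : ℝ} (hv : 1 ≤ v) : |∫ u in (1 : ℝ)..v, Real.sin u / u ^ 2| ≤ 1 := by
  have hc : ∀ u ∈ Set.uIcc 1 v, HasDerivAt (fun u : ℝ => -u⁻¹) (1 / u ^ 2) u := by
    intro u hu
    rw [Set.uIcc_of_le hv] at hu
    have hu0 : u ≠ 0 := by linarith [hu.1]
    have := (hasDerivAt_inv hu0).neg
    refine this.congr_deriv ?_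
    field_simp
  have hci : IntervalIntegrable (fun u : ℝ => 1 / u ^ 2) volume 1 v := by
    apply ContinuousOn.intervalIntegrable
    intro u hu
    rw [Set.uIcc_of_le hv] at hu
    have hu0 : u ≠ 0 := by linarith [hu.1]
    exact (ContinuousAt.div continuousAt_const (continuousAt_id.pow 2)
      (pow_ne_zero 2 hu0)).continuousWithinAt
  have h2 := intervalIntegral.integral_eq_sub_of_hasDerivAt hc hci
  have h3 : |∫ u in (1 : ℝ)..v, Real.sin u / u ^ 2| ≤ ∫ u in (1 : ℝ)..v, 1 / u ^ 2 := by
    rw [← Real.norm_eq_abs]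
    refine intervalIntegral.norm_integral_le_of_norm_le hv (ae_of_all _ fun u hu => ?_) hci
    rw [Real.norm_eq_abs, abs_div, abs_of_nonneg (sq_nonneg u)]
    have hu0 : 0 < u := by linarith [hu.1]
    gcongr
    exact Real.abs_sin_le_one u
  rw [h2] at h3
  have : 0 < v⁻¹ := by positivity
  simp only [inv_one] at h3
  linarith

lemma Cin_log {v : ℝ} (hv : 1 ≤ v) : |Cin v - Real.log v| ≤ 4 := by
  rw [Cin_eq]
  have h1 : ∫ u in (0 : ℝ)..v, ph u = (∫ u in (0 : ℝ)..1, ph u) + ∫ u in (1 : ℝ)..v, ph u :=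
    (intervalIntegral.integral_add_adjacent_intervals (ph_ii _ _) (ph_ii _ _)).symm
  have h2 : |∫ u in (0 : ℝ)..1, ph u| ≤ 1 := by
    have := intervalIntegral.norm_integral_le_of_norm_le_const (a := (0 : ℝ)) (b := 1) (f := ph)
      (C := 1) (fun x _ => by rw [Real.norm_eq_abs]; exact ph_abs x)
    simpa using this
  have hd : ∀ u ∈ Set.uIcc 1 v, HasDerivAt (fun u => Real.log u - Real.sin u / u)
      (ph u + Real.sin u / u ^ 2) u := by
    intro u hu
    rw [Set.uIcc_of_le hv] at hu
    have hu0 : u ≠ 0 := by linarith [hu.1]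
    have h := (Real.hasDerivAt_log hu0).sub ((Real.hasDerivAt_sin u).div (hasDerivAt_id u) hu0)
    refine h.congr_deriv ?_
    simp only [id, mul_one]
    unfold ph
    field_simp
    ring
  have hsi : IntervalIntegrable (fun u => Real.sin u / u ^ 2) volume 1 v := by
    apply ContinuousOn.intervalIntegrable
    intro u hu
    rw [Set.uIcc_of_le hv] at hu
    have hu0 : u ≠ 0 := by linarith [hu.1]
    exact (ContinuousAt.div Real.continuous_sin.continuousAt (continuousAt_id.pow 2)
      (pow_ne_zero 2 hu0)).continuousWithinAt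
  have h3 := intervalIntegral.integral_eq_sub_of_hasDerivAt hd ((ph_ii 1 v).add hsi)
  rw [intervalIntegral.integral_add (ph_ii 1 v) hsi] at h3
  have h4 := sin_int hv
  have h5 : |Real.sin v / v| ≤ 1 := by
    rw [abs_div, abs_of_pos (by linarith : 0 < v), div_le_one (by linarith)]
    exact (Real.abs_sin_le_one v).trans hv
  have h6 : |Real.sin 1| ≤ 1 := Real.abs_sin_le_one 1
  rw [h1]
  simp only [Real.log_one, div_one] at h3
  have e : (∫ u in (0 : ℝ)..1, ph u) + (∫ u in (1 : ℝ)..v, ph u) - Real.log v =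
      (∫ u in (0 : ℝ)..1, ph u) - (∫ u in (1 : ℝ)..v, Real.sin u / u ^ 2) - Real.sin v / v +
        Real.sin 1 := by linarith
  rw [e]
  have := abs_le.1 h2
  have := abs_le.1 h4
  have := abs_le.1 h5
  have := abs_le.1 h6
  rw [abs_le]
  constructor <;> linarith

lemma Cin_neg (v : ℝ) : Cin (-v) = Cin v := by
  unfold Cin
  refine intervalIntegral.integral_congr fun x _ => ?_
  show (1 - Real.cos (x * -v)) / x = (1 - Real.cos (x * v)) / x
  rw [mul_neg, Real.cos_neg]

lemma Cin_abs (v : ℝ) : Cin |v| = Cin v := by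
  rcases abs_choice v with h | h <;> rw [h]
  exact Cin_neg v

lemma Cin_zero : Cin 0 = 0 := by
  unfold Cin
  simp

lemma Cin_ii (v : ℝ) : IntervalIntegrable (fun x => (1 - Real.cos (x * v)) / x) volume 0 1 := by
  rw [intervalIntegrable_iff]
  refine Measure.integrableOn_of_bounded (M := |v|) ?_ ?_ ?_
  · rw [Set.uIoc]
    exact measure_Ioc_lt_top.ne
  · exact Measurable.aestronglyMeasurable (by fun_prop)
  · refine Eventually.of_forall fun x => ?_
    rw [Real.norm_eq_abs]
    rcases eq_or_ne v 0 with rfl | hv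
    · simp
    rcases eq_or_ne x 0 with rfl | hx
    · simp
    have e : (1 - Real.cos (x * v)) / x = v * ph (x * v) := by
      unfold ph
      field_simp
    rw [e, abs_mul]
    calc |v| * |ph (x * v)| ≤ |v| * 1 := mul_le_mul_of_nonneg_left (ph_abs _) (abs_nonneg v)
      _ = |v| := mul_one _

variable {ι : Type} [Fintype ι]

/-- positivity -/
lemma cos_form (c θ : ι → ℝ) (hc : ∑ i, c i = 0) :
    ∑ i, ∑ j, c i * c j * (1 - Real.cos (θ i - θ j)) =
      -((∑ i, c i * Real.cos (θ i)) ^ 2 + (∑ i, c i * Real.sin (θ i)) ^ 2) := by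
  have h1 : ∑ i, ∑ j, c i * c j = 0 := by
    rw [← Finset.sum_mul_sum, hc, zero_mul]
  have h2 : (∑ i, c i * Real.cos (θ i)) ^ 2 + (∑ i, c i * Real.sin (θ i)) ^ 2 =
      ∑ i, ∑ j, c i * c j * Real.cos (θ i - θ j) := by
    rw [sq, sq, Finset.sum_mul_sum, Finset.sum_mul_sum, ← Finset.sum_add_distrib]
    refine Finset.sum_congr rfl fun i _ => ?_
    rw [← Finset.sum_add_distrib]
    refine Finset.sum_congr rfl fun j _ => ?_
    rw [Real.cos_sub]
    ring
  rw [h2, ← sub_eq_zero, sub_neg_eq_add, ← h1, ← Finset.sum_add_distrib]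
  refine Finset.sum_congr rfl fun i _ => ?_
  rw [← Finset.sum_add_distrib]
  refine Finset.sum_congr rfl fun j _ => ?_
  ring

lemma Cin_form (c y : ι → ℝ) (hc : ∑ i, c i = 0) :
    ∑ i, ∑ j, c i * c j * Cin (y i - y j) ≤ 0 := by
  have h1 : ∑ i, ∑ j, c i * c j * Cin (y i - y j) =
      ∫ x in (0 : ℝ)..1, ∑ i, ∑ j, c i * c j * ((1 - Real.cos (x * (y i - y j))) / x) := by
    rw [intervalIntegral.integral_finsetSum fun i _ => by
      have : (fun x : ℝ => ∑ j, c i * c j * ((1 - Real.cos (x * (y i - y j))) / x)) =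
        ∑ j, fun x : ℝ => c i * c j * ((1 - Real.cos (x * (y i - y j))) / x) := by
          funext x; simp
      rw [this]
      exact IntervalIntegrable.sum _ fun j _ => (Cin_ii _).const_mul _]
    refine Finset.sum_congr rfl fun i _ => ?_
    rw [intervalIntegral.integral_finsetSum fun j _ => (Cin_ii _).const_mul _]
    refine Finset.sum_congr rfl fun j _ => ?_
    rw [intervalIntegral.integral_const_mul]
    rfl
  rw [h1]
  have h2 : 0 ≤ ∫ x in (0 : ℝ)..1, -(∑ i, ∑ j, c i * c j * ((1 - Real.cos (x * (y i - y j))) / x)) := by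
    refine intervalIntegral.integral_nonneg zero_le_one fun x hx => ?_
    have h3 := cos_form c (fun i => x * y i) hc
    have h4 : ∑ i, ∑ j, c i * c j * ((1 - Real.cos (x * (y i - y j))) / x) =
        (∑ i, ∑ j, c i * c j * (1 - Real.cos (x * y i - x * y j))) / x := by
      rw [Finset.sum_div]
      refine Finset.sum_congr rfl fun i _ => ?_
      rw [Finset.sum_div]
      refine Finset.sum_congr rfl fun j _ => ?_
      rw [mul_sub]
      ring
    rw [h4, h3, neg_div, neg_neg]
    have := hx.1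
    positivity
  rw [intervalIntegral.integral_neg] at h2
  linarith

/-- the lower bound of the logarithmic form -/
theorem quad (c y : ι → ℝ) (hc : ∑ i, c i = 0) (hy : ∀ i j, i ≠ j → 1 ≤ |y i - y j|) :
    -(4 * (∑ i, |c i|) ^ 2) ≤ -∑ i, ∑ j, c i * c j * Real.log |y i - y j| := by
  have h1 := Cin_form c y hc
  have h2 : |∑ i, ∑ j, c i * c j * (Cin (y i - y j) - Real.log |y i - y j|)| ≤
      4 * (∑ i, |c i|) ^ 2 := by
    refine (Finset.abs_sum_le_sum_abs _ _).trans ?_
    rw [sq, Finset.sum_mul_sum, Finset.mul_sum]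
    refine Finset.sum_le_sum fun i _ => ?_
    refine (Finset.abs_sum_le_sum_abs _ _).trans ?_
    rw [Finset.mul_sum]
    refine Finset.sum_le_sum fun j _ => ?_
    rw [abs_mul, abs_mul]
    have h3 : |(Cin (y i - y j) - Real.log (|y i - y j|))| ≤ 4 := by
      by_cases hij : i = j
      · subst hij
        rw [sub_self, abs_zero, Real.log_zero, Cin_zero]
        norm_num
      · rw [← Cin_abs]
        exact Cin_log (hy i j hij)
    refine (mul_le_mul_of_nonneg_left h3 (by positivity)).trans (le_of_eq ?_)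
    ring
  have h3 : ∑ i, ∑ j, c i * c j * (Cin (y i - y j) - Real.log |y i - y j|) =
      ∑ i, ∑ j, c i * c j * Cin (y i - y j) - ∑ i, ∑ j, c i * c j * Real.log |y i - y j| := by
    rw [← Finset.sum_sub_distrib]
    refine Finset.sum_congr rfl fun i _ => ?_
    rw [← Finset.sum_sub_distrib]
    refine Finset.sum_congr rfl fun j _ => ?_
    ring
  rw [h3] at h2
  have := abs_le.1 h2
  linarith

/-- the form at integer points of mutual distance at least `r` -/
theorem quad_int (c : ι → ℝ) (x : ι → ℤ) (r : ℝ) (hr : 1 ≤ r) (hc : ∑ i, c i = 0)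
    (hx : ∀ i j, i ≠ j → r ≤ |((x i : ℝ) - x j)|) :
    Real.log r * (∑ i, c i ^ 2) - 4 * (∑ i, |c i|) ^ 2 ≤
      -∑ i, ∑ j, c i * c j * Real.log |(x i : ℝ) - x j| := by
  classical
  have hr0 : 0 < r := by linarith
  have h1 := quad c (fun i => (x i : ℝ) / r) hc (fun i j hij => by
    rw [← sub_div, abs_div, abs_of_pos hr0, le_div_iff₀ hr0, one_mul]
    exact hx i j hij)
  have h2 : ∀ i j, c i * c j * Real.log |(x i : ℝ) - x j| =
      c i * c j * Real.log |(x i : ℝ) / r - x j / r| + (c i * c j) * Real.log r -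
        (if i = j then c i * c j * Real.log r else 0) := by
    intro i j
    by_cases hij : i = j
    · subst hij
      simp
    · rw [if_neg hij, ← sub_div, abs_div, abs_of_pos hr0, Real.log_div _ hr0.ne']
      · ring
      · have := hx i j hij
        linarith
  have h3 : ∑ i, ∑ j, c i * c j * Real.log |(x i : ℝ) - x j| =
      ∑ i, ∑ j, c i * c j * Real.log |(x i : ℝ) / r - x j / r| - Real.log r * ∑ i, c i ^ 2 := by
    simp_rw [h2]
    simp_rw [Finset.sum_sub_distrib, Finset.sum_add_distrib]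
    have h4 : ∑ i, ∑ j, c i * c j * Real.log r = 0 := by
      simp_rw [← Finset.sum_mul]
      rw [← Finset.sum_mul_sum, hc]
      ring
    have h5 : ∑ i, ∑ j, (if i = j then c i * c j * Real.log r else 0) = Real.log r * ∑ i, c i ^ 2 := by
      rw [Finset.mul_sum]
      refine Finset.sum_congr rfl fun i _ => ?_
      rw [Finset.sum_ite_eq]
      simp
      ring
    rw [h4, h5]
    ring
  rw [h3]
  linarith

end Pool.Agent.W2helper67.RL
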