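import Pool.Agent.TH850.UV.KapS
import Pool.Agent.Y743.CL.Pp
import Pool.Agent.Y743.CL.Mc
import Pool.Agent.W2helper67.RL.Quad

set_option autoImplicit false

/-! # The variance of linear forms in the counts -/

namespace Pool.Agent.W2helper67.RL

open Complex Filter Topology MeasureTheory Set
open Pool.Agent.TH850.UV
open ArithmeticFunction (vonMangoldt)
open H370.A2 (lamC lamC_norm)
open Pool.Agent.Y743.CL (Pr mem_Pr)

variable {ι : Type} [Fintype ι]

/-- the coefficients of a linear form -/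
noncomputable def kc (l : ℝ) (c h : ι → ℝ) (n : ℕ) : ℂ := ∑ i, (c i : ℂ) * kap l (h i) n

/-- the common factor -/
noncomputable def kn (l : ℝ) (n : ℕ) : ℂ :=
  ((2 * (1 / Real.sqrt (2 * Real.pi)) : ℝ) * (lamC n * (Real.sqrt n : ℂ)⁻¹ * (ggo l n : ℂ)) *
    ((l / (2 * Real.pi) : ℝ) * (1 / (I * Real.log n))))

lemma kap_fac (l h : ℝ) (n : ℕ) : kap l h n = kn l n * (1 - (n : ℂ) ^ (-(h : ℂ) * I)) := by
  unfold kap kn
  ring

lemma cpow_cs (n : ℕ) (hn : 1 ≤ n) (h : ℝ) : (n : ℂ) ^ (-(h : ℂ) * I) =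
    ((Real.cos (h * Real.log n) : ℝ) : ℂ) - ((Real.sin (h * Real.log n) : ℝ) : ℂ) * I := by
  have hn0 : (n : ℂ) ≠ 0 := by exact_mod_cast (by omega : n ≠ 0)
  rw [Complex.cpow_def_of_ne_zero hn0, ← Complex.natCast_log]
  have e : (Real.log n : ℂ) * (-(h : ℂ) * I) = ((-(h * Real.log n) : ℝ) : ℂ) * I := by
    push_cast; ring
  rw [e, Complex.exp_mul_I, ← Complex.ofReal_cos, ← Complex.ofReal_sin, Real.cos_neg, Real.sin_neg]
  push_cast
  ring

lemma kc_sq (l : ℝ) (c h : ι → ℝ) (hc : ∑ i, c i = 0) (n : ℕ) (hn : 1 ≤ n) :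
    ‖kc l c h n‖ ^ 2 = -(1 / 2) * ∑ i, ∑ j, c i * c j * ‖kap l |h i - h j| n‖ ^ 2 := by
  have h1 : kc l c h n = -(kn l n * (((∑ i, c i * Real.cos (h i * Real.log n) : ℝ) : ℂ) -
      ((∑ i, c i * Real.sin (h i * Real.log n) : ℝ) : ℂ) * I)) := by
    unfold kc
    simp_rw [kap_fac, cpow_cs n hn]
    have e : ∀ i, (c i : ℂ) * (kn l n * (1 - (((Real.cos (h i * Real.log n) : ℝ) : ℂ) -
        ((Real.sin (h i * Real.log n) : ℝ) : ℂ) * I))) = kn l n * (c i : ℂ) -
        kn l n * ((c i : ℂ) * ((Real.cos (h i * Real.log n) : ℝ) : ℂ) -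
          (c i : ℂ) * ((Real.sin (h i * Real.log n) : ℝ) : ℂ) * I) := fun i => by ring
    simp_rw [e]
    rw [Finset.sum_sub_distrib, ← Finset.mul_sum, ← Finset.mul_sum, Finset.sum_sub_distrib,
      ← Finset.sum_mul]
    have hc' : ∑ i, (c i : ℂ) = 0 := by rw [← Complex.ofReal_sum, hc]; rfl
    rw [hc']
    push_cast
    ring
  have h2 : ‖kc l c h n‖ ^ 2 = ‖kn l n‖ ^ 2 * ((∑ i, c i * Real.cos (h i * Real.log n)) ^ 2 +
      (∑ i, c i * Real.sin (h i * Real.log n)) ^ 2) := by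
    rw [h1, norm_neg, norm_mul, mul_pow]
    congr 1
    rw [← Complex.normSq_eq_norm_sq, Complex.normSq_apply]
    simp only [Complex.sub_re, Complex.sub_im, Complex.ofReal_re, Complex.ofReal_im,
      Complex.mul_re, Complex.mul_im, Complex.I_re, Complex.I_im]
    ring
  have h3 : ∀ i j, ‖kap l |h i - h j| n‖ ^ 2 = ‖kn l n‖ ^ 2 * (2 *
      (1 - Real.cos (h i * Real.log n - h j * Real.log n))) := by
    intro i j
    rw [kap_fac, norm_mul, mul_pow, norm_one_sub_cpow n hn]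
    have e0 : Real.cos (|h i - h j| * Real.log n) =
        Real.cos (h i * Real.log n - h j * Real.log n) := by
      rw [← sub_mul]
      rcases abs_choice (h i - h j) with e | e
      · rw [e]
      · rw [e, neg_mul, Real.cos_neg]
    rw [e0]
  rw [h2]
  simp_rw [h3]
  have h4 := cos_form c (fun i => h i * Real.log n) hc
  have h5 : ∑ i, ∑ j, c i * c j * (‖kn l n‖ ^ 2 * (2 * (1 - Real.cos (h i * Real.log n -
      h j * Real.log n)))) = 2 * ‖kn l n‖ ^ 2 * ∑ i, ∑ j, c i * c j *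
      (1 - Real.cos (h i * Real.log n - h j * Real.log n)) := by
    rw [Finset.mul_sum]
    refine Finset.sum_congr rfl fun i _ => ?_
    rw [Finset.mul_sum]
    refine Finset.sum_congr rfl fun j _ => ?_
    ring
  rw [h5, h4]
  ring

lemma kap_zero (l : ℝ) (n : ℕ) : kap l 0 n = 0 := by
  rw [kap_fac]
  simp

/-- the sum over all the frequencies -/
lemma var_all {lam : ℝ} (hlam : 16 ≤ lam) (B : ℝ) (hB : 1 ≤ B) : ∃ C T0 : ℝ, 0 < C ∧ 10 ≤ T0 ∧
    ∀ T : ℝ, T0 ≤ T → ∀ (c : ι → ℝ) (x : ι → ℤ), ∑ i, c i = 0 →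
    (∀ i j, i ≠ j → lam ≤ |(x i : ℝ) - x j|) →
    (∀ i j, |(x i : ℝ) - x j| * Real.log |(x i : ℝ) - x j| ≤ B * Real.log T) →
    |∑ n ∈ Finset.Icc 2 (XT T), ‖kc (Real.log T / lam) c
        (fun i => 2 * Real.pi * x i / Real.log T) n‖ ^ 2 +
      1 / Real.pi ^ 2 * ∑ i, ∑ j, c i * c j * Real.log (|(x i : ℝ) - x j|)| ≤
        C * (∑ i, |c i|) ^ 2 := by
  obtain ⟨C, T0, hC, hT0, hk⟩ := kap_sum hlam B hB
  refine ⟨C, T0, hC, hT0, fun T hT c x hc hx hxB => ?_⟩
  have hT10 : 10 ≤ T := hT0.trans hT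
  have hL0 : 0 < Real.log T := Real.log_pos (by linarith)
  have hpi := Real.pi_pos
  set l := Real.log T / lam with hl
  set h : ι → ℝ := fun i => 2 * Real.pi * x i / Real.log T with hh
  have h1 : ∑ n ∈ Finset.Icc 2 (XT T), ‖kc l c h n‖ ^ 2 =
      -(1 / 2) * ∑ i, ∑ j, c i * c j * ∑ n ∈ Finset.Icc 2 (XT T), ‖kap l |h i - h j| n‖ ^ 2 := by
    rw [Finset.sum_congr rfl fun n hn => kc_sq l c h hc n (by
      have := (Finset.mem_Icc.1 hn).1; omega)]
    rw [← Finset.mul_sum, Finset.sum_comm]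
    congr 1
    refine Finset.sum_congr rfl fun i _ => ?_
    rw [Finset.sum_comm]
    refine Finset.sum_congr rfl fun j _ => ?_
    rw [Finset.mul_sum]
  have h2 : ∀ i j, |∑ n ∈ Finset.Icc 2 (XT T), ‖kap l |h i - h j| n‖ ^ 2 -
      2 / Real.pi ^ 2 * Real.log (|(x i : ℝ) - x j|)| ≤ C := by
    intro i j
    by_cases hij : i = j
    · subst hij
      simp only [sub_self, abs_zero, kap_zero, norm_zero, Real.log_zero, mul_zero, sub_zero]
      simp [hC.le]
    · have e : |h i - h j| = 2 * Real.pi * |(x i : ℝ) - x j| / Real.log T := by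
        rw [hh]
        simp only
        rw [← sub_div, ← mul_sub, abs_div, abs_mul, abs_of_pos hL0, abs_of_pos (by positivity)]
      rw [e]
      exact hk T hT _ (hx i j hij) (hxB i j)
  have h3 : ∑ n ∈ Finset.Icc 2 (XT T), ‖kc l c h n‖ ^ 2 +
      1 / Real.pi ^ 2 * ∑ i, ∑ j, c i * c j * Real.log |(x i : ℝ) - x j| =
      -(1 / 2) * ∑ i, ∑ j, c i * c j * (∑ n ∈ Finset.Icc 2 (XT T), ‖kap l |h i - h j| n‖ ^ 2 -
        2 / Real.pi ^ 2 * Real.log |(x i : ℝ) - x j|) := by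
    rw [h1]
    simp_rw [mul_sub, Finset.sum_sub_distrib]
    have e : ∑ i, ∑ j, c i * c j * (2 / Real.pi ^ 2 * Real.log |(x i : ℝ) - x j|) =
        2 / Real.pi ^ 2 * ∑ i, ∑ j, c i * c j * Real.log |(x i : ℝ) - x j| := by
      rw [Finset.mul_sum]
      refine Finset.sum_congr rfl fun i _ => ?_
      rw [Finset.mul_sum]
      refine Finset.sum_congr rfl fun j _ => ?_
      ring
    rw [e]
    ring
  rw [h3, abs_mul]
  have h4 : |∑ i, ∑ j, c i * c j * (∑ n ∈ Finset.Icc 2 (XT T), ‖kap l |h i - h j| n‖ ^ 2 -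
        2 / Real.pi ^ 2 * Real.log (|(x i : ℝ) - x j|))| ≤ C * (∑ i, |c i|) ^ 2 := by
    refine (Finset.abs_sum_le_sum_abs _ _).trans ?_
    rw [sq (∑ i, |c i|), Finset.sum_mul_sum, Finset.mul_sum]
    refine Finset.sum_le_sum fun i _ => ?_
    refine (Finset.abs_sum_le_sum_abs _ _).trans ?_
    rw [Finset.mul_sum]
    refine Finset.sum_le_sum fun j _ => ?_
    rw [abs_mul, abs_mul]
    refine (mul_le_mul_of_nonneg_left (h2 i j) (by positivity)).trans (le_of_eq ?_)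
    ring
  have h5 : |-(1 / 2 : ℝ)| = 1 / 2 := by rw [abs_neg]; norm_num
  rw [h5]
  have h6 := abs_nonneg (∑ i, ∑ j, c i * c j * (∑ n ∈ Finset.Icc 2 (XT T),
    ‖kap l |h i - h j| n‖ ^ 2 - 2 / Real.pi ^ 2 * Real.log |(x i : ℝ) - x j|))
  linarith

lemma kap_wn {l : ℝ} (hl : 0 < l) (h : ℝ) (n : ℕ) (hn : 2 ≤ n) : ‖kap l h n‖ ^ 2 ≤ wn h n := by
  have hpi := Real.pi_pos
  have h0 := wn_nonneg h n
  rw [kap_sq hl h n hn]
  have h4 : (l * ggo l n) ^ 2 ≤ 2 * Real.pi := by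
    have h5 := ggo_le hl n
    rw [le_div_iff₀ hl] at h5
    have h6 : 0 ≤ l * ggo l n := mul_nonneg hl.le (ggo_nonneg l n)
    calc (l * ggo l n) ^ 2 ≤ Real.sqrt (2 * Real.pi) ^ 2 :=
          pow_le_pow_left₀ h6 (by linarith) 2
      _ = 2 * Real.pi := Real.sq_sqrt (by positivity)
  have e : 1 / Real.pi ^ 3 * (vonMangoldt n ^ 2 / (n * Real.log n ^ 2) *
      (1 - Real.cos (h * Real.log n))) * (l * ggo l n) ^ 2 =
      wn h n * (1 / Real.pi ^ 3 * (l * ggo l n) ^ 2) := by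
    unfold wn
    ring
  rw [e]
  have h7 : 1 / Real.pi ^ 3 * (l * ggo l n) ^ 2 ≤ 1 := by
    calc 1 / Real.pi ^ 3 * (l * ggo l n) ^ 2 ≤ 1 / Real.pi ^ 3 * (2 * Real.pi) := by gcongr
      _ = 2 / Real.pi ^ 2 := by field_simp
      _ ≤ 1 := by
          rw [div_le_one (by positivity)]
          nlinarith [Real.pi_gt_three]
  nlinarith

lemma kc_le (l : ℝ) (c h : ι → ℝ) (n : ℕ) :
    ‖kc l c h n‖ ^ 2 ≤ (∑ i, |c i|) * ∑ i, |c i| * ‖kap l (h i) n‖ ^ 2 := by
  have h1 : ‖kc l c h n‖ ≤ ∑ i, |c i| * ‖kap l (h i) n‖ := by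
    unfold kc
    refine (norm_sum_le _ _).trans (Finset.sum_le_sum fun i _ => ?_)
    rw [norm_mul, Complex.norm_real, Real.norm_eq_abs]
  refine (pow_le_pow_left₀ (norm_nonneg _) h1 2).trans ?_
  refine Finset.sum_sq_le_sum_mul_sum_of_sq_le_mul _ (fun i _ => abs_nonneg _)
    (fun i _ => by positivity) fun i _ => le_of_eq ?_
  ring

/-- the range of the primes kept -/
noncomputable def YT (l : ℝ) : ℕ := ⌊Real.exp (l / 2)⌋₊

lemma YT_le_XT {lam T : ℝ} (hlam : 16 ≤ lam) (hT : 10 ≤ T) : YT (Real.log T / lam) ≤ XT T := by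
  unfold XT YT
  apply Nat.floor_le_floor
  have hL0 : 0 < Real.log T := Real.log_pos (by linarith)
  rw [Real.rpow_def_of_pos (by linarith)]
  apply Real.exp_le_exp.2
  have : Real.log T / lam ≤ Real.log T / 16 := div_le_div_of_nonneg_left hL0.le (by norm_num) hlam
  linarith

/-- the sum over the frequencies that are left out -/
lemma rest {lam : ℝ} (hlam : 16 ≤ lam) : ∃ C T0 : ℝ, 0 < C ∧ 10 ≤ T0 ∧
    ∀ T : ℝ, T0 ≤ T → ∀ (c h : ι → ℝ),
    ∑ n ∈ (Finset.Icc 2 (XT T)).filter (fun n => n ∉ Pr (YT (Real.log T / lam))),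
      ‖kc (Real.log T / lam) c h n‖ ^ 2 ≤ C * (∑ i, |c i|) ^ 2 := by
  obtain ⟨C1, hC1, hpp⟩ := Pool.Agent.Y743.CL.pp_sum
  have hlog := Real.tendsto_log_atTop
  have hlam0 : 0 < lam := by linarith
  have hll : Tendsto (fun T : ℝ => Real.log T / lam) atTop atTop := hlog.atTop_div_const hlam0
  obtain ⟨T2, hT2⟩ := (hll.eventually_ge_atTop 16).exists_forall_of_atTop
  refine ⟨2 * C1 + (lam / 2 + 20), max 10 T2, by positivity, le_max_left _ _, fun T hT c h => ?_⟩
  have hT10 : 10 ≤ T := (le_max_left _ _).trans hT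
  have g1 := hT2 T ((le_max_right _ _).trans hT)
  have hT0 : 0 < T := by linarith
  have hL0 : 0 < Real.log T := Real.log_pos (by linarith)
  set L := Real.log T with hL
  set l := L / lam with hl
  have hl0 : 0 < l := by positivity
  have hYX : YT l ≤ XT T := YT_le_XT hlam hT10
  have hY2 : 2 ≤ YT l := by
    unfold YT
    apply Nat.le_floor
    have := Real.add_one_le_exp (l / 2)
    push_cast
    linarith
  have hXlog : Real.log (XT T) ≤ L / 8 := by
    have hX0 : (0 : ℝ) < XT T := by exact_mod_cast (by omega : 0 < XT T)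
    calc Real.log (XT T) ≤ Real.log (T ^ (1 / 8 : ℝ)) :=
          Real.log_le_log hX0 (Nat.floor_le (by positivity))
      _ = L / 8 := by rw [Real.log_rpow hT0]; ring
  have hvm : ∀ n : ℕ, 0 ≤ vonMangoldt n / (n : ℝ) := fun n =>
    div_nonneg ArithmeticFunction.vonMangoldt_nonneg (Nat.cast_nonneg _)
  set R := (Finset.Icc 2 (XT T)).filter (fun n => n ∉ Pr (YT l)) with hR
  have hw : ∀ h : ℝ, ∑ n ∈ R, ‖kap l h n‖ ^ 2 ≤ 2 * C1 + (lam / 2 + 20) := by
    intro h
    have h1 : ∀ n ∈ R, ‖kap l h n‖ ^ 2 ≤ (if IsPrimePow n ∧ ¬ n.Prime then 2 / (n : ℝ) else 0) +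
        4 / l * (vonMangoldt n / n) := by
      intro n hn
      rw [hR, Finset.mem_filter, Finset.mem_Icc, mem_Pr] at hn
      obtain ⟨⟨hn2, hnX⟩, hnP⟩ := hn
      have hn0 : (0 : ℝ) < n := by exact_mod_cast (by omega : 0 < n)
      refine (kap_wn hl0 h n hn2).trans ?_
      have h5 : 0 ≤ 4 / l * (vonMangoldt n / n) := mul_nonneg (by positivity) (hvm n)
      by_cases hpw : IsPrimePow n
      · by_cases hp : n.Prime
        · have hnY : YT l < n := by
            by_contra hcon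
            exact hnP ⟨hp, by omega⟩
          rw [if_neg (fun h => h.2 hp), zero_add]
          have h2 := wn_le h n hn2
          have h3 : l / 2 ≤ Real.log n := by
            rw [Real.le_log_iff_exp_le hn0]
            have h6 : Real.exp (l / 2) < (YT l : ℝ) + 1 := Nat.lt_floor_add_one _
            have : ((YT l : ℝ) + 1) ≤ n := by exact_mod_cast hnY
            linarith
          have h4 : 2 * (vonMangoldt n / n) / Real.log n ≤ 2 * (vonMangoldt n / n) / (l / 2) :=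
            div_le_div_of_nonneg_left (by have := hvm n; linarith) (by positivity) h3
          have h5 : 2 * (vonMangoldt n / n) / (l / 2) = 4 / l * (vonMangoldt n / n) := by
            field_simp; ring
          linarith
        · rw [if_pos ⟨hpw, hp⟩]
          have := wn_le2 h n hn2
          linarith
      · rw [if_neg (fun h => hpw h.1), zero_add]
        have h6 : wn h n = 0 := by
          unfold wn
          rw [ArithmeticFunction.vonMangoldt_eq_zero_iff.2 hpw]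
          simp
        rw [h6]
        exact h5
    refine (Finset.sum_le_sum h1).trans ?_
    rw [Finset.sum_add_distrib, ← Finset.mul_sum]
    have h7 : ∑ n ∈ R, (if IsPrimePow n ∧ ¬ n.Prime then 2 / (n : ℝ) else 0) ≤ 2 * C1 := by
      rw [← Finset.sum_filter]
      have h8 : ∑ n ∈ R.filter (fun n => IsPrimePow n ∧ ¬ n.Prime), 2 / (n : ℝ) ≤
          ∑ n ∈ (Finset.Icc 2 (XT T)).filter (fun n => IsPrimePow n ∧ ¬ n.Prime), 2 / (n : ℝ) := by
        refine Finset.sum_le_sum_of_subset_of_nonneg ?_ fun _ _ _ => by positivity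
        exact Finset.filter_subset_filter _ (Finset.filter_subset _ _)
      refine h8.trans ?_
      have h9 := hpp (XT T)
      have e : ∀ n : ℕ, 2 / (n : ℝ) = 2 * (1 / (n : ℝ)) := fun n => by ring
      simp_rw [e]
      rw [← Finset.mul_sum]
      linarith
    have h10 : ∑ n ∈ R, vonMangoldt n / (n : ℝ) ≤ L / 8 + 6 := by
      have hmer := H370.nt_mertens_upper (XT T) (by omega)
      refine (Finset.sum_le_sum_of_subset_of_nonneg ?_ fun n _ _ => hvm n).trans
        (hmer.trans (by linarith))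
      intro n hn
      rw [hR, Finset.mem_filter, Finset.mem_Icc] at hn
      rw [Finset.mem_Icc]
      omega
    have h11 : 4 / l * ∑ n ∈ R, vonMangoldt n / (n : ℝ) ≤ lam / 2 + 20 := by
      calc 4 / l * ∑ n ∈ R, vonMangoldt n / (n : ℝ) ≤ 4 / l * (L / 8 + 6) := by gcongr
        _ = lam / 2 + 24 / l := by rw [hl]; field_simp; ring
        _ ≤ lam / 2 + 20 := by
            have : 24 / l ≤ 20 := by
              rw [div_le_iff₀ hl0]; linarith
            linarith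
    linarith
  set K := 2 * C1 + (lam / 2 + 20) with hK
  calc ∑ n ∈ R, ‖kc l c h n‖ ^ 2 ≤ ∑ n ∈ R, (∑ i, |c i|) * ∑ i, |c i| * ‖kap l (h i) n‖ ^ 2 :=
        Finset.sum_le_sum fun n _ => kc_le l c h n
    _ = (∑ i, |c i|) * ∑ i, |c i| * ∑ n ∈ R, ‖kap l (h i) n‖ ^ 2 := by
        rw [← Finset.mul_sum, Finset.sum_comm]
        congr 1
        refine Finset.sum_congr rfl fun i _ => ?_
        rw [Finset.mul_sum]
    _ ≤ (∑ i, |c i|) * ∑ i, |c i| * K := by
        apply mul_le_mul_of_nonneg_left _ (Finset.sum_nonneg fun i _ => abs_nonneg _)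
        exact Finset.sum_le_sum fun i _ => mul_le_mul_of_nonneg_left (hw _) (abs_nonneg _)
    _ = K * (∑ i, |c i|) ^ 2 := by rw [← Finset.sum_mul]; ring

/-- splitting the frequencies -/
lemma split_sum {lam T : ℝ} (hlam : 16 ≤ lam) (hT : 10 ≤ T) {M : Type} [AddCommMonoid M] (f : ℕ → M) :
    ∑ n ∈ Finset.Icc 2 (XT T), f n = ∑ p ∈ Pr (YT (Real.log T / lam)), f p +
      ∑ n ∈ (Finset.Icc 2 (XT T)).filter (fun n => n ∉ Pr (YT (Real.log T / lam))), f n := by
  classical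
  rw [← Finset.sum_filter_add_sum_filter_not (Finset.Icc 2 (XT T))
    (fun n => n ∈ Pr (YT (Real.log T / lam)))]
  congr 1
  refine Finset.sum_congr ?_ fun _ _ => rfl
  ext n
  rw [Finset.mem_filter, Finset.mem_Icc, mem_Pr]
  constructor
  · rintro ⟨_, h2⟩; exact h2
  · rintro ⟨h1, h2⟩
    exact ⟨⟨h1.two_le, h2.trans (YT_le_XT hlam hT)⟩, h1, h2⟩

/-- **the variance over the primes** -/
theorem var_pr {lam : ℝ} (hlam : 16 ≤ lam) (B : ℝ) (hB : 1 ≤ B) : ∃ C T0 : ℝ, 0 < C ∧ 10 ≤ T0 ∧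
    ∀ T : ℝ, T0 ≤ T → ∀ (c : ι → ℝ) (x : ι → ℤ), ∑ i, c i = 0 →
    (∀ i j, i ≠ j → lam ≤ |(x i : ℝ) - x j|) →
    (∀ i j, |(x i : ℝ) - x j| * Real.log |(x i : ℝ) - x j| ≤ B * Real.log T) →
    |∑ n ∈ Pr (YT (Real.log T / lam)), ‖kc (Real.log T / lam) c
        (fun i => 2 * Real.pi * x i / Real.log T) n‖ ^ 2 +
      1 / Real.pi ^ 2 * ∑ i, ∑ j, c i * c j * Real.log (|(x i : ℝ) - x j|)| ≤
        C * (∑ i, |c i|) ^ 2 := by
  obtain ⟨C1, T1, hC1, hT1, h1⟩ := var_all (ι := ι) hlam B hB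
  obtain ⟨C2, T2, hC2, hT2, h2⟩ := rest (ι := ι) hlam
  refine ⟨C1 + C2, max T1 T2, by positivity, hT1.trans (le_max_left _ _),
    fun T hT c x hc hx hxB => ?_⟩
  have k1 := h1 T ((le_max_left _ _).trans hT) c x hc hx hxB
  have k2 := h2 T ((le_max_right _ _).trans hT) c (fun i => 2 * Real.pi * x i / Real.log T)
  have hT10 : 10 ≤ T := hT1.trans ((le_max_left _ _).trans hT)
  rw [split_sum hlam hT10] at k1
  have k3 : 0 ≤ ∑ n ∈ (Finset.Icc 2 (XT T)).filter (fun n => n ∉ Pr (YT (Real.log T / lam))),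
      ‖kc (Real.log T / lam) c (fun i => 2 * Real.pi * x i / Real.log T) n‖ ^ 2 :=
    Finset.sum_nonneg fun _ _ => sq_nonneg _
  rw [abs_le] at k1 ⊢
  constructor <;> linarith

end Pool.Agent.W2helper67.RL
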