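import Pool.Agent.W2helper67.RL.Wm
import Pool.Agent.W2helper67.RL.NL
import Pool.Agent.W2helper67.RL.Var

set_option autoImplicit false

/-! # Approximation of the linear forms by sums over primes -/

namespace Pool.Agent.W2helper67.RL

open Complex Filter Topology MeasureTheory Set
open Pool.Agent.TH850.UV
open Pool.Agent.W2helper93.NV
open H370 (zz hh mult Zf zset AA good_zeta mem_Zf)
open Pool.Agent.Y743.CL (Pr mem_Pr)

/-- locally bounded measurable functions -/
def LB (f : ℝ → ℝ) : Prop := Measurable f ∧ ∀ a b : ℝ, ∃ M : ℝ, ∀ t ∈ Set.Icc a b, |f t| ≤ M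

lemma LB.add {f g : ℝ → ℝ} (hf : LB f) (hg : LB g) : LB (fun t => f t + g t) := by
  refine ⟨hf.1.add hg.1, fun a b => ?_⟩
  obtain ⟨M, hM⟩ := hf.2 a b
  obtain ⟨N, hN⟩ := hg.2 a b
  exact ⟨M + N, fun t ht => (abs_add_le _ _).trans (add_le_add (hM t ht) (hN t ht))⟩

lemma LB.mul {f g : ℝ → ℝ} (hf : LB f) (hg : LB g) : LB (fun t => f t * g t) := by
  refine ⟨hf.1.mul hg.1, fun a b => ?_⟩
  obtain ⟨M, hM⟩ := hf.2 a b
  obtain ⟨N, hN⟩ := hg.2 a b
  refine ⟨M * N, fun t ht => ?_⟩
  rw [abs_mul]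
  exact mul_le_mul (hM t ht) (hN t ht) (abs_nonneg _) ((abs_nonneg _).trans (hM t ht))

lemma LB.cont {f : ℝ → ℝ} (hf : Continuous f) : LB f := by
  refine ⟨hf.measurable, fun a b => ?_⟩
  obtain ⟨M, hM⟩ := isCompact_Icc.exists_bound_of_continuousOn (s := Set.Icc a b) hf.continuousOn
  exact ⟨M, fun t ht => by rw [← Real.norm_eq_abs]; exact hM t ht⟩

lemma LB.const (c : ℝ) : LB (fun _ => c) := LB.cont continuous_const

lemma LB.cmul {f : ℝ → ℝ} (c : ℝ) (hf : LB f) : LB (fun t => c * f t) := (LB.const c).mul hf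

lemma LB.sub {f g : ℝ → ℝ} (hf : LB f) (hg : LB g) : LB (fun t => f t - g t) := by
  have h := hf.add (hg.cmul (-1))
  refine (congrArg LB ?_).mp h
  funext t
  ring

lemma LB.sum {ι : Type} (s : Finset ι) {f : ι → ℝ → ℝ} (hf : ∀ i ∈ s, LB (f i)) :
    LB (fun t => ∑ i ∈ s, f i t) := by
  classical
  induction s using Finset.induction_on with
  | empty => simpa using LB.const 0
  | insert a s ha ih =>
    simp only [Finset.sum_insert ha]
    exact (hf a (Finset.mem_insert_self _ _)).add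
      (ih fun i hi => hf i (Finset.mem_insert_of_mem hi))

lemma LB.shift {f : ℝ → ℝ} (hf : LB f) (s : ℝ) : LB (fun t => f (t + s)) := by
  refine ⟨hf.1.comp (measurable_id.add_const s), fun a b => ?_⟩
  obtain ⟨M, hM⟩ := hf.2 (a + s) (b + s)
  exact ⟨M, fun t ht => hM _ ⟨by linarith [ht.1], by linarith [ht.2]⟩⟩

lemma LB.sqr {f : ℝ → ℝ} (hf : LB f) : LB (fun t => f t ^ 2) := by
  have h := hf.mul hf
  refine (congrArg LB ?_).mp h
  funext t
  ring

lemma LB.ii {f : ℝ → ℝ} (hf : LB f) (a b : ℝ) : IntervalIntegrable f volume a b := by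
  obtain ⟨M, hM⟩ := hf.2 (min a b) (max a b)
  rw [intervalIntegrable_iff]
  refine Measure.integrableOn_of_bounded (M := M) (by rw [Set.uIoc]; exact measure_Ioc_lt_top.ne)
    hf.1.aestronglyMeasurable ?_
  rw [ae_restrict_iff' measurableSet_uIoc]
  refine Eventually.of_forall fun t ht => ?_
  rw [Real.norm_eq_abs]
  exact hM t ⟨ht.1.le, ht.2⟩

lemma NL_LB : LB (fun t => (NL t : ℝ)) := by
  refine ⟨NLr_meas, fun a b => ⟨NL b, fun t ht => ?_⟩⟩
  show |(NL t : ℝ)| ≤ NL b
  rw [abs_of_nonneg (Nat.cast_nonneg _)]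
  exact_mod_cast NL_mono ht.2

lemma Gf_LB (ρ y : ℝ) : LB (fun t => Gf ρ t y) :=
  ((NL_LB.shift (y * ρ)).sub NL_LB).sub (LB.const y)

variable {ι : Type} [Fintype ι]

/-- the prime sum of a linear form -/
noncomputable def PS (l : ℝ) (c h : ι → ℝ) (t : ℝ) : ℂ :=
  ∑ p ∈ Pr (YT l), kc l c h p * (p : ℂ) ^ (-(t : ℂ) * I)

lemma dsum_cont (s : Finset ℕ) (hs : ∀ n ∈ s, 1 ≤ n) (b : ℕ → ℂ) :
    Continuous fun t : ℝ => ∑ n ∈ s, b n * (n : ℂ) ^ (-(t : ℂ) * I) := by
  refine continuous_finsetSum _ fun n hn => ?_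
  have hn0 : (n : ℂ) ≠ 0 := by
    exact_mod_cast (by have := hs n hn; omega : n ≠ 0)
  exact continuous_const.mul (Continuous.const_cpow (by fun_prop) (Or.inl hn0))

lemma sq_lin (c : ι → ℝ) (e : ι → ℝ) : (∑ i, c i * e i) ^ 2 ≤ (∑ i, |c i|) * ∑ i, |c i| * e i ^ 2 := by
  refine Finset.sum_sq_le_sum_mul_sum_of_sq_le_mul _ (fun i _ => abs_nonneg _)
    (fun i _ => by positivity) fun i _ => le_of_eq ?_
  rw [mul_pow, ← sq_abs (c i)]
  ring

theorem approx {lam : ℝ} (hlam : 16 ≤ lam) (hW : WMom lam) : ∃ C T0 : ℝ, 0 < C ∧ 10 ≤ T0 ∧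
    ∀ T : ℝ, T0 ≤ T → ∀ (c : ι → ℝ) (x : ι → ℕ), (∀ i, (x i : ℝ) ≤ Real.log T) →
      ∫ t in (T + Real.log T)..(2 * T - Real.log T - 7),
        (∑ i, c i * Gf (2 * Real.pi / Real.log T) t (x i) + (PS (Real.log T / lam) c
          (fun i => 2 * Real.pi * x i / Real.log T) t).re) ^ 2 ≤ C * (∑ i, |c i|) ^ 2 * T := by
  obtain ⟨C1, T1, hC1, hT1, herr⟩ := err2 hlam hW
  obtain ⟨C2, T2, hC2, hT2, hrest⟩ := rest (ι := ι) hlam
  have hpi := Real.pi_pos
  have hpi4 := Real.pi_lt_d2
  have ev1 : ∀ᶠ T : ℝ in atTop, 2 * Real.log T + 7 ≤ T / 2 := by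
    have h1 : (fun T : ℝ => 2 * Real.log T + 7) =o[atTop] fun T : ℝ => T :=
      (Real.isLittleO_log_id_atTop.const_mul_left 2).add (Asymptotics.isLittleO_const_id_atTop _)
    have h2 := h1.bound (c := 1 / 2) (by norm_num)
    filter_upwards [h2, eventually_ge_atTop 1] with T hT hT1
    rw [Real.norm_of_nonneg (by linarith : (0 : ℝ) ≤ T)] at hT
    have := (le_abs_self _).trans hT
    linarith
  obtain ⟨T5, hT5⟩ := (ev1.and (Real.tendsto_log_atTop.eventually_ge_atTop 16)).exists_forall_of_atTop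
  refine ⟨2 * C1 + 4 * C2, max (max T1 T2) (max T5 100), by positivity,
    hT1.trans ((le_max_left _ _).trans (le_max_left _ _)), fun T hT c x hx => ?_⟩
  have hTT1 : T1 ≤ T := ((le_max_left _ _).trans (le_max_left _ _)).trans hT
  have hTT2 : T2 ≤ T := ((le_max_right _ _).trans (le_max_left _ _)).trans hT
  have hT100 : 100 ≤ T := ((le_max_right _ _).trans (le_max_right _ _)).trans hT
  obtain ⟨g1, g2⟩ := hT5 T (((le_max_left _ _).trans (le_max_right _ _)).trans hT)
  obtain ⟨U1, U2, hU1, hU1', hU2, hU2', hd⟩ := herr T hTT1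
  have hT0 : 0 < T := by linarith
  set L := Real.log T with hL
  have hL0 : 0 < L := by linarith
  set l := L / lam with hl
  have hlam0 : 0 < lam := by linarith
  have hl0 : 0 < l := by positivity
  set ρ := 2 * Real.pi / L with hρ
  have hρ0 : 0 < ρ := by positivity
  set h : ι → ℝ := fun i => 2 * Real.pi * x i / L with hh
  set X := XT T with hX
  set a0 := T + L with ha0
  set b0 := 2 * T - L - 7 with hb0
  have hab : a0 ≤ b0 := by rw [ha0, hb0]; linarith
  have hbaT : b0 - a0 ≤ T := by rw [ha0, hb0]; linarith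
  have hh0 : ∀ i, 0 ≤ h i := fun i => by simp only [hh]; positivity
  have hh7 : ∀ i, h i ≤ 7 := by
    intro i
    simp only [hh]
    rw [div_le_iff₀ hL0]
    have := hx i
    have h0 : (0 : ℝ) ≤ x i := Nat.cast_nonneg _
    nlinarith
  have hhρ : ∀ i, (x i : ℝ) * ρ = h i := fun i => by simp only [hh, hρ]; ring
  -- the errors
  set e : ι → ℝ → ℝ := fun i t => Gf ρ t (x i) + Db l (h i) X t with he
  have hDc : ∀ i, Continuous fun t => Db l (h i) X t := fun i => Db_contt l (h i) X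
  have heLB : ∀ i, LB (e i) := fun i => (Gf_LB ρ (x i)).add (LB.cont (hDc i))
  have he2 : ∀ i, ∫ t in a0..b0, e i t ^ 2 ≤ C1 * T := by
    intro i
    refine le_trans (le_of_eq ?_) (hd (h i) (hh0 i) (hh7 i))
    refine intervalIntegral.integral_congr fun t ht => ?_
    rw [Set.uIcc_of_le hab] at ht
    show e i t ^ 2 = _
    congr 1
    simp only [he]
    have k1 : Gf ρ t (x i) = Nwin t (h i) - x i := by
      rw [← NL_sub (by linarith [ht.1]) (hh0 i)]
      unfold Gf
      rw [hhρ]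
    have ht2 : t + h i ≤ 2 * T - 7 := by
      have := ht.2
      have := hh7 i
      rw [hb0] at *
      linarith
    have k2 := Nwin_eq (T := 2 * T) (t := t) (h := h i) (by linarith [ht.1]) (hh0 i) (by linarith)
    have k3 := Nb_local (T := 2 * T) (V := T) (U1 := U1) (U2 := U2) (t := t) (h := h i)
      (by linarith) le_rfl hU1 (by rw [ha0] at ht; linarith [ht.1]) (by linarith) hU2' (hh0 i)
    have k4 : L / (2 * Real.pi) * h i = x i := by
      simp only [hh]
      field_simp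
    rw [k1, k2, k3, k4]
  -- the rest
  set R := (Finset.Icc 2 X).filter (fun n => n ∉ Pr (YT l)) with hR
  set D : ℝ → ℂ := fun t => ∑ n ∈ R, kc l c h n * (n : ℂ) ^ (-(t : ℂ) * I) with hD
  have hR1 : ∀ n ∈ R, 1 ≤ n := by
    intro n hn
    rw [hR, Finset.mem_filter, Finset.mem_Icc] at hn
    omega
  have hDcont : Continuous D := dsum_cont R hR1 _
  have hid : ∀ t, ∑ i, c i * Gf ρ t (x i) + (PS l c h t).re = ∑ i, c i * e i t - (D t).re := by
    intro t
    have k1 : ∑ i, c i * Db l (h i) X t =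
        (∑ n ∈ Finset.Icc 2 X, kc l c h n * (n : ℂ) ^ (-(t : ℂ) * I)).re := by
      unfold Db kc
      simp_rw [Finset.sum_mul]
      rw [Finset.sum_comm, Complex.re_sum]
      refine Finset.sum_congr rfl fun i _ => ?_
      rw [← Complex.re_ofReal_mul, Finset.mul_sum]
      congr 1
      refine Finset.sum_congr rfl fun n _ => ?_
      ring
    have k2 := split_sum hlam (by linarith : 10 ≤ T)
      (fun n => kc l c h n * (n : ℂ) ^ (-(t : ℂ) * I))
    rw [k2, Complex.add_re] at k1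
    simp only [he, mul_add, Finset.sum_add_distrib, hD]
    unfold PS
    rw [k1]
    ring
  have hmv : ∫ t in a0..b0, ‖D t‖ ^ 2 ≤ 2 * T * (C2 * (∑ i, |c i|) ^ 2) := by
    have k1 := H370.mean_value (fun n => if n ∈ R then kc l c h n else 0) X a0 b0 hab
    have k2 : ∀ t : ℝ, ∑ n ∈ Finset.Icc 1 X, (if n ∈ R then kc l c h n else 0) *
        (n : ℂ) ^ (-(t : ℂ) * I) = D t := by
      intro t
      simp only [hD]
      rw [← Finset.sum_filter_add_sum_filter_not (Finset.Icc 1 X) (fun n => n ∈ R)]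
      have k3 : ∑ n ∈ (Finset.Icc 1 X).filter (fun n => ¬ n ∈ R), (if n ∈ R then kc l c h n else 0) *
          (n : ℂ) ^ (-(t : ℂ) * I) = 0 := by
        refine Finset.sum_eq_zero fun n hn => ?_
        rw [Finset.mem_filter] at hn
        rw [if_neg hn.2, zero_mul]
      rw [k3, add_zero]
      have k4 : (Finset.Icc 1 X).filter (fun n => n ∈ R) = R := by
        ext n
        rw [Finset.mem_filter]
        constructor
        · exact fun h => h.2
        · intro h
          refine ⟨?_, h⟩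
          rw [hR, Finset.mem_filter, Finset.mem_Icc] at h
          rw [Finset.mem_Icc]
          omega
      rw [k4]
      refine Finset.sum_congr rfl fun n hn => ?_
      rw [if_pos hn]
    simp only [k2] at k1
    refine k1.trans ?_
    have k5 : ∑ n ∈ Finset.Icc 1 X, ‖(if n ∈ R then kc l c h n else 0)‖ ^ 2 ≤
        C2 * (∑ i, |c i|) ^ 2 := by
      refine le_trans (le_of_eq ?_) (hrest T hTT2 c h)
      rw [← hL, ← hl, ← hX, ← hR]
      have k6 : ∀ n, ‖(if n ∈ R then kc l c h n else 0)‖ ^ 2 =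
          if n ∈ R then ‖kc l c h n‖ ^ 2 else 0 := by
        intro n
        split_ifs <;> simp
      simp_rw [k6]
      rw [← Finset.sum_filter]
      refine Finset.sum_congr ?_ fun _ _ => rfl
      ext n
      rw [Finset.mem_filter]
      constructor
      · exact fun h => h.2
      · intro h
        refine ⟨?_, h⟩
        rw [hR, Finset.mem_filter, Finset.mem_Icc] at h
        rw [Finset.mem_Icc]
        omega
    have k7 : 8 * (X : ℝ) * (1 + Real.log X) ≤ T := by
      have hX8 : (X : ℝ) ≤ T ^ (1 / 8 : ℝ) := Nat.floor_le (by positivity)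
      rcases Nat.eq_zero_or_pos X with h0 | h0
      · rw [h0]; simp; linarith
      have hX0 : (0 : ℝ) < X := by exact_mod_cast h0
      have k8 : 1 + Real.log X ≤ X := by linarith [Real.log_le_sub_one_of_pos hX0]
      have k9 : (X : ℝ) * X ≤ T ^ (1 / 4 : ℝ) := by
        calc (X : ℝ) * X ≤ T ^ (1 / 8 : ℝ) * T ^ (1 / 8 : ℝ) := by gcongr
          _ = T ^ (1 / 4 : ℝ) := by rw [← Real.rpow_add hT0]; norm_num
      have k10 : T ^ (1 / 4 : ℝ) ≤ T ^ (1 / 2 : ℝ) :=
        Real.rpow_le_rpow_of_exponent_le (by linarith) (by norm_num)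
      rw [← Real.sqrt_eq_rpow] at k10
      have k11 : 10 ≤ Real.sqrt T := by
        rw [show (10 : ℝ) = Real.sqrt 100 by
          rw [show (100 : ℝ) = 10 ^ 2 by norm_num, Real.sqrt_sq (by norm_num)]]
        exact Real.sqrt_le_sqrt hT100
      have k12 : Real.sqrt T * Real.sqrt T = T := Real.mul_self_sqrt hT0.le
      nlinarith
    have k8 : 0 ≤ C2 * (∑ i, |c i|) ^ 2 := by positivity
    have k9 : b0 - a0 + 8 * (X : ℝ) * (1 + Real.log X) ≤ 2 * T := by linarith
    have k10 : 0 ≤ ∑ n ∈ Finset.Icc 1 X, ‖(if n ∈ R then kc l c h n else 0)‖ ^ 2 :=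
      Finset.sum_nonneg fun _ _ => sq_nonneg _
    exact mul_le_mul k9 k5 k10 (by linarith)
  -- together
  have iD : IntervalIntegrable (fun t => ‖D t‖ ^ 2) volume a0 b0 :=
    (hDcont.norm.pow 2).intervalIntegrable _ _
  have hS0 : 0 ≤ ∑ i, |c i| := Finset.sum_nonneg fun i _ => abs_nonneg _
  have ie : ∀ i, IntervalIntegrable (fun t => |c i| * e i t ^ 2) volume a0 b0 := fun i =>
    ((heLB i).sqr.cmul _).ii _ _
  have ies : IntervalIntegrable (fun t => ∑ i, |c i| * e i t ^ 2) volume a0 b0 :=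
    (LB.sum _ fun i _ => (heLB i).sqr.cmul _).ii _ _
  have hmain : ∫ t in a0..b0, (∑ i, c i * Gf ρ t (x i) + (PS l c h t).re) ^ 2 ≤
      ∫ t in a0..b0, (2 * ((∑ i, |c i|) * ∑ i, |c i| * e i t ^ 2) + 2 * ‖D t‖ ^ 2) := by
    refine intervalIntegral.integral_mono_on hab ?_ (((ies.const_mul _).const_mul _).add
      (iD.const_mul _)) fun t _ => ?_
    · have hPc : Continuous fun t => (PS l c h t).re := by
        unfold PS
        refine Complex.continuous_re.comp (dsum_cont _ ?_ _)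
        intro n hn
        exact (mem_Pr.1 hn).1.one_le
      exact ((LB.sum _ fun i _ => (Gf_LB ρ (x i)).cmul (c i)).add (LB.cont hPc)).sqr.ii _ _
    · rw [hid t]
      have k1 := sq_lin c (fun i => e i t)
      have k2 : (D t).re ^ 2 ≤ ‖D t‖ ^ 2 := by
        rw [← sq_abs]
        exact pow_le_pow_left₀ (abs_nonneg _) (Complex.abs_re_le_norm _) 2
      nlinarith [sq_nonneg (∑ i, c i * e i t + (D t).re)]
  rw [intervalIntegral.integral_add ((ies.const_mul _).const_mul _) (iD.const_mul _),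
    intervalIntegral.integral_const_mul, intervalIntegral.integral_const_mul,
    intervalIntegral.integral_const_mul,
    intervalIntegral.integral_finsetSum fun i _ => ie i] at hmain
  have hfin : (∑ i, |c i|) * ∑ i, ∫ t in a0..b0, |c i| * e i t ^ 2 ≤ C1 * (∑ i, |c i|) ^ 2 * T := by
    calc (∑ i, |c i|) * ∑ i, ∫ t in a0..b0, |c i| * e i t ^ 2 ≤
        (∑ i, |c i|) * ∑ i, |c i| * (C1 * T) := by
          apply mul_le_mul_of_nonneg_left _ hS0
          refine Finset.sum_le_sum fun i _ => ?_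
          rw [intervalIntegral.integral_const_mul]
          exact mul_le_mul_of_nonneg_left (he2 i) (abs_nonneg _)
      _ = _ := by rw [← Finset.sum_mul]; ring
  calc _ ≤ _ := hmain
    _ ≤ 2 * (C1 * (∑ i, |c i|) ^ 2 * T) + 2 * (2 * T * (C2 * (∑ i, |c i|) ^ 2)) := by
        gcongr
    _ = _ := by ring

end Pool.Agent.W2helper67.RL
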