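import Pool.Agent.W2helper67.RL.Pr
import Pool.Agent.W2helper67.RL.Conc
import Pool.Agent.R320.JL.Cf

set_option autoImplicit false

/-! # Small balls for linear forms in the counts -/

namespace Pool.Agent.W2helper67.RL

open Complex Filter Topology MeasureTheory Set
open Pool.Agent.TH850.UV
open Pool.Agent.W2helper93.NV
open Pool.Agent.Y743.CL (Pr mem_Pr VS)
open Pool.Agent.R320.JL (PP nz cf_fin)

lemma lin_log (A : ℕ) : ∃ r0 : ℝ, 3 ≤ r0 ∧ ∀ r : ℝ, r0 ≤ r → 3 * (A * Real.log r) ≤ r := by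
  have h1 : (fun r : ℝ => 3 * (A * Real.log r)) =o[atTop] fun r : ℝ => r := by
    have := Real.isLittleO_log_id_atTop.const_mul_left (3 * (A : ℝ))
    refine this.congr_left fun r => ?_
    ring
  have h2 := h1.bound (c := 1) one_pos
  obtain ⟨r1, hr1⟩ := h2.exists_forall_of_atTop
  refine ⟨max 3 r1, le_max_left _ _, fun r hr => ?_⟩
  have h3 := hr1 r ((le_max_right _ _).trans hr)
  have h4 : 3 ≤ r := (le_max_left _ _).trans hr
  rw [one_mul, Real.norm_of_nonneg (by linarith : (0 : ℝ) ≤ r)] at h3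
  exact (le_abs_self _).trans h3

variable {ι : Type} [Fintype ι]

lemma dist_log {A : ℕ} {r T : ℝ} (hr : 3 ≤ r) (h3 : 3 * (A * Real.log r) ≤ r)
    (hrT : r ^ (A + 1) ≤ 3 * Real.log T) (x : ι → ℕ) (hx : ∀ i j, i ≠ j → r ≤ |(x i : ℝ) - x j|)
    (hxA : ∀ i, (x i : ℝ) ≤ r ^ A) (i j : ι) : 0 ≤ Real.log |(x i : ℝ) - x j| ∧
    Real.log |(x i : ℝ) - x j| ≤ A * Real.log r ∧
    |(x i : ℝ) - x j| * Real.log |(x i : ℝ) - x j| ≤ Real.log T := by
  have hr0 : 0 < r := by linarith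
  have hlr : 0 < Real.log r := Real.log_pos (by linarith)
  have hLT : 0 < Real.log T := by
    have : 0 < r ^ (A + 1) := by positivity
    linarith
  by_cases hij : i = j
  · subst hij
    rw [sub_self, abs_zero, Real.log_zero, mul_zero]
    exact ⟨le_rfl, by positivity, hLT.le⟩
  · have h1 := hx i j hij
    have h2 : |(x i : ℝ) - x j| ≤ r ^ A := by
      have ha := hxA i
      have hb := hxA j
      have ha0 : (0 : ℝ) ≤ x i := Nat.cast_nonneg _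
      have hb0 : (0 : ℝ) ≤ x j := Nat.cast_nonneg _
      rw [abs_le]
      constructor <;> linarith
    have h0 : 0 < |(x i : ℝ) - x j| := by linarith
    have h4 : Real.log |(x i : ℝ) - x j| ≤ A * Real.log r := by
      rw [← Real.log_pow]
      exact Real.log_le_log h0 h2
    have h5 : 0 ≤ Real.log |(x i : ℝ) - x j| := Real.log_nonneg (by linarith)
    refine ⟨h5, h4, ?_⟩
    calc |(x i : ℝ) - x j| * Real.log |(x i : ℝ) - x j| ≤ r ^ A * (A * Real.log r) :=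
          mul_le_mul h2 h4 h5 (by positivity)
      _ ≤ r ^ A * (r / 3) := by
          apply mul_le_mul_of_nonneg_left _ (by positivity)
          linarith
      _ = r ^ (A + 1) / 3 := by rw [pow_succ]; ring
      _ ≤ Real.log T := by linarith

lemma exp_lip (a b : ℝ) : ‖cexp (I * (a : ℂ)) - cexp (I * (b : ℂ))‖ ≤ |a - b| := by
  have e : cexp (I * (a : ℂ)) - cexp (I * (b : ℂ)) =
      cexp (I * (b : ℂ)) * (cexp (I * ((a - b : ℝ) : ℂ)) - 1) := by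
    rw [mul_sub, ← Complex.exp_add, mul_one]
    congr 2
    push_cast
    ring
  rw [e, norm_mul, Complex.norm_exp_I_mul_ofReal, one_mul]
  have := Pool.Agent.R320.JL.exp_taylor 1 (a - b)
  simpa using this

lemma cf_step {Y P : ℝ → ℝ} (hYLB : LB Y) (hPc : Continuous P) {a0 b0 T u E2 : ℝ} (hab : a0 ≤ b0)
    (hbaT : b0 - a0 ≤ T) (hu0 : 0 ≤ u) (hE : ∫ t in a0..b0, (Y t + P t) ^ 2 ≤ E2) :
    ‖(∫ t in a0..b0, cexp (I * ((u * Y t : ℝ) : ℂ))) -
        ∫ t in a0..b0, cexp (I * ((u * (-P t) : ℝ) : ℂ))‖ ≤ u * ((E2 + T) / 2) := by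
  have hYm : Measurable Y := hYLB.1
  have i1 : IntervalIntegrable (fun t => cexp (I * ((u * Y t : ℝ) : ℂ))) volume a0 b0 := by
    rw [intervalIntegrable_iff]
    refine Measure.integrableOn_of_bounded (M := 1)
      (by rw [Set.uIoc]; exact measure_Ioc_lt_top.ne) ?_ ?_
    · exact Measurable.aestronglyMeasurable (by fun_prop)
    · exact Eventually.of_forall fun t => by rw [Complex.norm_exp_I_mul_ofReal]
  have i2 : IntervalIntegrable (fun t => cexp (I * ((u * (-P t) : ℝ) : ℂ))) volume a0 b0 := by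
    apply Continuous.intervalIntegrable
    fun_prop
  rw [← intervalIntegral.integral_sub i1 i2]
  have hYP : LB (fun t => Y t + P t) := hYLB.add (LB.cont hPc)
  have i3 : IntervalIntegrable (fun t => u / 2 * ((Y t + P t) ^ 2 + 1)) volume a0 b0 :=
    ((hYP.sqr.add (LB.const 1)).cmul (u / 2)).ii _ _
  have k1 := intervalIntegral.norm_integral_le_of_norm_le hab (f := fun t =>
    cexp (I * ((u * Y t : ℝ) : ℂ)) - cexp (I * ((u * (-P t) : ℝ) : ℂ)))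
    (g := fun t => u / 2 * ((Y t + P t) ^ 2 + 1)) (ae_of_all _ fun t _ => by
      refine (exp_lip _ _).trans ?_
      have k2 : u * Y t - u * (-P t) = u * (Y t + P t) := by ring
      rw [k2, abs_mul, abs_of_nonneg hu0]
      have k3 : |Y t + P t| ≤ ((Y t + P t) ^ 2 + 1) / 2 := by
        rw [← sq_abs (Y t + P t)]
        nlinarith [sq_nonneg (|Y t + P t| - 1)]
      calc u * |Y t + P t| ≤ u * (((Y t + P t) ^ 2 + 1) / 2) :=
            mul_le_mul_of_nonneg_left k3 hu0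
        _ = _ := by ring) i3
  refine k1.trans ?_
  rw [intervalIntegral.integral_const_mul, intervalIntegral.integral_add (hYP.sqr.ii _ _)
    (by simp), intervalIntegral.integral_const, smul_eq_mul, mul_one]
  have k2 : (∫ t in a0..b0, (Y t + P t) ^ 2) + (b0 - a0) ≤ E2 + T := by linarith
  calc u / 2 * ((∫ t in a0..b0, (Y t + P t) ^ 2) + (b0 - a0)) ≤ u / 2 * (E2 + T) := by gcongr
    _ = _ := by ring

lemma cf_prime (c h : ι → ℝ) {lam T a0 b0 u S0 K : ℝ} {M : ℕ} (hlam : 16 ≤ lam)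
    (hM : 2 * (M : ℝ) ≤ lam) (hT : 10 ≤ T) (hab : a0 ≤ b0) (hbaT : b0 - a0 ≤ T) (hu0 : 0 ≤ u)
    (hS : ∑ i, |c i| ≤ S0) (hK0 : 0 ≤ K) (hKM : K ≤ M / 2)
    (hVK : u ^ 2 * ∑ p ∈ Pr (YT (Real.log T / lam)), ‖kc (Real.log T / lam) c h p‖ ^ 2 ≤ K) :
    ‖(∫ t in a0..b0, cexp (I * ((u * (-(PS (Real.log T / lam) c h t).re) : ℝ) : ℂ))) -
      (((b0 - a0) * Real.exp (-((u ^ 2 * ∑ p ∈ Pr (YT (Real.log T / lam)),
        ‖kc (Real.log T / lam) c h p‖ ^ 2) / 4)) : ℝ) : ℂ)‖ ≤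
      T * (K ^ M / M.factorial * 3) + T * (u ^ 2 * (M * (M ^ 2 * (1 + K) ^ M) * S0 ^ 2)) +
        8 * (Real.sqrt T * (1 + Real.log T)) * ((2 * M + 1) * (1 + K) ^ (2 * M)) := by
  have hT0 : 0 < T := by linarith
  have hlamp : 0 < lam := by linarith
  set L := Real.log T with hL
  have hL0 : 0 < L := Real.log_pos (by linarith)
  set l := L / lam with hl
  have hl0 : 0 < l := by positivity
  set S := ∑ i, |c i| with hSd
  have hSn : 0 ≤ S := Finset.sum_nonneg fun i _ => abs_nonneg _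
  have hS2 : S ^ 2 ≤ S0 ^ 2 := pow_le_pow_left₀ hSn hS 2
  set z : ℕ → ℂ := fun p => if p ∈ Pr (YT l) then -(u : ℂ) * kc l c h p else 0 with hz
  have hPP : ∀ t, (PP z (YT l) t).re / 1 = u * (-(PS l c h t).re) := by
    intro t
    have k1 : PP z (YT l) t = -(u : ℂ) * PS l c h t := by
      unfold PP PS
      rw [Finset.mul_sum]
      refine Finset.sum_congr rfl fun p hp => ?_
      simp only [hz]
      rw [if_pos hp]
      ring
    rw [k1, div_one, ← Complex.ofReal_neg, Complex.re_ofReal_mul]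
    ring
  have hVS : VS (nz z) (YT l) = u ^ 2 * ∑ p ∈ Pr (YT l), ‖kc l c h p‖ ^ 2 := by
    unfold VS nz
    rw [Finset.mul_sum]
    refine Finset.sum_congr rfl fun p hp => ?_
    simp only [hz]
    rw [if_pos hp, norm_mul, norm_neg, Complex.norm_real, Real.norm_of_nonneg hu0]
    ring
  have hzn : ∀ p, ‖z p‖ ^ 2 ≤ u ^ 2 * S0 ^ 2 := by
    intro p
    simp only [hz]
    split_ifs with hp
    · rw [norm_mul, norm_neg, Complex.norm_real, Real.norm_of_nonneg hu0, mul_pow]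
      apply mul_le_mul_of_nonneg_left _ (sq_nonneg _)
      refine (kc_le l c h p).trans ?_
      have k1 : ∑ i, |c i| * ‖kap l (h i) p‖ ^ 2 ≤ S := by
        refine Finset.sum_le_sum fun i _ => ?_
        have k2 := kap_le hl0 (h i) p (mem_Pr.1 hp).1.two_le
        have k3 : ‖kap l (h i) p‖ ^ 2 ≤ 1 := pow_le_one₀ (norm_nonneg _) k2
        exact mul_le_of_le_one_right (abs_nonneg _) k3
      calc (∑ i, |c i|) * ∑ i, |c i| * ‖kap l (h i) p‖ ^ 2 ≤ S * S :=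
            mul_le_mul_of_nonneg_left k1 hSn
        _ = S ^ 2 := (sq S).symm
        _ ≤ S0 ^ 2 := hS2
    · rw [norm_zero, zero_pow two_ne_zero]
      positivity
  have hX1 : 1 ≤ YT l := by
    unfold YT
    apply Nat.le_floor
    have := Real.add_one_le_exp (l / 2)
    push_cast
    linarith
  have hXT : ((YT l ^ (2 * M) : ℕ) : ℝ) ≤ Real.sqrt T := by
    have k1 : (YT l : ℝ) ≤ Real.exp (l / 2) := Nat.floor_le (Real.exp_pos _).le
    have k2 : Real.sqrt T = Real.exp (L / 2) := by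
      rw [Real.exp_half, hL, Real.exp_log hT0]
    push_cast
    rw [k2]
    calc (YT l : ℝ) ^ (2 * M) ≤ Real.exp (l / 2) ^ (2 * M) :=
          pow_le_pow_left₀ (Nat.cast_nonneg _) k1 _
      _ = Real.exp (l * M) := by
          rw [← Real.exp_nat_mul]
          congr 1
          push_cast
          ring
      _ ≤ Real.exp (L / 2) := by
          apply Real.exp_le_exp.2
          rw [hl, div_mul_eq_mul_div, div_le_div_iff₀ hlamp (by norm_num)]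
          nlinarith
  have hVK' : VS (nz z) (YT l) ≤ K * 1 ^ 2 := by
    rw [hVS, one_pow, mul_one]
    exact hVK
  have hcf := cf_fin z (YT l) hX1 T a0 b0 1 K (u ^ 2 * S0 ^ 2) (by linarith) hab hbaT one_pos hK0
    (by positivity) hzn hVK' M hXT hKM
  simp only [hPP] at hcf
  rw [hVS, one_pow, mul_one] at hcf
  refine hcf.trans (le_of_eq ?_)
  ring

/-- the variance -/
lemma var_bd {A : ℕ} {C1 S0 r T : ℝ} (hr : 3 ≤ r) (h3 : 3 * (A * Real.log r) ≤ r)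
    (hrT : r ^ (A + 1) ≤ 3 * Real.log T) (x : ι → ℕ) (hx : ∀ i j, i ≠ j → r ≤ |(x i : ℝ) - x j|)
    (hxA : ∀ i, (x i : ℝ) ≤ r ^ A) (c : ι → ℝ) (hc : ∑ i, c i = 0) (hS : ∑ i, |c i| ≤ S0)
    (hc1 : ∃ i, 1 ≤ |c i|) (hC1 : 0 ≤ C1) (hrD : 20 * S0 ^ 2 * (1 / 2 + C1) + C1 ≤ Real.log r) {V : ℝ}
    (hv : |V + 1 / Real.pi ^ 2 * ∑ i, ∑ j, c i * c j * Real.log (|(x i : ℝ) - x j|)| ≤
      C1 * (∑ i, |c i|) ^ 2) : Real.log r / 20 ≤ V ∧ V ≤ S0 ^ 2 * (A + 1) * Real.log r := by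
  have hpi3 := Real.pi_gt_three
  have hpi4 := Real.pi_lt_d2
  have hpi := Real.pi_pos
  have hdl := dist_log hr h3 hrT x hx hxA
  set S := ∑ i, |c i| with hSd
  have hSn : 0 ≤ S := Finset.sum_nonneg fun i _ => abs_nonneg _
  have hS2 : S ^ 2 ≤ S0 ^ 2 := pow_le_pow_left₀ hSn hS 2
  set ℓ := Real.log r with hℓ
  have hℓ0 : 0 < ℓ := Real.log_pos (by linarith)
  have hpos1 : 0 ≤ 20 * S0 ^ 2 * (1 / 2 + C1) := by positivity
  have hq := quad_int c (fun i => (x i : ℤ)) r (by linarith) hc (fun i j hij => by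
    push_cast; exact hx i j hij)
  have hq' : ℓ * (∑ i, c i ^ 2) - 4 * S ^ 2 ≤
      -∑ i, ∑ j, c i * c j * Real.log (|(x i : ℝ) - x j|) := by
    refine hq.trans (le_of_eq ?_)
    simp only [Int.cast_natCast]
  set Q := ∑ i, ∑ j, c i * c j * Real.log (|(x i : ℝ) - x j|) with hQ
  have hc2 : 1 ≤ ∑ i, c i ^ 2 := by
    obtain ⟨i, hi⟩ := hc1
    have k1 := Finset.single_le_sum (f := fun i => c i ^ 2) (fun i _ => sq_nonneg _)
      (Finset.mem_univ i)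
    have k2 : 1 ≤ c i ^ 2 := by rw [← sq_abs]; exact one_le_pow₀ hi
    exact k2.trans k1
  have hpi2a : 1 / 10 ≤ 1 / Real.pi ^ 2 := by
    apply one_div_le_one_div_of_le (by positivity)
    nlinarith
  have hpi2b : 1 / Real.pi ^ 2 ≤ 1 / 9 := by
    apply one_div_le_one_div_of_le (by norm_num)
    nlinarith
  obtain ⟨v1, v2⟩ := abs_le.1 hv
  have k5 : C1 * S ^ 2 ≤ C1 * S0 ^ 2 := mul_le_mul_of_nonneg_left hS2 hC1
  constructor
  · have k1 : ℓ ≤ ℓ * (∑ i, c i ^ 2) := le_mul_of_one_le_right hℓ0.le hc2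
    have k2 : 1 / Real.pi ^ 2 * (ℓ - 4 * S ^ 2) ≤ 1 / Real.pi ^ 2 * (-Q) :=
      mul_le_mul_of_nonneg_left (by linarith) (by positivity)
    have k3 : 1 / Real.pi ^ 2 * (4 * S ^ 2) ≤ 1 / 9 * (4 * S0 ^ 2) := by gcongr
    have k4 : 1 / 10 * ℓ ≤ 1 / Real.pi ^ 2 * ℓ := mul_le_mul_of_nonneg_right hpi2a hℓ0.le
    have k6 : 20 * S0 ^ 2 * (1 / 2 + C1) ≤ ℓ := by linarith
    have k7 : 1 / Real.pi ^ 2 * (ℓ - 4 * S ^ 2) = 1 / Real.pi ^ 2 * ℓ - 1 / Real.pi ^ 2 * (4 * S ^ 2) := by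
      ring
    have k8 : 20 * S0 ^ 2 * (1 / 2 + C1) = 10 * S0 ^ 2 + 20 * (C1 * S0 ^ 2) := by ring
    have k9 : 1 / Real.pi ^ 2 * (-Q) = -(1 / Real.pi ^ 2 * Q) := by ring
    rw [k9] at k2
    have k10 : 0 ≤ S0 ^ 2 := sq_nonneg _
    linarith
  · have k1 : -Q ≤ A * ℓ * S ^ 2 := by
      have k2 : |Q| ≤ A * ℓ * S ^ 2 := by
        rw [hQ]
        refine (Finset.abs_sum_le_sum_abs _ _).trans ?_
        rw [sq S, hSd, Finset.sum_mul_sum, Finset.mul_sum]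
        refine Finset.sum_le_sum fun i _ => ?_
        refine (Finset.abs_sum_le_sum_abs _ _).trans ?_
        rw [Finset.mul_sum]
        refine Finset.sum_le_sum fun j _ => ?_
        rw [abs_mul, abs_mul, abs_of_nonneg (hdl i j).1]
        refine (mul_le_mul_of_nonneg_left (hdl i j).2.1 (by positivity)).trans (le_of_eq ?_)
        ring
      exact (neg_le_abs _).trans k2
    have k3 : 1 / Real.pi ^ 2 * (-Q) ≤ 1 * (A * ℓ * S0 ^ 2) := by
      have k4 : A * ℓ * S ^ 2 ≤ A * ℓ * S0 ^ 2 := by gcongr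
      calc 1 / Real.pi ^ 2 * (-Q) ≤ 1 / Real.pi ^ 2 * (A * ℓ * S0 ^ 2) :=
            mul_le_mul_of_nonneg_left (k1.trans k4) (by positivity)
        _ ≤ 1 * (A * ℓ * S0 ^ 2) := by
            apply mul_le_mul_of_nonneg_right _ (by positivity)
            linarith
    have k6 : C1 ≤ ℓ := by linarith
    have k7 : C1 * S0 ^ 2 ≤ ℓ * S0 ^ 2 := mul_le_mul_of_nonneg_right k6 (sq_nonneg _)
    have k9 : 1 / Real.pi ^ 2 * (-Q) = -(1 / Real.pi ^ 2 * Q) := by ring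
    rw [k9] at k3
    have k10 : S0 ^ 2 * (A + 1) * ℓ = 1 * (A * ℓ * S0 ^ 2) + ℓ * S0 ^ 2 := by ring
    linarith

/-- the characteristic function of a linear form at one point -/
lemma cf_one {Y P : ℝ → ℝ} (hYLB : LB Y) (hPc : Continuous P) {a0 b0 T u E2 V S0 C2 C3 C4 C5 K ℓ δ
    ε : ℝ} {M : ℕ} (hab : a0 ≤ b0)
    (hbaT : b0 - a0 ≤ T) (hu0 : 0 ≤ u) (hu1 : u ≤ 1 / (δ * Real.sqrt ℓ)) (hT : 10 ≤ T) (hδ : 0 < δ)
    (hε : 0 < ε) (hℓ0 : 0 < ℓ) (hE2 : E2 = C2 * S0 ^ 2 * T) (hC2 : 0 ≤ C2)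
    (hE : ∫ t in a0..b0, (Y t + P t) ^ 2 ≤ E2)
    (hcf : ‖(∫ t in a0..b0, cexp (I * ((u * (-P t) : ℝ) : ℂ))) -
      (((b0 - a0) * Real.exp (-(u ^ 2 * V / 4)) : ℝ) : ℂ)‖ ≤
      T * (K ^ M / M.factorial * 3) + T * (u ^ 2 * (M * (M ^ 2 * (1 + K) ^ M) * S0 ^ 2)) +
        8 * (Real.sqrt T * (1 + Real.log T)) * ((2 * M + 1) * (1 + K) ^ (2 * M)))
    (hM1 : K ^ M / M.factorial < ε / 192) (hK0 : 0 ≤ K)
    (hC3 : C3 = M * (M ^ 2 * (1 + K) ^ M) * (S0 ^ 2 / δ ^ 2))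
    (hC4 : C4 = (2 * M + 1) * (1 + K) ^ (2 * M)) (hC40 : 0 < C4)
    (hC5 : C5 = 64 * (C2 * S0 ^ 2 + 1) / (δ * ε)) (hC50 : 0 < C5)
    (hD3 : 64 * C3 / ε ≤ ℓ) (hD5 : C5 ^ 2 ≤ ℓ)
    (g0 : Real.sqrt T * (1 + Real.log T) / T < ε / (512 * C4)) (hV : ℓ / 20 ≤ V) :
    ‖∫ t in a0..b0, cexp (I * ((u * Y t : ℝ) : ℂ))‖ ≤
      (b0 - a0) * Real.exp (-(ℓ / 80 * u ^ 2)) + ε / 16 * T := by
  have hT0 : 0 < T := by linarith
  have hsℓ : 0 < Real.sqrt ℓ := Real.sqrt_pos.2 hℓ0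
  have hsℓ2 : Real.sqrt ℓ ^ 2 = ℓ := Real.sq_sqrt hℓ0.le
  have hu2 : u ^ 2 ≤ 1 / (δ ^ 2 * ℓ) := by
    have k1 := pow_le_pow_left₀ hu0 hu1 2
    have e : (1 / (δ * Real.sqrt ℓ)) ^ 2 = 1 / (δ ^ 2 * ℓ) := by
      rw [div_pow, one_pow, mul_pow, hsℓ2]
    rwa [e] at k1
  have e1 : T * (K ^ M / M.factorial * 3) ≤ ε / 64 * T := by
    have k1 : K ^ M / M.factorial * 3 ≤ ε / 64 := by linarith
    calc _ ≤ T * (ε / 64) := mul_le_mul_of_nonneg_left k1 hT0.le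
      _ = _ := mul_comm _ _
  have e2 : T * (u ^ 2 * (M * (M ^ 2 * (1 + K) ^ M) * S0 ^ 2)) ≤ ε / 64 * T := by
    have k2 : u ^ 2 * (M * (M ^ 2 * (1 + K) ^ M) * S0 ^ 2) ≤
        1 / (δ ^ 2 * ℓ) * (M * (M ^ 2 * (1 + K) ^ M) * S0 ^ 2) := by gcongr
    have k3 : 1 / (δ ^ 2 * ℓ) * (M * (M ^ 2 * (1 + K) ^ M) * S0 ^ 2) = C3 / ℓ := by
      rw [hC3]; field_simp
    have k4 : C3 / ℓ ≤ ε / 64 := by
      rw [div_le_iff₀ hℓ0]
      rw [div_le_iff₀ hε] at hD3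
      linarith
    rw [k3] at k2
    calc _ ≤ T * (ε / 64) := mul_le_mul_of_nonneg_left (k2.trans k4) hT0.le
      _ = _ := mul_comm _ _
  have e3 : 8 * (Real.sqrt T * (1 + Real.log T)) * ((2 * M + 1) * (1 + K) ^ (2 * M)) ≤
      ε / 64 * T := by
    rw [← hC4]
    rw [div_lt_div_iff₀ hT0 (by positivity)] at g0
    linarith
  have e4 := cf_step hYLB hPc hab hbaT hu0 hE
  have e4' : u * ((E2 + T) / 2) ≤ ε / 64 * T := by
    have k3 : 0 ≤ (C2 * S0 ^ 2 + 1) * T := by positivity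
    have k4 : u * ((E2 + T) / 2) ≤ u * ((C2 * S0 ^ 2 + 1) * T) := by
      apply mul_le_mul_of_nonneg_left _ hu0
      rw [hE2]
      have k5 : (C2 * S0 ^ 2 + 1) * T = C2 * S0 ^ 2 * T + T := by ring
      rw [k5] at k3 ⊢
      linarith
    have k5 : u * ((C2 * S0 ^ 2 + 1) * T) ≤ 1 / (δ * Real.sqrt ℓ) * ((C2 * S0 ^ 2 + 1) * T) :=
      mul_le_mul_of_nonneg_right hu1 k3
    have k6 : C5 ≤ Real.sqrt ℓ := by
      rw [Real.le_sqrt hC50.le hℓ0.le]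
      exact hD5
    have k7 : 1 / (δ * Real.sqrt ℓ) * ((C2 * S0 ^ 2 + 1) * T) ≤ ε / 64 * T := by
      have k8 : 64 * (C2 * S0 ^ 2 + 1) ≤ Real.sqrt ℓ * (δ * ε) := by
        rw [hC5, div_le_iff₀ (by positivity)] at k6
        exact k6
      rw [one_div, inv_mul_le_iff₀ (by positivity)]
      have k9 : (C2 * S0 ^ 2 + 1) * T ≤ Real.sqrt ℓ * (δ * ε) / 64 * T := by
        apply mul_le_mul_of_nonneg_right _ hT0.le
        linarith
      calc _ ≤ _ := k9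
        _ = _ := by ring
    exact k4.trans (k5.trans k7)
  have e5 : (b0 - a0) * Real.exp (-(u ^ 2 * V / 4)) ≤
      (b0 - a0) * Real.exp (-(ℓ / 80 * u ^ 2)) := by
    apply mul_le_mul_of_nonneg_left _ (sub_nonneg.2 hab)
    apply Real.exp_le_exp.2
    have : u ^ 2 * (ℓ / 20) ≤ u ^ 2 * V := mul_le_mul_of_nonneg_left hV (sq_nonneg _)
    linarith
  set I1 := ∫ t in a0..b0, cexp (I * ((u * Y t : ℝ) : ℂ)) with hI1
  set I2 := ∫ t in a0..b0, cexp (I * ((u * (-P t) : ℝ) : ℂ)) with hI2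
  set W : ℝ := (b0 - a0) * Real.exp (-(u ^ 2 * V / 4)) with hWd
  have hW0 : 0 ≤ W := mul_nonneg (sub_nonneg.2 hab) (Real.exp_pos _).le
  have n1 : ‖I1‖ ≤ ‖I1 - I2‖ + ‖I2 - (W : ℂ)‖ + ‖(W : ℂ)‖ := by
    have e : I1 = (I1 - I2) + (I2 - (W : ℂ)) + (W : ℂ) := by ring
    calc ‖I1‖ = ‖(I1 - I2) + (I2 - (W : ℂ)) + (W : ℂ)‖ := by rw [← e]
      _ ≤ _ := norm_add₃_le
  have n2 : ‖(W : ℂ)‖ = W := by rw [Complex.norm_real, Real.norm_of_nonneg hW0]
  rw [n2] at n1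
  linarith

theorem small_ball (A : ℕ) (C ε : ℝ) (hC : 0 ≤ C) (hε : 0 < ε) : ∃ δ r0 T0 : ℝ, 0 < δ ∧ 3 ≤ r0 ∧
    10 ≤ T0 ∧ ∀ T : ℝ, T0 ≤ T → ∀ r : ℝ, r0 ≤ r → r ^ (A + 1) ≤ 3 * Real.log T →
    ∀ x : ι → ℕ, (∀ i j, i ≠ j → r ≤ |(x i : ℝ) - x j|) → (∀ i, (x i : ℝ) ≤ r ^ A) →
    ∀ c : ι → ℝ, ∑ i, c i = 0 → (∀ i, |c i| ≤ C) → (∃ i, 1 ≤ |c i|) → ∀ b : ℝ,
    volume.real {t ∈ Set.Ioc (T + Real.log T) (2 * T - Real.log T - 7) |
      |∑ i, c i * Gf (2 * Real.pi / Real.log T) t (x i) - b| ≤ δ * Real.sqrt (Real.log r)} ≤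
        ε * T := by
  classical
  obtain ⟨S0, hS0⟩ : ∃ S0 : ℝ, S0 = C * Fintype.card ι + 1 := ⟨_, rfl⟩
  have hS1 : 1 ≤ S0 := by rw [hS0]; linarith [mul_nonneg hC (Nat.cast_nonneg (Fintype.card ι))]
  obtain ⟨δ, hδ⟩ : ∃ δ : ℝ, δ = ε / 200 := ⟨_, rfl⟩
  have hδ0 : 0 < δ := by rw [hδ]; positivity
  obtain ⟨K, hK⟩ : ∃ K : ℝ, K = S0 ^ 2 * (A + 1) / δ ^ 2 := ⟨_, rfl⟩
  have hK0 : 0 ≤ K := by rw [hK]; positivity
  have h1 := FloorSemiring.tendsto_pow_div_factorial_atTop K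
  have h2 : ∀ᶠ n : ℕ in atTop, K ^ n / n.factorial < ε / 192 :=
    h1.eventually (gt_mem_nhds (by positivity))
  obtain ⟨M0, hM0⟩ := exists_nat_ge (2 * K)
  obtain ⟨M, hM1, hM2⟩ := (h2.and (eventually_ge_atTop M0)).exists
  have hKM : K ≤ M / 2 := by
    have : (M0 : ℝ) ≤ M := by exact_mod_cast hM2
    linarith
  obtain ⟨lam0, hlam0, hWM⟩ := wmom_all
  obtain ⟨lam, hlamd⟩ : ∃ lam : ℝ, lam = max lam0 (2 * M) := ⟨_, rfl⟩
  have hlama : lam0 ≤ lam := by rw [hlamd]; exact le_max_left _ _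
  have hlamb : 2 * (M : ℝ) ≤ lam := by rw [hlamd]; exact le_max_right _ _
  have hlam16 : 16 ≤ lam := hlam0.trans hlama
  have hlamp : 0 < lam := by linarith
  have hW := hWM lam hlama
  obtain ⟨C1, T1, hC1, hT1, hvar⟩ := var_pr (ι := ι) hlam16 1 le_rfl
  obtain ⟨C2, T2, hC2, hT2, happ⟩ := approx (ι := ι) hlam16 hW
  obtain ⟨r1, hr1, hlin⟩ := lin_log A
  obtain ⟨C3, hC3⟩ : ∃ C3 : ℝ, C3 = M * (M ^ 2 * (1 + K) ^ M) * (S0 ^ 2 / δ ^ 2) := ⟨_, rfl⟩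
  have hC30 : 0 ≤ C3 := by rw [hC3]; positivity
  obtain ⟨C4, hC4⟩ : ∃ C4 : ℝ, C4 = (2 * M + 1) * (1 + K) ^ (2 * M) := ⟨_, rfl⟩
  have hC40 : 0 < C4 := by rw [hC4]; positivity
  obtain ⟨C5, hC5⟩ : ∃ C5 : ℝ, C5 = 64 * (C2 * S0 ^ 2 + 1) / (δ * ε) := ⟨_, rfl⟩
  have hC50 : 0 < C5 := by rw [hC5]; positivity
  obtain ⟨D0, hD0⟩ : ∃ D0 : ℝ, D0 = 20 * S0 ^ 2 * (1 / 2 + C1) + C1 + 64 * C3 / ε + C5 ^ 2 := ⟨_, rfl⟩
  have hpos1 : 0 ≤ 20 * S0 ^ 2 * (1 / 2 + C1) := by positivity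
  have hpos3 : 0 ≤ 64 * C3 / ε := by positivity
  have hpos5 : 0 ≤ C5 ^ 2 := by positivity
  have herr := Pool.Agent.Y41.SW.err_tendsto
  have ev0 : ∀ᶠ T : ℝ in atTop, Real.sqrt T * (1 + Real.log T) / T < ε / (512 * C4) :=
    herr.eventually (gt_mem_nhds (by positivity))
  have ev1 : ∀ᶠ T : ℝ in atTop, 2 * Real.log T + 7 ≤ T / 2 := by
    have h1 : (fun T : ℝ => 2 * Real.log T + 7) =o[atTop] fun T : ℝ => T :=
      (Real.isLittleO_log_id_atTop.const_mul_left 2).add (Asymptotics.isLittleO_const_id_atTop _)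
    have h2 := h1.bound (c := 1 / 2) (by norm_num)
    filter_upwards [h2, eventually_ge_atTop 1] with T hT hT1
    rw [Real.norm_of_nonneg (by linarith : (0 : ℝ) ≤ T)] at hT
    have := (le_abs_self _).trans hT
    linarith
  obtain ⟨T3, hT3⟩ := (ev0.and ev1).exists_forall_of_atTop
  refine ⟨δ, max (max r1 lam) (Real.exp D0), max (max T1 T2) T3, hδ0,
    hr1.trans ((le_max_left _ _).trans (le_max_left _ _)),
    hT1.trans ((le_max_left _ _).trans (le_max_left _ _)), ?_⟩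
  intro T hT r hr hrT x hx hxA c hc hcC hc1 b
  have hTT1 : T1 ≤ T := ((le_max_left _ _).trans (le_max_left _ _)).trans hT
  have hTT2 : T2 ≤ T := ((le_max_right _ _).trans (le_max_left _ _)).trans hT
  obtain ⟨g0, g1⟩ := hT3 T ((le_max_right _ _).trans hT)
  have hrr1 : r1 ≤ r := ((le_max_left _ _).trans (le_max_left _ _)).trans hr
  have hrlam : lam ≤ r := ((le_max_right _ _).trans (le_max_left _ _)).trans hr
  have hr3 : 3 ≤ r := hr1.trans hrr1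
  have hr0 : 0 < r := by linarith
  have hrD : D0 ≤ Real.log r := by
    rw [Real.le_log_iff_exp_le hr0]
    exact (le_max_right _ _).trans hr
  have hl3 := hlin r hrr1
  rw [hD0] at hrD
  have hℓ0 : 0 < Real.log r := Real.log_pos (by linarith)
  have hT10 : 10 ≤ T := hT1.trans hTT1
  have hT0 : 0 < T := by linarith
  have hSS : ∑ i, |c i| ≤ S0 := by
    have k1 : ∑ i, |c i| ≤ ∑ _i : ι, C := Finset.sum_le_sum fun i _ => hcC i
    rw [Finset.sum_const, Finset.card_univ, nsmul_eq_mul] at k1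
    rw [hS0]
    linarith
  have hSn : 0 ≤ ∑ i, |c i| := Finset.sum_nonneg fun i _ => abs_nonneg _
  have hS2 : (∑ i, |c i|) ^ 2 ≤ S0 ^ 2 := pow_le_pow_left₀ hSn hSS 2
  have hdl := dist_log hr3 hl3 hrT x hx hxA
  have hxL : ∀ i, (x i : ℝ) ≤ Real.log T := by
    intro i
    have k1 : r ^ A * 3 ≤ r ^ A * r := mul_le_mul_of_nonneg_left hr3 (by positivity)
    have k2 : r ^ A * r = r ^ (A + 1) := (pow_succ r A).symm
    have k3 := hxA i
    linarith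
  have hv := hvar T hTT1 c (fun i => (x i : ℤ)) hc
    (fun i j hij => by push_cast; exact hrlam.trans (hx i j hij))
    (fun i j => by push_cast; rw [one_mul]; exact (hdl i j).2.2)
  simp only [Int.cast_natCast] at hv
  obtain ⟨hVlow, hVup⟩ := var_bd hr3 hl3 hrT x hx hxA c hc hSS hc1 hC1.le
    (by linarith) hv
  have happ' := happ T hTT2 c x hxL
  have happ'' : C2 * (∑ i, |c i|) ^ 2 * T ≤ C2 * S0 ^ 2 * T := by gcongr
  set V1 := ∑ n ∈ Pr (YT (Real.log T / lam)), ‖kc (Real.log T / lam) c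
        (fun i => 2 * Real.pi * x i / Real.log T) n‖ ^ 2 with hV1
  set P : ℝ → ℝ := fun t => (PS (Real.log T / lam) c
          (fun i => 2 * Real.pi * x i / Real.log T) t).re with hP
  set Y : ℝ → ℝ := fun t => ∑ i, c i * Gf (2 * Real.pi / Real.log T) t (x i) with hY
  have hYLB : LB Y := LB.sum _ fun i _ => (Gf_LB _ (x i)).cmul (c i)
  have hPc : Continuous P := by
    simp only [hP]
    unfold PS
    refine Complex.continuous_re.comp (dsum_cont _ ?_ _)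
    intro n hn
    exact (mem_Pr.1 hn).1.one_le
  set ℓ := Real.log r with hℓ
  set a0 := T + Real.log T with ha0
  set b0 := 2 * T - Real.log T - 7 with hb0
  have hL0 : 0 < Real.log T := Real.log_pos (by linarith)
  have hab : a0 ≤ b0 := by rw [ha0, hb0]; linarith
  have hbaT : b0 - a0 ≤ T := by rw [ha0, hb0]; linarith
  have hsℓ : 0 < Real.sqrt ℓ := Real.sqrt_pos.2 hℓ0
  have hsℓ2 : Real.sqrt ℓ ^ 2 = ℓ := Real.sq_sqrt hℓ0.le
  have hfin := conc (Y := Y) hYLB.1 (b := b) (δ := δ * Real.sqrt ℓ) (s := ℓ / 80) (E := ε / 16 * T)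
    hab (by positivity) (by positivity) (by positivity) ?_
  · refine hfin.trans ?_
    have k1 : δ * Real.sqrt ℓ / Real.sqrt (ℓ / 80) ≤ 9 * δ := by
      rw [Real.sqrt_div hℓ0.le]
      have k2 : Real.sqrt 80 ≤ 9 := by
        rw [Real.sqrt_le_left (by norm_num)]
        norm_num
      have k3 : 0 < Real.sqrt 80 := Real.sqrt_pos.2 (by norm_num)
      have e : δ * Real.sqrt ℓ / (Real.sqrt ℓ / Real.sqrt 80) = δ * Real.sqrt 80 := by
        field_simp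
      rw [e, mul_comm 9 δ]
      exact mul_le_mul_of_nonneg_left k2 hδ0.le
    have k2 : (b0 - a0) * (δ * Real.sqrt ℓ / Real.sqrt (ℓ / 80)) ≤ T * (9 * δ) :=
      mul_le_mul hbaT k1 (by positivity) hT0.le
    have k3 : T * (9 * δ) = 9 / 200 * (ε * T) := by rw [hδ]; ring
    have k4 : 0 < ε * T := by positivity
    linarith
  · intro u hu0 hu1
    have hVK : u ^ 2 * V1 ≤ K := by
      have hu2 : u ^ 2 ≤ 1 / (δ ^ 2 * ℓ) := by
        have k1 := pow_le_pow_left₀ hu0 hu1 2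
        have e : (1 / (δ * Real.sqrt ℓ)) ^ 2 = 1 / (δ ^ 2 * ℓ) := by
          rw [div_pow, one_pow, mul_pow, hsℓ2]
        rwa [e] at k1
      calc u ^ 2 * V1 ≤ 1 / (δ ^ 2 * ℓ) * (S0 ^ 2 * (A + 1) * ℓ) := by
            apply mul_le_mul hu2 hVup _ (by positivity)
            linarith
        _ = K := by rw [hK]; field_simp
    have hcf := cf_prime c (fun i => 2 * Real.pi * x i / Real.log T) hlam16 hlamb hT10 hab hbaT hu0
      hSS hK0 hKM hVK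
    exact cf_one (V := V1) hYLB hPc hab hbaT hu0 hu1 hT10 hδ0 hε hℓ0 rfl hC2.le
      (happ'.trans happ'') hcf hM1 hK0 hC3 hC4 hC40 hC5 hC50 (by linarith) (by linarith) g0 hVlow

end Pool.Agent.W2helper67.RL
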