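import Pool.Agent.W2helper93.NV.Mom
import Pool.Agent.W2helper93.NV.Var2

set_option autoImplicit false

/-! # The second moment of the weighted counts for all large parameters, and the mean square error -/

namespace Pool.Agent.W2helper67.RL

open Complex Filter Topology MeasureTheory Set
open Pool.Agent.TH850.UV
open Pool.Agent.W2helper93.NV
open H370 (zz hh mult Zf zset AA good_zeta mem_Zf)
open Pool.Agent.Q97.UM (SS ZD mz dp N2 S_STM b_TAIL)

theorem wmom_all : ∃ lam0 : ℝ, 16 ≤ lam0 ∧ ∀ lam : ℝ, lam0 ≤ lam → WMom lam := by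
  obtain ⟨θ, c, C, hθ, hθ1, hc, hC, hTB⟩ := b_TAIL
  set δ0 : ℝ := min (c / 48) (1 / 64) with hδ
  have hδ00 : 0 < δ0 := by rw [hδ]; positivity
  refine ⟨1 / (4 * δ0), ?_, fun lam hlam => ?_⟩
  · rw [le_div_iff₀ (by positivity)]
    have : δ0 ≤ 1 / 64 := min_le_right _ _
    linarith
  have hlam00 : 16 ≤ 1 / (4 * δ0) := by
    rw [le_div_iff₀ (by positivity)]
    have : δ0 ≤ 1 / 64 := min_le_right _ _
    linarith
  have hlam16 : 16 ≤ lam := hlam00.trans hlam
  have hlam0 : 0 < lam := by linarith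
  obtain ⟨δ, hδd⟩ : ∃ δ : ℝ, δ = 1 / (4 * lam) := ⟨_, rfl⟩
  have hδ0 : 0 < δ := by rw [hδd]; positivity
  have hδle : δ ≤ δ0 := by
    rw [hδd, div_le_iff₀ (by positivity)]
    rw [div_le_iff₀ (by positivity)] at hlam
    linarith
  have hδc : 48 * δ ≤ c := by
    have := min_le_left (c / 48) (1 / 64 : ℝ)
    rw [← hδ] at this
    linarith
  obtain ⟨C', hC', hst⟩ := stm θ c C hθ hθ1 hc hC hTB 2 δ hδ0 (by push_cast; linarith)
  obtain ⟨T0, hT0⟩ := eventually_atTop.1 hst
  have hd : 1 ≤ 4 * δ * lam := by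
    rw [hδd]
    apply le_of_eq
    field_simp
  refine ⟨(2 * (2 * Real.pi * lam) ^ 2) ^ 2 * (C' + 1), max T0 16, ?_, ?_, ?_⟩
  · have hpi := Real.pi_pos
    positivity
  · exact (by norm_num : (10 : ℝ) ≤ 16).trans (le_max_right _ _)
  intro T hT U1 U2 h1 h2
  have hTT := (le_max_left _ _).trans hT
  have hT16 : 16 ≤ T := (le_max_right _ _).trans hT
  have hL0 : 0 < Real.log T := Real.log_pos (by linarith)
  have k := hT0 T hTT 1 (by
    push_cast
    exact Real.one_le_rpow (by linarith) (by positivity)) (fun _ => 1)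
  have e1 : ∀ t, dp 1 (fun _ => 1) t = 1 := by
    intro t
    unfold dp
    simp
  have e2 : N2 1 (fun _ => 1) = 1 := by
    unfold N2
    simp
  simp only [e1, e2, norm_one, one_pow, mul_one] at k
  have hSc : Continuous (SS δ T) := Pool.Agent.Q257.UM.SS_cont hL0.le
  have h3 : ∫ t in (T / 2)..(4 * T), WW (Real.log T / lam) (Zf riemannZeta U1 U2) t ^ 2 ≤
      ∫ t in (T / 2)..(4 * T), (2 * (2 * Real.pi * lam) ^ 2) ^ 2 * SS δ T t ^ 2 := by
    refine intervalIntegral.integral_mono_on (by linarith)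
      (((WW_cont _ _).pow 2).intervalIntegrable _ _)
      ((continuous_const.mul (hSc.pow 2)).intervalIntegrable _ _) fun t _ => ?_
    rw [← mul_pow]
    exact pow_le_pow_left₀ (WW_nonneg _ _ _)
      (WW_le_SS (by linarith) hδ0 hd hT16 h1 h2 t) 2
  rw [intervalIntegral.integral_const_mul] at h3
  have h4 : ∫ t in (T / 2)..(4 * T), SS δ T t ^ 2 ≤ ∫ t in (T / 4)..(8 * T), SS δ T t ^ 2 :=
    sub_int (hSc.pow 2) (fun t => sq_nonneg _) (by linarith) (by linarith) (by linarith)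
  have h5 : 0 ≤ (2 * (2 * Real.pi * lam) ^ 2) ^ 2 := sq_nonneg _
  have h6 : C' * T ≤ (C' + 1) * T := by nlinarith
  refine (h3.trans (mul_le_mul_of_nonneg_left (h4.trans (k.trans h6)) h5)).trans (le_of_eq ?_)
  ring

/-- the count minus its mean value plus the prime sum is small in mean square -/
theorem err2 {lam : ℝ} (hlam : 16 ≤ lam) (hW : WMom lam) : ∃ C T0 : ℝ, 0 < C ∧ 10 ≤ T0 ∧
    ∀ T : ℝ, T0 ≤ T → ∃ U1 U2 : ℝ, T ≤ U1 ∧ U1 ≤ T + 1 ∧ 2 * T - 1 ≤ U2 ∧ U2 ≤ 2 * T ∧
      ∀ h : ℝ, 0 ≤ h → h ≤ 7 →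
        ∫ t in (T + Real.log T)..(2 * T - Real.log T - 7),
          (Nb (Zf riemannZeta U1 U2) (t + h) - Nb (Zf riemannZeta U1 U2) t -
            Real.log T / (2 * Real.pi) * h + Db (Real.log T / lam) h (XT T) t) ^ 2 ≤ C * T := by
  obtain ⟨C1, T1, hC1, hT1, hdec⟩ := dec hlam
  obtain ⟨Cw, T2, hCw, hT2, hWm⟩ := hW
  obtain ⟨Ce, hCe, hEEle⟩ := EE_le
  have hpi := Real.pi_pos
  have hlam0 : 0 < lam := by linarith
  have ev1 : ∀ᶠ T : ℝ in atTop, 2 * Real.log T + 7 ≤ T / 2 := by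
    have h1 : (fun T : ℝ => 2 * Real.log T + 7) =o[atTop] fun T : ℝ => T :=
      (Real.isLittleO_log_id_atTop.const_mul_left 2).add (Asymptotics.isLittleO_const_id_atTop _)
    have h2 := h1.bound (c := 1 / 2) (by norm_num)
    filter_upwards [h2, eventually_ge_atTop 1] with T hT hT1
    rw [Real.norm_of_nonneg (by linarith : (0 : ℝ) ≤ T)] at hT
    have := (le_abs_self _).trans hT
    linarith
  obtain ⟨T5, hT5⟩ := ev1.exists_forall_of_atTop
  refine ⟨2 * (196 * C1 ^ 2 * (1 + Cw)) + 2 * (4 * Ce ^ 2 * Cw), max (max T1 T2) T5,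
    by positivity, hT1.trans ((le_max_left _ _).trans (le_max_left _ _)), fun T hT => ?_⟩
  have hTT1 : T1 ≤ T := ((le_max_left _ _).trans (le_max_left _ _)).trans hT
  have hTT2 : T2 ≤ T := ((le_max_right _ _).trans (le_max_left _ _)).trans hT
  have g1 := hT5 T ((le_max_right _ _).trans hT)
  obtain ⟨U1, U2, hU1, hU1', hU2, hU2', hd⟩ := hdec T hTT1
  refine ⟨U1, U2, hU1, hU1', hU2, hU2', fun h hh0 hh7 => ?_⟩
  have hT10 : 10 ≤ T := hT1.trans hTT1
  have hT0 : 0 < T := by linarith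
  set L := Real.log T with hL
  have hL1 : 1 ≤ L := by
    rw [hL, Real.le_log_iff_exp_le hT0]
    have := Real.exp_one_lt_d9
    linarith
  have hL0 : 0 < L := by linarith
  set l := L / lam with hl
  have hl0 : 0 < l := by positivity
  set S := Zf riemannZeta U1 U2 with hS
  set X := XT T with hX
  set a0 := T + L with ha0
  set b0 := 2 * T - L - 7 with hb0
  have hab : a0 ≤ b0 := by rw [ha0, hb0]; linarith
  have hWc := WW_cont l S
  have hW2c : Continuous fun t => WW l S t ^ 2 := hWc.pow 2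
  have hW2 := hWm T hTT2 U1 U2 hU1 hU2'
  have hWsub : ∀ c d : ℝ, T / 2 ≤ c → c ≤ d → d ≤ 4 * T → ∫ t in c..d, WW l S t ^ 2 ≤ Cw * T :=
    fun c d h1 h2 h3 => (sub_int hW2c (fun t => sq_nonneg _) h1 h2 h3).trans hW2
  set E : ℝ → ℝ := fun t => EE l S (t + h) - EE l S t with hE
  set g : ℝ → ℝ := fun t => Nb S (t + h) - Nb S t - L / (2 * Real.pi) * h + Db l h X t with hg
  set r : ℝ → ℝ := fun t => g t + E t with hr
  have bD : BM (fun t => Db l h X t) := ⟨(Db_contt l h X).measurable, X, fun t => Db_bd hl0 h X t⟩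
  have bg : BM g := ((((Nb_BM S).shift h).sub (Nb_BM S)).sub (BM.const _)).add bD
  have bE : BM E := ((EE_BM hl0 S).shift h).sub (EE_BM hl0 S)
  have br : BM r := bg.add bE
  have hbaT : b0 - a0 ≤ T := by rw [ha0, hb0]; linarith
  have hba0 : 0 ≤ b0 - a0 := by linarith
  have q1 : ∫ t in a0..b0, r t ^ 2 ≤ 196 * C1 ^ 2 * (1 + Cw) * T := by
    have h1 : ∀ t ∈ Set.Icc a0 b0, r t ^ 2 ≤ 2 * C1 ^ 2 * h ^ 2 +
        2 * C1 ^ 2 / L ^ 2 * (h * ∫ τ in t..(t + h), WW l S τ ^ 2) := by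
      intro t ht
      have h3 : |r t| ≤ C1 * h + C1 / L * ∫ τ in t..(t + h), WW l S τ :=
        hd h hh0 hh7 t ht.1 ht.2
      have h4 := cs_int hWc (t := t) hh0
      have h5 : 0 ≤ ∫ τ in t..(t + h), WW l S τ :=
        intervalIntegral.integral_nonneg (by linarith) fun τ _ => WW_nonneg l S τ
      set J := ∫ τ in t..(t + h), WW l S τ with hJ
      calc r t ^ 2 = |r t| ^ 2 := (sq_abs _).symm
        _ ≤ (C1 * h + C1 / L * J) ^ 2 := by
            apply pow_le_pow_left₀ (abs_nonneg _) h3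
        _ ≤ 2 * (C1 * h) ^ 2 + 2 * (C1 / L * J) ^ 2 := by nlinarith only [sq_nonneg (C1 * h - C1 / L * J)]
        _ = 2 * C1 ^ 2 * h ^ 2 + 2 * C1 ^ 2 / L ^ 2 * J ^ 2 := by ring
        _ ≤ _ := by gcongr
    have hmc : Continuous fun t => ∫ τ in t..(t + h), WW l S τ ^ 2 := by
      have e : (fun t => ∫ τ in t..(t + h), WW l S τ ^ 2) = fun t =>
          (∫ τ in (0 : ℝ)..(t + h), WW l S τ ^ 2) - ∫ τ in (0 : ℝ)..t, WW l S τ ^ 2 := by
        funext t
        rw [intervalIntegral.integral_interval_sub_left (hW2c.intervalIntegrable _ _)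
          (hW2c.intervalIntegrable _ _)]
      rw [e]
      have c1 : Continuous fun x => ∫ τ in (0 : ℝ)..x, WW l S τ ^ 2 :=
        intervalIntegral.continuous_primitive (fun x y => hW2c.intervalIntegrable x y) 0
      exact (c1.comp (continuous_id.add continuous_const)).sub c1
    have i1 : IntervalIntegrable (fun _ : ℝ => 2 * C1 ^ 2 * h ^ 2) volume a0 b0 :=
      continuous_const.intervalIntegrable _ _
    have i2 : IntervalIntegrable (fun t => 2 * C1 ^ 2 / L ^ 2 *
        (h * ∫ τ in t..(t + h), WW l S τ ^ 2)) volume a0 b0 :=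
      (continuous_const.mul (continuous_const.mul hmc)).intervalIntegrable _ _
    have h6 : ∫ t in a0..b0, r t ^ 2 ≤ ∫ t in a0..b0, (2 * C1 ^ 2 * h ^ 2 +
        2 * C1 ^ 2 / L ^ 2 * (h * ∫ τ in t..(t + h), WW l S τ ^ 2)) := by
      refine intervalIntegral.integral_mono_on hab ?_ (i1.add i2) h1
      simp_rw [sq (r _)]
      exact (br.mul br).ii _ _
    rw [intervalIntegral.integral_add i1 i2, intervalIntegral.integral_const,
      intervalIntegral.integral_const_mul, intervalIntegral.integral_const_mul, smul_eq_mul] at h6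
    have h7 := moving hW2c (fun t => sq_nonneg _) hab hh0
    have h8 : ∫ τ in a0..(b0 + h), WW l S τ ^ 2 ≤ Cw * T :=
      hWsub _ _ (by rw [ha0]; linarith) (by linarith) (by rw [hb0]; linarith)
    have h9 : (b0 - a0) * (2 * C1 ^ 2 * h ^ 2) + 2 * C1 ^ 2 / L ^ 2 *
        (h * ∫ t in a0..b0, ∫ τ in t..(t + h), WW l S τ ^ 2) ≤
        T * (2 * C1 ^ 2 * h ^ 2) + 2 * C1 ^ 2 / 1 * (h * (h * (Cw * T))) := by
      have hL2 : 1 ≤ L ^ 2 := one_le_pow₀ hL1
      have h9a := h7.trans (mul_le_mul_of_nonneg_left h8 hh0)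
      have h9b : 0 ≤ 2 * C1 ^ 2 * h ^ 2 := by positivity
      have h9c : 2 * C1 ^ 2 / L ^ 2 ≤ 2 * C1 ^ 2 / 1 := by gcongr
      have h9d : 0 ≤ h * (h * (Cw * T)) := by positivity
      exact add_le_add (mul_le_mul_of_nonneg_right hbaT h9b)
        ((mul_le_mul_of_nonneg_left (mul_le_mul_of_nonneg_left h9a hh0) (by positivity)).trans
          (mul_le_mul_of_nonneg_right h9c h9d))
    have h10 : h ^ 2 ≤ 98 := by nlinarith
    have h11 : ∫ t in a0..b0, r t ^ 2 ≤ 2 * C1 ^ 2 * (1 + Cw) * T * h ^ 2 := by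
      refine h6.trans (h9.trans (le_of_eq ?_))
      ring
    calc (∫ t in a0..b0, r t ^ 2) ≤ 2 * C1 ^ 2 * (1 + Cw) * T * h ^ 2 := h11
      _ ≤ 2 * C1 ^ 2 * (1 + Cw) * T * 98 := by gcongr
      _ = 196 * C1 ^ 2 * (1 + Cw) * T := by ring
  have hshift : ∀ g : ℝ → ℝ, Continuous g → (∫ t in a0..b0, g (t + h)) = ∫ t in (a0 + h)..(b0 + h), g t :=
    fun g hg => intervalIntegral.integral_comp_add_right g h
  have hWs : ∫ t in a0..b0, WW l S (t + h) ^ 2 ≤ Cw * T := by
    rw [hshift (fun t => WW l S t ^ 2) (hWc.pow 2)]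
    exact hWsub _ _ (by rw [ha0]; linarith) (by linarith) (by rw [hb0]; linarith)
  have hWs0 : ∫ t in a0..b0, WW l S t ^ 2 ≤ Cw * T :=
    hWsub _ _ (by rw [ha0]; linarith) hab (by rw [hb0]; linarith)
  have iWs : IntervalIntegrable (fun t => WW l S (t + h) ^ 2) volume a0 b0 :=
    ((hWc.comp (continuous_id.add continuous_const)).pow 2).intervalIntegrable _ _
  have iWs0 : IntervalIntegrable (fun t => WW l S t ^ 2) volume a0 b0 :=
    (hWc.pow 2).intervalIntegrable _ _
  have iE : IntervalIntegrable (fun t => E t ^ 2) volume a0 b0 := by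
    simp_rw [sq]; exact (bE.mul bE).ii _ _
  have ir : IntervalIntegrable (fun t => r t ^ 2) volume a0 b0 := by
    simp_rw [sq]; exact (br.mul br).ii _ _
  have ig : IntervalIntegrable (fun t => g t ^ 2) volume a0 b0 := by
    simp_rw [sq]; exact (bg.mul bg).ii _ _
  have q2 : ∫ t in a0..b0, E t ^ 2 ≤ 4 * Ce ^ 2 * Cw * T := by
    have h1 : ∫ t in a0..b0, E t ^ 2 ≤
        ∫ t in a0..b0, (2 * Ce ^ 2 * WW l S (t + h) ^ 2 + 2 * Ce ^ 2 * WW l S t ^ 2) := by
      refine intervalIntegral.integral_mono_on hab iE ((iWs.const_mul _).add (iWs0.const_mul _))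
        fun t _ => ?_
      have h2 : |E t| ≤ Ce * (WW l S (t + h) + WW l S t) := by
        refine (abs_sub _ _).trans ?_
        have h1 := hEEle l S (t + h)
        have h2 := hEEle l S t
        linarith
      have h3 := WW_nonneg l S t
      have h4 := WW_nonneg l S (t + h)
      calc E t ^ 2 = |E t| ^ 2 := (sq_abs _).symm
        _ ≤ (Ce * (WW l S (t + h) + WW l S t)) ^ 2 := pow_le_pow_left₀ (abs_nonneg _) h2 2
        _ = Ce ^ 2 * (WW l S (t + h) + WW l S t) ^ 2 := by ring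
        _ ≤ Ce ^ 2 * (2 * WW l S (t + h) ^ 2 + 2 * WW l S t ^ 2) := by
            apply mul_le_mul_of_nonneg_left _ (sq_nonneg Ce)
            nlinarith only [sq_nonneg (WW l S (t + h) - WW l S t)]
        _ = _ := by ring
    rw [intervalIntegral.integral_add (iWs.const_mul _) (iWs0.const_mul _),
      intervalIntegral.integral_const_mul, intervalIntegral.integral_const_mul] at h1
    have hc2 : 0 ≤ 2 * Ce ^ 2 := by positivity
    linarith [mul_le_mul_of_nonneg_left hWs hc2, mul_le_mul_of_nonneg_left hWs0 hc2]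
  have q3 : ∫ t in a0..b0, g t ^ 2 ≤ ∫ t in a0..b0, (2 * r t ^ 2 + 2 * E t ^ 2) := by
    refine intervalIntegral.integral_mono_on hab ig ((ir.const_mul _).add (iE.const_mul _))
      fun t _ => ?_
    have e : g t = r t - E t := by simp only [hr]; ring
    rw [e]
    nlinarith only [sq_nonneg (r t + E t)]
  rw [intervalIntegral.integral_add (ir.const_mul _) (iE.const_mul _),
    intervalIntegral.integral_const_mul, intervalIntegral.integral_const_mul] at q3
  have : ∫ t in a0..b0, g t ^ 2 ≤ (2 * (196 * C1 ^ 2 * (1 + Cw)) + 2 * (4 * Ce ^ 2 * Cw)) * T := by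
    linarith
  exact this

end Pool.Agent.W2helper67.RL
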