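import Pool.Agent.W2helper67.RL.Lln
import Pool.Agent.X112.GS.Rec3

set_option autoImplicit false

/-! # The normalised ordinates: unbounded fluctuations, law of large numbers, tightness -/

namespace Pool.Agent.W2helper67.RL

open Filter Topology
open Pool.Agent.X112.GS (Anti Lln Tight inc)

/-- a primitive of the density of the zeros -/
noncomputable def Phi (t : ℝ) : ℝ := (t * Real.log t - t) / (2 * Real.pi)

lemma Phi_low {a b : ℝ} (ha : 0 < a) (hab : a ≤ b) :
    (b - a) * Real.log a / (2 * Real.pi) ≤ Phi b - Phi a := by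
  have hb : 0 < b := by linarith
  unfold Phi
  rw [← sub_div]
  apply div_le_div_of_nonneg_right _ (by positivity)
  have h1 := Real.one_sub_inv_le_log_of_pos (x := b / a) (by positivity)
  rw [Real.log_div hb.ne' ha.ne', inv_div] at h1
  have h2 := mul_le_mul_of_nonneg_left h1 hb.le
  have h3 : b * (1 - a / b) = b - a := by field_simp
  rw [h3] at h2
  linarith

lemma Phi_up {a b : ℝ} (ha : 0 < a) (hab : a ≤ b) :
    Phi b - Phi a ≤ (b - a) * Real.log b / (2 * Real.pi) := by
  have hb : 0 < b := by linarith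
  unfold Phi
  rw [← sub_div]
  apply div_le_div_of_nonneg_right _ (by positivity)
  have h1 := Real.log_le_sub_one_of_pos (x := b / a) (by positivity)
  rw [Real.log_div hb.ne' ha.ne'] at h1
  have h2 := mul_le_mul_of_nonneg_left h1 ha.le
  have h3 : a * (b / a - 1) = b - a := by field_simp
  rw [h3] at h2
  linarith

/-- comparison in a block -/
lemma Phi_block {a b T : ℝ} (hT : 10 ≤ T) (ha1 : T ≤ a) (ha2 : a < 2 * T) (hab : a ≤ b) :
    (b - a) / (2 * Real.pi / Real.log T) ≤ Phi b - Phi a ∧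
    (b - a ≤ 1 → Phi b - Phi a ≤ (b - a) / (2 * Real.pi / Real.log T) + 1) := by
  have hpi := Real.pi_gt_three
  have hL0 : 0 < Real.log T := Real.log_pos (by linarith)
  have e : (b - a) / (2 * Real.pi / Real.log T) = (b - a) * Real.log T / (2 * Real.pi) := by
    field_simp
  rw [e]
  constructor
  · refine le_trans ?_ (Phi_low (by linarith) hab)
    apply div_le_div_of_nonneg_right _ (by positivity)
    exact mul_le_mul_of_nonneg_left (Real.log_le_log (by linarith) ha1) (by linarith)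
  · intro h1
    refine (Phi_up (by linarith) hab).trans ?_
    have h2 : Real.log b ≤ Real.log T + 2 := by
      have h3 : b ≤ T * Real.exp 2 := by
        have h4 : (2.7 : ℝ) ^ 2 ≤ Real.exp 2 := by
          have h5 : Real.exp 2 = Real.exp 1 ^ 2 := by rw [← Real.exp_nat_mul]; norm_num
          rw [h5]
          exact pow_le_pow_left₀ (by norm_num) (by linarith [Real.exp_one_gt_d9]) 2
        nlinarith
      have h4 := Real.log_le_log (by linarith) h3
      rwa [Real.log_mul (by linarith) (Real.exp_pos _).ne', Real.log_exp] at h4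
    have h3 : (b - a) * Real.log b ≤ (b - a) * (Real.log T + 2) :=
      mul_le_mul_of_nonneg_left h2 (by linarith)
    have h4 : (b - a) * Real.log b / (2 * Real.pi) ≤ ((b - a) * Real.log T + 2) / (2 * Real.pi) := by
      apply div_le_div_of_nonneg_right _ (by positivity)
      have : (b - a) * 2 ≤ 2 := by linarith
      linarith
    refine h4.trans ?_
    rw [add_div]
    have h5 : 2 / (2 * Real.pi) ≤ 1 := by
      rw [div_le_one (by positivity)]
      linarith
    linarith

/-- the normalised ordinates -/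
noncomputable def yy (n : ℕ) : ℝ := Phi (od n)

lemma od_mono : Monotone od := by
  intro n m h
  rw [le_od]
  exact ((le_od n (od n)).1 le_rfl).trans h

/-- for large `N` the blocks are large -/
lemma log_large (D : ℝ) : ∃ N0 : ℕ, ∀ N : ℕ, N0 ≤ N → D ≤ Real.log N := by
  have := (Real.tendsto_log_atTop.comp tendsto_natCast_atTop_atTop).eventually_ge_atTop D
  exact this.exists_forall_of_atTop

theorem anti : Anti yy := by
  classical
  intro w θ hθ
  obtain ⟨κ, r0, T0, hκ, hr0, hT0, hblk⟩ := block (ι := Fin 2) 1 1 1 (θ / 128) zero_le_one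
    (by positivity)
  obtain ⟨R1, hR1⟩ : ∃ R1 : ℝ, R1 = max r0 (Real.exp ((7 * (|w| + 1) / κ) ^ 2)) := ⟨_, rfl⟩
  filter_upwards [eventually_ge_atTop ⌈R1⌉₊] with r hr
  have hrR : R1 ≤ (r : ℝ) := (Nat.le_ceil R1).trans (by exact_mod_cast hr)
  have hrr0 : r0 ≤ (r : ℝ) := by rw [hR1] at hrR; exact (le_max_left _ _).trans hrR
  have hr3 : (3 : ℝ) ≤ r := hr0.trans hrr0
  have hrlog : 7 * (|w| + 1) ≤ κ * Real.sqrt (Real.log r) := by
    have h1 : Real.exp ((7 * (|w| + 1) / κ) ^ 2) ≤ r := by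
      rw [hR1] at hrR; exact (le_max_right _ _).trans hrR
    rw [← Real.le_log_iff_exp_le (by linarith)] at h1
    have h2 := Real.le_sqrt_of_sq_le h1
    rw [div_le_iff₀ hκ] at h2
    linarith
  -- the threshold
  obtain ⟨D, hD⟩ : ∃ D : ℝ, D = 7 * (r + |w| + 1) + (r : ℝ) ^ 2 + T0 + 10 := ⟨_, rfl⟩
  obtain ⟨N0, hN0⟩ := dyadic θ (max T0 (Real.exp D)) hθ
  filter_upwards [eventually_ge_atTop N0] with N hN
  refine hN0 N hN _ (fun n hn => (Finset.mem_Icc.1 (Finset.mem_filter.1 hn).1).2) ?_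
  intro T hT _ _ G hG hGT
  have hT1 : T0 ≤ T := (le_max_left _ _).trans hT
  have hT10 : 10 ≤ T := hT0.trans hT1
  have hTD : D ≤ Real.log T := by
    rw [Real.le_log_iff_exp_le (by linarith)]
    exact (le_max_right _ _).trans hT
  have hw0 : 0 ≤ |w| := abs_nonneg w
  have hr2 : (0 : ℝ) ≤ (r : ℝ) ^ 2 := sq_nonneg _
  set L := Real.log T with hL
  have hL0 : 0 < L := by linarith
  have hpi3 := Real.pi_gt_three
  have hpi4 := Real.pi_lt_d2
  have hpi0 := Real.pi_pos
  set ρ := 2 * Real.pi / L with hρ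
  have hρ0 : 0 < ρ := by positivity
  refine hblk T hT1 r hrr0 (by norm_num; linarith) ![0, r] ?_ ?_ {![-1, 1]} (by simp) ?_
    (fun _ => r * ρ) G ?_
  · intro i j hij
    fin_cases i <;> fin_cases j <;> simp at hij ⊢
  · intro i
    fin_cases i <;> simp
  · intro c hc
    rw [Finset.mem_singleton] at hc
    subst hc
    refine ⟨fun i => ?_, ⟨0, by simp⟩, Or.inl (by simp)⟩
    fin_cases i <;> simp
  · intro n hn
    obtain ⟨h1, h2⟩ := hGT n hn
    refine ⟨h1, h2, ![-1, 1], Finset.mem_singleton_self _, ?_⟩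
    have h3 := (Finset.mem_filter.1 (hG hn)).2
    have h4 : od n ≤ od (n + r) := od_mono (by omega)
    obtain ⟨p1, p2⟩ := Phi_block hT10 h1 h2 h4
    rw [← hL, ← hρ] at p1 p2
    unfold yy at h3
    obtain ⟨q1, q2⟩ := abs_le.1 h3
    have hww := le_abs_self w
    have h5 : (od (n + r) - od n) / ρ ≤ r + |w| := by linarith
    have h6 : od (n + r) - od n ≤ 1 := by
      rw [div_le_iff₀ hρ0] at h5
      refine h5.trans ?_
      rw [hρ, ← mul_div_assoc, div_le_one hL0]
      nlinarith
    have h7 := p2 h6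
    have h8 : |(od (n + r) - od n) / ρ - r| ≤ |w| + 1 := by
      rw [abs_le]
      constructor <;> linarith
    have h9 : |od (n + r) - od n - r * ρ| ≤ (|w| + 1) * ρ := by
      have e : od (n + r) - od n - r * ρ = ((od (n + r) - od n) / ρ - r) * ρ := by field_simp
      rw [e, abs_mul, abs_of_pos hρ0]
      exact mul_le_mul_of_nonneg_right h8 hρ0.le
    have h10 : ∑ i, (![-1, 1] : Fin 2 → ℝ) i * od (n + (![0, r] : Fin 2 → ℕ) i) =
        od (n + r) - od n := by
      simp [Fin.sum_univ_two]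
      ring
    rw [h10]
    refine h9.trans ?_
    rw [hρ, ← mul_div_assoc]
    apply div_le_div_of_nonneg_right _ hL0.le
    nlinarith

theorem lln : Lln yy := by
  classical
  intro κ θ hκ hθ
  obtain ⟨m, s0, T0, hm, hs0, hT0, hblk⟩ := blockL (θ / 128) (by positivity)
  -- size of `s`
  have ev1 : ∀ᶠ s : ℝ in atTop, m * Real.log s ≤ κ / 2 * s := by
    have h1 : (fun T : ℝ => m * Real.log T) =o[atTop] fun T : ℝ => T :=
      Real.isLittleO_log_id_atTop.const_mul_left _
    have h2 := h1.bound (c := κ / 2) (by positivity)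
    filter_upwards [h2, eventually_ge_atTop 1] with T hT hT1
    rw [Real.norm_of_nonneg (by linarith : (0 : ℝ) ≤ T)] at hT
    exact (le_abs_self _).trans hT
  obtain ⟨s1, hs1⟩ := ev1.exists_forall_of_atTop
  obtain ⟨R1, hR1⟩ : ∃ R1 : ℝ, R1 = max (max s0 s1) (4 / κ) := ⟨_, rfl⟩
  filter_upwards [eventually_ge_atTop ⌈R1⌉₊] with s hs
  have hsR : R1 ≤ (s : ℝ) := (Nat.le_ceil R1).trans (by exact_mod_cast hs)
  rw [hR1] at hsR
  have hss0 : s0 ≤ (s : ℝ) := ((le_max_left _ _).trans (le_max_left _ _)).trans hsR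
  have hss1 : s1 ≤ (s : ℝ) := ((le_max_right _ _).trans (le_max_left _ _)).trans hsR
  have hs3 : (3 : ℝ) ≤ s := hs0.trans hss0
  have hsk : 4 ≤ κ * s := by
    have := (le_max_right _ _).trans hsR
    rw [div_le_iff₀ hκ] at this
    linarith
  have hlog := hs1 s hss1
  have hl1 : 1 ≤ Real.log s := by
    rw [Real.le_log_iff_exp_le (by linarith)]
    linarith [Real.exp_one_lt_d9]
  have hsqrt : Real.sqrt (Real.log s) ≤ Real.log s := by
    rw [Real.sqrt_le_left (by linarith)]
    nlinarith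
  have hms : m * Real.sqrt (Real.log s) + 1 < κ * s := by
    have := mul_le_mul_of_nonneg_left hsqrt hm.le
    linarith
  obtain ⟨D, hD⟩ : ∃ D : ℝ, D = 7 * (s + κ * s) + (s : ℝ) ^ 2 + T0 + 10 := ⟨_, rfl⟩
  obtain ⟨N0, hN0⟩ := dyadic θ (max T0 (Real.exp D)) hθ
  filter_upwards [eventually_ge_atTop N0] with N hN
  refine hN0 N hN _ (fun n hn => (Finset.mem_Icc.1 (Finset.mem_filter.1 hn).1).2) ?_
  intro T hT _ _ G hG hGT
  have hT1 : T0 ≤ T := (le_max_left _ _).trans hT
  have hT10 : 10 ≤ T := hT0.trans hT1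
  have hTD : D ≤ Real.log T := by
    rw [Real.le_log_iff_exp_le (by linarith)]
    exact (le_max_right _ _).trans hT
  have hr2 : (0 : ℝ) ≤ (s : ℝ) ^ 2 := sq_nonneg _
  have hκs : 0 ≤ κ * s := by positivity
  set L := Real.log T with hL
  have hL0 : 0 < L := by linarith
  have hpi3 := Real.pi_gt_three
  have hpi4 := Real.pi_lt_d2
  have hpi0 := Real.pi_pos
  set ρ := 2 * Real.pi / L with hρ
  have hρ0 : 0 < ρ := by positivity
  refine hblk T hT1 s hss0 (by linarith) G ?_
  intro n hn
  obtain ⟨h1, h2⟩ := hGT n hn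
  refine ⟨h1, h2, ?_⟩
  rw [← hL, ← hρ]
  by_contra hcon
  push Not at hcon
  have h3 := (Finset.mem_filter.1 (hG hn)).2
  have h4 : od n ≤ od (n + s) := od_mono (by omega)
  obtain ⟨p1, p2⟩ := Phi_block hT10 h1 h2 h4
  rw [← hL, ← hρ] at p1 p2
  obtain ⟨q1, q2⟩ := abs_le.1 hcon
  have h5 : (od (n + s) - od n) / ρ ≤ s + κ * s := by linarith
  have h6 : od (n + s) - od n ≤ 1 := by
    rw [div_le_iff₀ hρ0] at h5
    refine h5.trans ?_
    rw [hρ, ← mul_div_assoc, div_le_one hL0]
    nlinarith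
  have h7 := p2 h6
  unfold yy at h3
  have h8 : |Phi (od (n + s)) - Phi (od n) - s| ≤ m * Real.sqrt (Real.log s) + 1 := by
    rw [abs_le]
    constructor <;> linarith
  linarith

lemma Phi_mono {a b : ℝ} (ha : 1 ≤ a) (hab : a ≤ b) : Phi a ≤ Phi b := by
  have h1 := Phi_low (by linarith) hab
  have h2 : 0 ≤ (b - a) * Real.log a / (2 * Real.pi) := by
    have := Real.log_nonneg ha
    have := Real.pi_pos
    have : 0 ≤ b - a := by linarith
    positivity
  linarith

theorem tight : Tight (inc yy) := by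
  classical
  intro θ hθ
  obtain ⟨s, hs, hs1⟩ := ((lln 1 (θ / 2) one_pos (by positivity)).and (eventually_ge_atTop 1)).exists
  refine ⟨2 * s + 1, by positivity, ?_⟩
  have hbig : ∀ᶠ N : ℕ in atTop, (NL 1 : ℝ) ≤ θ / 2 * N :=
    (tendsto_natCast_atTop_atTop.const_mul_atTop (show (0 : ℝ) < θ / 2 by positivity)).eventually_ge_atTop _
  filter_upwards [hs, hbig] with N hN hb
  have hsub : (Finset.Icc 1 N).filter (fun n => (2 * s + 1 : ℝ) < |inc yy n|) ⊆
      (Finset.Icc 1 N).filter (fun n => 1 * (s : ℝ) ≤ |yy (n + s) - yy n - s|) ∪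
        Finset.range (NL 1) := by
    intro n hn
    rw [Finset.mem_filter] at hn
    rw [Finset.mem_union, Finset.mem_filter, Finset.mem_range]
    by_contra hcon
    push Not at hcon
    obtain ⟨c1, c2⟩ := hcon
    have c3 := c1 hn.1
    have h1 : 1 ≤ od n := (le_od n 1).2 c2
    have h2 : yy n ≤ yy (n + 1) := Phi_mono h1 (od_mono (by omega))
    have h3 : yy (n + 1) ≤ yy (n + s) := Phi_mono (h1.trans (od_mono (by omega))) (od_mono (by omega))
    have h4 : |inc yy n| ≤ 2 * s := by
      unfold Pool.Agent.X112.GS.inc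
      rw [abs_of_nonneg (by linarith)]
      have := abs_le.1 c3.le
      linarith [this.2]
    linarith [hn.2]
  have h1 := Finset.card_le_card hsub
  have h2 := Finset.card_union_le ((Finset.Icc 1 N).filter
    (fun n => 1 * (s : ℝ) ≤ |yy (n + s) - yy n - s|)) (Finset.range (NL 1))
  rw [Finset.card_range] at h2
  have h3 : ((((Finset.Icc 1 N).filter (fun n => (2 * s + 1 : ℝ) < |inc yy n|)).card : ℕ) : ℝ) ≤
      ((((Finset.Icc 1 N).filter (fun n => 1 * (s : ℝ) ≤ |yy (n + s) - yy n - s|)).card + NL 1 : ℕ) : ℝ) := by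
    exact_mod_cast h1.trans h2
  push_cast at h3
  linarith

end Pool.Agent.W2helper67.RL
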